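import Mathlib
import Pool.Agent.PL.Alg

/-!
# A hypersurface section of a curve has dimension zero
-/

set_option autoImplicit false

namespace Pool.Agent.Helper89.TNL

open MvPolynomial

section ZD

variable {ν : ℕ} {K : Type} [Field K]

theorem zd_cut (𝔭 𝔪 : Ideal (MvPolynomial (Fin (ν + 1)) K)) (h𝔭 : 𝔭.IsPrime) (h𝔪 : 𝔪.IsPrime)
    (h : 𝔭 ≤ 𝔪) (f : MvPolynomial (Fin (ν + 1)) K) (hf : f ∈ 𝔪) (d : ℕ)
    (hd : ((d + 1 : ℕ) : Cardinal) ≤ Algebra.trdeg K (MvPolynomial (Fin (ν + 1)) K ⧸ 𝔭)) :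
    ∃ 𝔮 : Ideal (MvPolynomial (Fin (ν + 1)) K), 𝔮.IsPrime ∧ 𝔭 ≤ 𝔮 ∧ 𝔮 ≤ 𝔪 ∧ f ∈ 𝔮 ∧
      ((d : ℕ) : Cardinal) ≤ Algebra.trdeg K (MvPolynomial (Fin (ν + 1)) K ⧸ 𝔮) := by
  by_cases hfp : f ∈ 𝔭
  · refine ⟨𝔭, h𝔭, le_rfl, h, hfp, le_trans ?_ hd⟩
    exact_mod_cast Nat.le_succ d
  · obtain ⟨𝔮, h1, h2, h3, h4, h5⟩ := PL.exists_cut (κ := K) 𝔭 𝔪 h𝔭 h𝔪 h f hfp hf d hd
    exact ⟨𝔮, h1, h2.le, h3, h4, h5⟩

/-- The dimension of the cone over a curve. -/
theorem zd_trdeg {I : Ideal (MvPolynomial (Fin (ν + 1)) K)}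
    (hp : I.IsPrime) (hh : ∀ P ∈ I, ∀ m, homogeneousComponent m P ∈ I)
    (hfin : ∃ (l₀ l₁ : Fin (ν + 1) → K) (s : ℕ), ∀ i,
      (X i ^ s : MvPolynomial (Fin (ν + 1)) K) ∈
        I ⊔ Ideal.span {∑ j, C (l₀ j) * X j, ∑ j, C (l₁ j) * X j}) :
    ¬ ((3 : ℕ) : Cardinal) ≤ Algebra.trdeg K (MvPolynomial (Fin (ν + 1)) K ⧸ I) := by
  intro h3
  obtain ⟨l₀, l₁, s, hs⟩ := hfin
  set 𝔪 : Ideal (MvPolynomial (Fin (ν + 1)) K) :=
    RingHom.ker (constantCoeff : MvPolynomial (Fin (ν + 1)) K →+* K) with h𝔪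
  have h𝔪p : 𝔪.IsPrime := RingHom.ker_isPrime _
  have hI : I ≤ 𝔪 := by
    intro P hP
    rw [h𝔪, RingHom.mem_ker]
    by_contra h0
    have h1 := hh P hP 0
    rw [homogeneousComponent_zero] at h1
    refine hp.ne_top (Ideal.eq_top_of_isUnit_mem _ h1 ?_)
    exact (isUnit_iff_ne_zero.2 h0).map C
  have hl : ∀ l : Fin (ν + 1) → K, ∑ j, C (l j) * X j ∈ 𝔪 := by
    intro l
    rw [h𝔪, RingHom.mem_ker, map_sum]
    refine Finset.sum_eq_zero fun j _ => ?_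
    rw [map_mul, constantCoeff_X, mul_zero]
  obtain ⟨q₁, hq₁, hIq₁, hq₁m, hlq₁, hd₁⟩ := zd_cut I 𝔪 hp h𝔪p hI _ (hl l₀) 2 h3
  obtain ⟨q₂, hq₂, hq₁q₂, hq₂m, hlq₂, hd₂⟩ := zd_cut q₁ 𝔪 hq₁ h𝔪p hq₁m _ (hl l₁) 1 hd₁
  have hX : ∀ i, (X i : MvPolynomial (Fin (ν + 1)) K) ∈ q₂ := by
    intro i
    refine hq₂.mem_of_pow_mem s ?_
    have h1 : I ⊔ Ideal.span {∑ j, C (l₀ j) * X j, ∑ j, C (l₁ j) * X j} ≤ q₂ := by
      refine sup_le (hIq₁.trans hq₁q₂) ?_
      rw [Ideal.span_le]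
      rintro x (rfl | rfl)
      · exact hq₁q₂ hlq₁
      · exact hlq₂
    exact h1 (hs i)
  have hsurj : ∀ a : MvPolynomial (Fin (ν + 1)) K ⧸ q₂,
      ∃ c : K, a = algebraMap K (MvPolynomial (Fin (ν + 1)) K ⧸ q₂) c := by
    intro a
    obtain ⟨P, rfl⟩ := Ideal.Quotient.mk_surjective a
    induction P using MvPolynomial.induction_on with
    | C c => exact ⟨c, rfl⟩
    | add P Q hP hQ =>
      obtain ⟨c, hc⟩ := hP
      obtain ⟨c', hc'⟩ := hQ
      exact ⟨c + c', by rw [map_add, hc, hc', map_add]⟩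
    | mul_X P i _ =>
      refine ⟨0, ?_⟩
      rw [map_zero, Ideal.Quotient.eq_zero_iff_mem]
      exact Ideal.mul_mem_left _ _ (hX i)
  have halg : Algebra.IsAlgebraic K (MvPolynomial (Fin (ν + 1)) K ⧸ q₂) := by
    constructor
    intro a
    obtain ⟨c, rfl⟩ := hsurj a
    exact isAlgebraic_algebraMap c
  rw [trdeg_eq_zero] at hd₂
  exact absurd hd₂ (by simp)

theorem zd_hom {I : Ideal (MvPolynomial (Fin (ν + 1)) K)}
    (hh : ∀ P ∈ I, ∀ m, homogeneousComponent m P ∈ I)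
    {h : MvPolynomial (Fin (ν + 1)) K} {n : ℕ} (hn : h.IsHomogeneous n)
    {P : MvPolynomial (Fin (ν + 1)) K} (hP : P ∈ I ⊔ Ideal.span {h}) (m : ℕ) :
    homogeneousComponent m P ∈ I ⊔ Ideal.span {h} := by
  letI : GradedAlgebra (homogeneousSubmodule (Fin (ν + 1)) K) := MvPolynomial.gradedAlgebra
  have h1 : (I ⊔ Ideal.span {h}).IsHomogeneous (homogeneousSubmodule (Fin (ν + 1)) K) := by
    refine Ideal.IsHomogeneous.sup ?_ ?_
    · intro i P hP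
      have h2 := decomposition.decompose'_apply P i
      have h3 := hh P hP i
      rw [← h2] at h3
      exact h3
    · refine Ideal.homogeneous_span _ _ ?_
      rintro x rfl
      exact ⟨n, hn⟩
  exact homogeneousComponent_mem_of_mem h1 hP m

theorem zd_comp (l l' : Fin (ν + 1) → K) (ρ : MvPolynomial (Fin 2) K) (m : ℕ) :
    homogeneousComponent m (aeval ![∑ j, C (l j) * X j, ∑ j, C (l' j) * X j] ρ :
      MvPolynomial (Fin (ν + 1)) K) =
      aeval ![∑ j, C (l j) * X j, ∑ j, C (l' j) * X j] (homogeneousComponent m ρ) := by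
  classical
  have hg : ∀ i : Fin 2, ((![∑ j, C (l j) * X j, ∑ j, C (l' j) * X j] :
      Fin 2 → MvPolynomial (Fin (ν + 1)) K) i).IsHomogeneous 1 := by
    intro i
    have h0 : ∀ l : Fin (ν + 1) → K,
        (∑ j, C (l j) * X j : MvPolynomial (Fin (ν + 1)) K).IsHomogeneous 1 := by
      intro l
      refine IsHomogeneous.sum _ _ _ fun j _ => ?_
      exact (isHomogeneous_X K j).C_mul _
    fin_cases i
    · exact h0 l
    · exact h0 l'
  have h1 : ∀ j, (aeval ![∑ j, C (l j) * X j, ∑ j, C (l' j) * X j]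
      (homogeneousComponent j ρ) : MvPolynomial (Fin (ν + 1)) K).IsHomogeneous j := by
    intro j
    have := (homogeneousComponent_isHomogeneous j ρ).aeval
      (![∑ j, C (l j) * X j, ∑ j, C (l' j) * X j] : Fin 2 → MvPolynomial (Fin (ν + 1)) K) hg
    rwa [one_mul] at this
  conv_lhs => rw [← sum_homogeneousComponent ρ, map_sum, map_sum]
  rw [Finset.sum_congr rfl fun j _ => homogeneousComponent_of_mem (h1 j)]
  rw [Finset.sum_ite_eq]
  split_ifs with hm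
  · rfl
  · rw [homogeneousComponent_eq_zero, map_zero]
    rw [Finset.mem_range, not_lt] at hm
    omega

end ZD

theorem zeroDim {ν : ℕ} {K : Type} [Field K] {I : Ideal (MvPolynomial (Fin (ν + 1)) K)}
    (hp : I.IsPrime) (hh : ∀ P ∈ I, ∀ m, homogeneousComponent m P ∈ I)
    (hfin : ∃ (l₀ l₁ : Fin (ν + 1) → K) (s : ℕ), ∀ i,
      (X i ^ s : MvPolynomial (Fin (ν + 1)) K) ∈
        I ⊔ Ideal.span {∑ j, C (l₀ j) * X j, ∑ j, C (l₁ j) * X j})
    {h : MvPolynomial (Fin (ν + 1)) K} {n : ℕ} (hn : h.IsHomogeneous n) (hI : h ∉ I)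
    (l l' : Fin (ν + 1) → K) :
    ∃ (ρ : MvPolynomial (Fin 2) K) (m : ℕ), ρ ≠ 0 ∧ ρ.IsHomogeneous m ∧
      aeval ![∑ j, C (l j) * X j, ∑ j, C (l' j) * X j] ρ ∈ I ⊔ Ideal.span {h} := by
  classical
  set J : Ideal (MvPolynomial (Fin (ν + 1)) K) := I ⊔ Ideal.span {h} with hJ
  set g : Fin 2 → MvPolynomial (Fin (ν + 1)) K :=
    ![∑ j, C (l j) * X j, ∑ j, C (l' j) * X j] with hg
  have h3 := zd_trdeg hp hh hfin
  -- a relation modulo each prime
  have hrel : ∀ q : Ideal (MvPolynomial (Fin (ν + 1)) K), q ∈ J.minimalPrimes →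
      ∃ ρ : MvPolynomial (Fin 2) K, ρ ≠ 0 ∧ aeval g ρ ∈ q := by
    intro q hq
    have hqp : q.IsPrime := hq.isPrime
    have hJq : J ≤ q := hq.1.2
    have hlt : I < q := by
      refine lt_of_le_of_ne (le_sup_left.trans hJq) ?_
      rintro rfl
      exact hI (hJq (Ideal.mem_sup_right (Ideal.mem_span_singleton_self h)))
    by_contra hcon
    push Not at hcon
    apply h3
    refine PL.trdeg_lt (κ := K) I q hp hqp hlt 2 ?_
    have hind : AlgebraicIndependent K fun i : Fin 2 => Ideal.Quotient.mkₐ K q (g i) := by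
      rw [algebraicIndependent_iff]
      intro ρ hρ
      by_contra hρ0
      refine hcon ρ hρ0 ?_
      rw [← comp_aeval_apply] at hρ
      exact Ideal.Quotient.eq_zero_iff_mem.1 hρ
    have := hind.cardinalMk_le_trdeg
    rwa [Cardinal.mk_fin] at this
  have hfinm : J.minimalPrimes.Finite :=
    Ideal.finite_minimalPrimes_of_isNoetherianRing _ J
  choose! ρ hρ0 hρ using hrel
  set Q : MvPolynomial (Fin 2) K := ∏ q ∈ hfinm.toFinset, ρ q with hQ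
  have hQ0 : Q ≠ 0 := by
    rw [hQ, Finset.prod_ne_zero_iff]
    intro q hq
    exact hρ0 q (hfinm.mem_toFinset.1 hq)
  have hQr : aeval g Q ∈ J.radical := by
    rw [← Ideal.sInf_minimalPrimes, Ideal.mem_sInf]
    intro q hq
    have hqm : q ∈ hfinm.toFinset := hfinm.mem_toFinset.2 hq
    rw [hQ, map_prod, ← Finset.mul_prod_erase _ _ hqm]
    exact Ideal.mul_mem_right _ _ (hρ q hq)
  obtain ⟨N, hN⟩ := hQr
  have hR0 : Q ^ N ≠ 0 := pow_ne_zero _ hQ0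
  have hR : aeval g (Q ^ N) ∈ J := by
    rw [map_pow]
    exact hN
  obtain ⟨m, hm⟩ : ∃ m, homogeneousComponent m (Q ^ N) ≠ 0 := by
    by_contra hcon
    push Not at hcon
    apply hR0
    rw [← sum_homogeneousComponent (Q ^ N)]
    exact Finset.sum_eq_zero fun i _ => hcon i
  refine ⟨homogeneousComponent m (Q ^ N), m, hm, homogeneousComponent_isHomogeneous _ _, ?_⟩
  rw [hg, ← zd_comp l l' (Q ^ N) m]
  exact zd_hom hh hn hR m

end Pool.Agent.Helper89.TNL
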