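import Pool.Agent.Helper89.TNL.Fitting
import Pool.Agent.Helper89.TNL.IterN

/-!
# A basis adapted to the derivative at a periodic point
-/

set_option autoImplicit false

namespace Pool.Agent.Helper89.TNL

open MvPolynomial
open Pool.Agent.Helper36 (step iter)
open Pool.Agent.Helper38.TQ

/-- A nonzero vector is the first vector of a basis. -/
theorem Adapt_basis {ν : ℕ} {k : Type} [Field k] {z : Fin (ν + 1) → k} (hz : z ≠ 0) :
    ∃ (E : Matrix (Fin (ν + 1)) (Option (Fin ν)) k) (B : Matrix (Option (Fin ν)) (Fin (ν + 1)) k),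
      (∀ i, E i none = z i) ∧ B * E = 1 ∧ E * B = 1 := by
  classical
  obtain ⟨i0, hi0⟩ : ∃ i, z i ≠ 0 := by
    by_contra h
    push Not at h
    exact hz (funext h)
  refine ⟨Matrix.of fun i a => a.elim (z i) (fun j => if i = i0.succAbove j then 1 else 0),
    Matrix.of fun a i => a.elim (if i = i0 then (z i0)⁻¹ else 0)
      (fun j => (if i = i0.succAbove j then 1 else 0) -
        (if i = i0 then (z i0)⁻¹ * z (i0.succAbove j) else 0)), fun i => rfl, ?_, ?_⟩
  · ext a b
    rw [Matrix.mul_apply, Fin.sum_univ_succAbove _ i0]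
    rcases a with _ | j <;> rcases b with _ | l
    · simp [Fin.succAbove_ne, hi0]
    · simp [Fin.succAbove_ne, (Fin.succAbove_ne i0 l).symm]
    · simp [Fin.succAbove_ne, (Fin.succAbove_ne i0 j).symm, hi0, Finset.sum_ite_eq]
      field_simp
      ring
    · simp [Fin.succAbove_ne, (Fin.succAbove_ne i0 j).symm, (Fin.succAbove_ne i0 l).symm,
        Matrix.one_apply, eq_comm]
  · ext i i'
    rw [Matrix.mul_apply, Fintype.sum_option, Matrix.one_apply]
    simp only [Matrix.of_apply, Option.elim_none, Option.elim_some]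
    rcases Fin.eq_self_or_eq_succAbove i0 i with h | ⟨j, h⟩ <;>
      rcases Fin.eq_self_or_eq_succAbove i0 i' with h' | ⟨j', h'⟩
    · subst h; subst h'
      simp [(Fin.succAbove_ne _ _).symm, hi0]
    · subst h; subst h'
      simp [(Fin.succAbove_ne _ _).symm, Fin.succAbove_ne]
    · subst h; subst h'
      simp [(Fin.succAbove_ne _ _).symm, Fin.succAbove_ne]
      field_simp
      ring
    · subst h; subst h'
      simp [(Fin.succAbove_ne _ _).symm, Fin.succAbove_ne, eq_comm]

theorem Adapt_core {ν : ℕ} {k : Type} [Field k] {z : Fin (ν + 1) → k} (hz : z ≠ 0)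
    (W : Matrix (Fin (ν + 1)) (Fin (ν + 1)) k) {g c₀ : k} (hg : g ≠ 0)
    (hW : W.mulVec z = c₀ • z) :
    ∃ (E : Matrix (Fin (ν + 1)) (Option (Fin ν)) k) (B : Matrix (Option (Fin ν)) (Fin (ν + 1)) k)
      (M₀ : Matrix (Fin ν) (Fin ν) k), (∀ i, E i none = z i) ∧ B * E = 1 ∧ E * B = 1 ∧
      ∀ Q : ℕ, ∃ β : Fin ν → k, ∀ j i,
        (W ^ Q * E) i (some j) = g ^ Q * ∑ l, (M₀ ^ Q) l j * E i (some l) + β j * z i := by
  classical
  obtain ⟨E, B, hE, hBE, hEB⟩ := Adapt_basis hz
  refine ⟨E, B, Matrix.of fun i j => g⁻¹ * (B * W * E) (some i) (some j), hE, hBE, hEB, ?_⟩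
  set D : Matrix (Option (Fin ν)) (Option (Fin ν)) k := B * W * E with hD
  set M₀ : Matrix (Fin ν) (Fin ν) k := Matrix.of fun i j => g⁻¹ * D (some i) (some j) with hM₀
  have hWE : W * E = E * D := by
    rw [hD, ← Matrix.mul_assoc, ← Matrix.mul_assoc, hEB, Matrix.one_mul]
  have hpow : ∀ Q : ℕ, W ^ Q * E = E * D ^ Q := by
    intro Q
    induction Q with
    | zero => rw [pow_zero, pow_zero, Matrix.one_mul, Matrix.mul_one]
    | succ Q ih =>
      rw [pow_succ, Matrix.mul_assoc, hWE, ← Matrix.mul_assoc, ih, Matrix.mul_assoc, ← pow_succ]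
  have hnone : ∀ a, D (some a) none = 0 := by
    intro a
    have h1 : ∀ p, (W * E) p none = c₀ * E p none := by
      intro p
      have h2 := congrFun hW p
      rw [Pi.smul_apply, smul_eq_mul] at h2
      rw [hE, ← h2, Matrix.mul_apply]
      refine Finset.sum_congr rfl fun i _ => ?_
      rw [hE]
    have h3 : D (some a) none = c₀ * (B * E) (some a) none := by
      rw [hD, Matrix.mul_assoc, Matrix.mul_apply, Matrix.mul_apply, Finset.mul_sum]
      refine Finset.sum_congr rfl fun p _ => ?_
      rw [h1]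
      ring
    rw [h3, hBE, Matrix.one_apply_ne (by simp), mul_zero]
  have hDs : ∀ (Q : ℕ) (i j : Fin ν), (D ^ Q) (some i) (some j) = g ^ Q * (M₀ ^ Q) i j := by
    intro Q
    induction Q with
    | zero =>
      intro i j
      rw [pow_zero, pow_zero, pow_zero, one_mul, Matrix.one_apply, Matrix.one_apply]
      simp
    | succ Q ih =>
      intro i j
      rw [pow_succ', Matrix.mul_apply, Fintype.sum_option, hnone, zero_mul, zero_add,
        pow_succ' M₀, Matrix.mul_apply, Finset.mul_sum]
      refine Finset.sum_congr rfl fun l _ => ?_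
      have hD0 : D (some i) (some l) = g * M₀ i l := by
        rw [hM₀, Matrix.of_apply, ← mul_assoc, mul_inv_cancel₀ hg, one_mul]
      rw [ih, hD0]
      ring
  intro Q
  refine ⟨fun j => (D ^ Q) none (some j), fun j i => ?_⟩
  rw [hpow, Matrix.mul_apply, Fintype.sum_option, hE, Finset.mul_sum, add_comm, mul_comm (z i)]
  congr 1
  refine Finset.sum_congr rfl fun l _ => ?_
  rw [hDs]
  ring

theorem exists_adapted {ν : ℕ} {k : Type} [Field k] [IsAlgClosed k] [CharZero k] {d : ℕ}
    {f : Fin (ν + 1) → MvPolynomial (Fin (ν + 1)) k} (hf : IsEndo d f) {z : Fin (ν + 1) → k}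
    (hz : z ≠ 0) {N : ℕ} (hN : 0 < N) (hper : PEq z (iter f z N)) :
    ∃ (Q m m' : ℕ) (e : Option (Fin m ⊕ Fin m') → Fin (ν + 1) → k)
      (B : Fin (ν + 1) → Option (Fin m ⊕ Fin m') → k) (M₁ : Matrix (Fin m) (Fin m) k)
      (G : Subgroup kˣ) (γ : k) (α : Fin m ⊕ Fin m' → k), 0 < Q ∧ e none = z ∧
      (∀ a a', ∑ i, e a i * B i a' = if a = a' then 1 else 0) ∧
      (∀ i i', ∑ a, B i a * e a i' = if i = i' then 1 else 0) ∧ γ ≠ 0 ∧
      iter f z (N * Q) = γ • z ∧
      (∀ a, (mult f z (N * Q)).mulVec (e (some a)) =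
        γ • ∑ i, Matrix.fromBlocks M₁ 0 0 0 i a • e (some i) + α a • z) ∧
      M₁.det ≠ 0 ∧ TorsFree G ∧ EigIn G M₁ := by
  classical
  obtain ⟨g, hg, hgz⟩ := hper
  have hd : (d : k) ≠ 0 := by
    have := hf.two_le
    exact_mod_cast (by omega : d ≠ 0)
  set W := mult f z N with hWdef
  have hW : W.mulVec z = ((d : k) ^ N * g) • z := by
    rw [hWdef, mult_mulVec_self hf.hom, hgz, smul_smul]
  have hiter : ∀ Q : ℕ, ∃ gQ κ : k, gQ ≠ 0 ∧ κ ≠ 0 ∧ iter f z (N * Q) = gQ • z ∧
      mult f z (N * Q) = κ • W ^ Q := by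
    intro Q
    induction Q with
    | zero =>
      refine ⟨1, 1, one_ne_zero, one_ne_zero, ?_, ?_⟩
      · rw [mul_zero, one_smul]; rfl
      · rw [mul_zero, one_smul, pow_zero]; rfl
    | succ Q ih =>
      obtain ⟨gQ, κ, h1, h2, h3, h4⟩ := ih
      obtain ⟨c', hc', h5⟩ := mult_smul hf.hom z h1 N
      refine ⟨gQ ^ d ^ N * g, c' * κ, mul_ne_zero (pow_ne_zero _ h1) hg, mul_ne_zero hc' h2, ?_, ?_⟩
      · rw [mul_add, mul_one, add_comm (N * Q) N, Helper36.iter_add, h3, iter_smul hf, hgz, smul_smul]
      · rw [mul_add, mul_one, mult_addN, h3, h5, h4, pow_succ', Matrix.smul_mul, Matrix.mul_smul,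
          smul_smul, ← hWdef]
  obtain ⟨E, B₀, M₀, hE, hBE, hEB, hcore⟩ := Adapt_core hz W hg hW
  obtain ⟨Q, m, m', P, P', M₁, G, hQ, hPP, hPP', hfit, hdet, htor, heig⟩ := exists_fitting M₀
  obtain ⟨γ, κ, hγ, hκ, hγz, hmul⟩ := hiter Q
  obtain ⟨β, hβ⟩ := hcore Q
  have hκγ : κ * g ^ Q = γ := by
    have h1 := mult_mulVec_self hf.hom z (N * Q)
    rw [hmul, hγz, smul_smul] at h1
    have h2 : ∀ R : ℕ, (W ^ R).mulVec z = ((d : k) ^ N * g) ^ R • z := by
      intro R
      induction R with
      | zero => rw [pow_zero, pow_zero, Matrix.one_mulVec, one_smul]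
      | succ R ih =>
        rw [pow_succ, ← Matrix.mulVec_mulVec, hW, Matrix.mulVec_smul, ih, smul_smul, pow_succ']
    rw [Matrix.smul_mulVec, h2, smul_smul] at h1
    have h3 : κ * ((d : k) ^ N * g) ^ Q = (d : k) ^ (N * Q) * γ := smul_left_injective k hz h1
    have h4 : (d : k) ^ (N * Q) ≠ 0 := pow_ne_zero _ hd
    apply mul_left_cancel₀ h4
    rw [← h3, mul_pow, ← pow_mul]
    ring
  refine ⟨Q, m, m', fun a i => a.elim (z i) (fun b => ∑ l, P l b * E i (some l)),
    fun i a => a.elim (B₀ none i) (fun b => ∑ l, B₀ (some l) i * P' b l), M₁, G, γ,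
    fun a => κ * ∑ l, P l a * β l, hQ, rfl, ?_, ?_, hγ, hγz, ?_, hdet, htor, heig⟩
  · have hBE' : ∀ a b, ∑ i, E i b * B₀ a i = if b = a then 1 else 0 := by
      intro a b
      have := congrFun (congrFun hBE a) b
      rw [Matrix.mul_apply, Matrix.one_apply] at this
      rw [show (∑ i, E i b * B₀ a i) = ∑ i, B₀ a i * E i b from
        Finset.sum_congr rfl fun i _ => mul_comm _ _, this]
      simp [eq_comm]
    intro a a'
    rcases a with _ | b <;> rcases a' with _ | b'
    · simp only [Option.elim_none, ← hE]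
      rw [hBE']
      simp
    · simp only [Option.elim_none, Option.elim_some, ← hE]
      rw [if_neg (by simp)]
      simp_rw [Finset.mul_sum]
      rw [Finset.sum_comm]
      refine Finset.sum_eq_zero fun l _ => ?_
      have : ∀ i, E i none * (B₀ (some l) i * P' b' l) = P' b' l * (E i none * B₀ (some l) i) :=
        fun i => by ring
      rw [Finset.sum_congr rfl fun i _ => this i, ← Finset.mul_sum, hBE', if_neg (by simp),
        mul_zero]
    · simp only [Option.elim_none, Option.elim_some]
      rw [if_neg (by simp)]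
      simp_rw [Finset.sum_mul]
      rw [Finset.sum_comm]
      refine Finset.sum_eq_zero fun l _ => ?_
      have : ∀ i, P l b * E i (some l) * B₀ none i = P l b * (E i (some l) * B₀ none i) :=
        fun i => by ring
      rw [Finset.sum_congr rfl fun i _ => this i, ← Finset.mul_sum, hBE', if_neg (by simp),
        mul_zero]
    · simp only [Option.elim_some]
      have h1 : ∀ i, (∑ l, P l b * E i (some l)) * (∑ l, B₀ (some l) i * P' b' l) =
          ∑ l, ∑ l', P l b * P' b' l' * (E i (some l) * B₀ (some l') i) := by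
        intro i
        rw [Finset.sum_mul_sum]
        refine Finset.sum_congr rfl fun l _ => Finset.sum_congr rfl fun l' _ => ?_
        ring
      rw [Finset.sum_congr rfl fun i _ => h1 i, Finset.sum_comm]
      have h2 : ∀ l, ∑ i, ∑ l', P l b * P' b' l' * (E i (some l) * B₀ (some l') i) =
          P' b' l * P l b := by
        intro l
        rw [Finset.sum_comm]
        rw [Finset.sum_eq_single l]
        · rw [← Finset.mul_sum, hBE', if_pos rfl]
          ring
        · intro l' _ hl'
          rw [← Finset.mul_sum, hBE', if_neg (by simpa using hl'.symm), mul_zero]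
        · intro h
          exact absurd (Finset.mem_univ _) h
      rw [Finset.sum_congr rfl fun l _ => h2 l]
      have h3 := congrFun (congrFun hPP' b') b
      rw [Matrix.mul_apply, Matrix.one_apply] at h3
      rw [h3]
      simp [eq_comm]
  · intro i i'
    rw [Fintype.sum_option]
    simp only [Option.elim_none, Option.elim_some]
    have h1 : ∀ b : Fin m ⊕ Fin m', (∑ l, B₀ (some l) i * P' b l) * (∑ l, P l b * E i' (some l)) =
        ∑ l, ∑ l', (B₀ (some l) i * E i' (some l')) * (P l' b * P' b l) := by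
      intro b
      rw [Finset.sum_mul_sum]
      refine Finset.sum_congr rfl fun l _ => Finset.sum_congr rfl fun l' _ => ?_
      ring
    have h2 : ∀ l, ∑ b : Fin m ⊕ Fin m', ∑ l', (B₀ (some l) i * E i' (some l')) *
        (P l' b * P' b l) = B₀ (some l) i * E i' (some l) := by
      intro l
      rw [Finset.sum_comm]
      rw [Finset.sum_eq_single l]
      · rw [← Finset.mul_sum]
        have h3 := congrFun (congrFun hPP l) l
        rw [Matrix.mul_apply, Matrix.one_apply_eq] at h3
        rw [h3, mul_one]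
      · intro l' _ hl'
        rw [← Finset.mul_sum]
        have h3 := congrFun (congrFun hPP l') l
        rw [Matrix.mul_apply, Matrix.one_apply_ne hl'] at h3
        rw [h3, mul_zero]
      · intro h
        exact absurd (Finset.mem_univ _) h
    rw [Finset.sum_congr rfl fun b _ => h1 b, Finset.sum_comm, Finset.sum_congr rfl fun l _ => h2 l]
    have h4 := congrFun (congrFun hEB i') i
    rw [Matrix.mul_apply, Matrix.one_apply, Fintype.sum_option, hE] at h4
    rw [mul_comm (B₀ none i), show (∑ l, B₀ (some l) i * E i' (some l)) =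
      ∑ l, E i' (some l) * B₀ (some l) i from Finset.sum_congr rfl fun l _ => mul_comm _ _, h4]
    simp [eq_comm]
  · intro a
    funext i
    have h1 : (mult f z (N * Q)).mulVec (fun i => ∑ l, P l a * E i (some l)) i =
        κ * ∑ l, P l a * (W ^ Q * E) i (some l) := by
      rw [hmul, Matrix.smul_mulVec, Pi.smul_apply, smul_eq_mul]
      congr 1
      simp only [Matrix.mulVec, dotProduct, Matrix.mul_apply, Finset.mul_sum]
      rw [Finset.sum_comm]
      refine Finset.sum_congr rfl fun l _ => Finset.sum_congr rfl fun j _ => ?_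
      ring
    have h4 : ∑ l, P l a * ∑ l', (M₀ ^ Q) l' l * E i (some l') =
        ∑ b, Matrix.fromBlocks M₁ 0 0 0 b a * ∑ l', P l' b * E i (some l') := by
      rw [← hfit]
      have h5 : ∑ l, P l a * ∑ l', (M₀ ^ Q) l' l * E i (some l') =
          Matrix.vecMul (Matrix.vecMul (fun l => E i (some l)) (M₀ ^ Q)) P a := by
        simp only [Matrix.vecMul, dotProduct]
        refine Finset.sum_congr rfl fun l _ => ?_
        rw [mul_comm]
        congr 1
        exact Finset.sum_congr rfl fun l' _ => mul_comm _ _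
      have h6 : ∑ b, (P' * M₀ ^ Q * P) b a * ∑ l', P l' b * E i (some l') =
          Matrix.vecMul (Matrix.vecMul (fun l => E i (some l)) P) (P' * M₀ ^ Q * P) a := by
        simp only [Matrix.vecMul, dotProduct]
        refine Finset.sum_congr rfl fun l _ => ?_
        rw [mul_comm]
        congr 1
        exact Finset.sum_congr rfl fun l' _ => mul_comm _ _
      rw [h5, h6, Matrix.vecMul_vecMul, Matrix.vecMul_vecMul, ← Matrix.mul_assoc, ← Matrix.mul_assoc,
        hPP, Matrix.one_mul]
    show (mult f z (N * Q)).mulVec (fun i => ∑ l, P l a * E i (some l)) i = _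
    rw [h1]
    simp_rw [hβ]
    rw [Pi.add_apply, Pi.smul_apply, Pi.smul_apply, Finset.sum_apply]
    simp only [Pi.smul_apply, smul_eq_mul, Option.elim_some]
    rw [← h4, ← hκγ]
    simp only [mul_add, Finset.sum_add_distrib, Finset.mul_sum, Finset.sum_mul]
    congr 1
    · refine Finset.sum_congr rfl fun l _ => Finset.sum_congr rfl fun l' _ => ?_
      ring
    · refine Finset.sum_congr rfl fun l _ => ?_
      ring

end Pool.Agent.Helper89.TNL
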