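import Pool.Agent.Helper89.TNL.Taylor

/-!
# Differences of the points of an orbit, and the recursion of the rescaled orbit
-/

set_option autoImplicit false

namespace Pool.Agent.Helper89.TNL

open MvPolynomial

section aux

variable {R ι : Type} [CommRing R]

theorem Contr_geo (π : R) (L W G : MvPolynomial ι R) (I : ℕ) :
    ∃ P : MvPolynomial ι R, ∀ (u : ι → R) (y : R),
      y * (1 - π * eval u W) = eval u L + π * eval u G →
        π ^ I ∣ y - (eval u L + π * eval u P) := by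
  induction I with
  | zero => exact ⟨0, fun u y _ => by simp⟩
  | succ I ih =>
    obtain ⟨P, hP⟩ := ih
    refine ⟨G + W * (L + C π * P), fun u y h => ?_⟩
    obtain ⟨z, hz⟩ := hP u y h
    refine ⟨eval u W * z, ?_⟩
    simp only [map_add, map_mul, eval_C]
    linear_combination h + π * eval u W * hz

variable [Fintype ι] [DecidableEq ι]

theorem Contr_coord [IsDomain R] {π ω : R} (hπ0 : π ≠ 0) {v : ι → R}
    (hv : ∀ i, π ∣ v i) {e : ℕ} (he : 1 ≤ e) (B N : MvPolynomial ι R) (lam : ι → R)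
    (hω : ω * B.coeff 0 ^ 2 = 1) (hN : π ∣ N.coeff 0)
    (hx : ∀ l, π ∣ N.coeff (Finsupp.single l 1) - B.coeff 0 * lam l) (I : ℕ) :
    ∃ P : MvPolynomial ι R, ∀ (u : ι → R) (y c : R), c * eval v B = eval v N →
      (c + π ^ e * y) * eval (fun i => v i + π ^ e * u i) B =
        eval (fun i => v i + π ^ e * u i) N →
      π ^ I ∣ y - (∑ l, lam l * u l + π * eval u P) := by
  obtain ⟨QB, hQB⟩ := taylor_res B hv he
  obtain ⟨QN, hQN⟩ := taylor_res N hv he
  obtain ⟨m, hm⟩ := eval_zero_congr B hv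
  obtain ⟨n₁, hn₁⟩ := eval_zero_congr N hv
  obtain ⟨n₂, hn₂⟩ := hN
  choose x hx using hx
  obtain ⟨e', rfl⟩ : ∃ e', e = e' + 1 := ⟨e - 1, by omega⟩
  set b₀ := B.coeff 0 with hb₀
  have hb : eval v B = b₀ + π * m := by linear_combination hm
  have hn : eval v N = π * (n₁ + n₂) := by linear_combination hn₁ + hn₂
  obtain ⟨L, hL⟩ : ∃ L : MvPolynomial ι R, ∀ u, eval u L = ∑ l, lam l * u l :=
    ⟨∑ j, C (lam j) * X j, fun u => by simp⟩
  obtain ⟨Y, hY⟩ : ∃ Y : MvPolynomial ι R, ∀ u, eval u Y = ∑ l, x l * u l :=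
    ⟨∑ j, C (x j) * X j, fun u => by simp⟩
  obtain ⟨TB, hTB⟩ : ∃ TB : MvPolynomial ι R, ∀ u, eval u TB =
      ∑ l, B.coeff (Finsupp.single l 1) * u l + π * eval u QB :=
    ⟨∑ j, C (B.coeff (Finsupp.single j 1)) * X j + C π * QB, fun u => by simp⟩
  obtain ⟨P, hP⟩ := Contr_geo π L
    (-(C ω * (C (2 * b₀ * m + π * m ^ 2) + C (π ^ e' * (b₀ + π * m)) * TB)))
    (C ω * (C (b₀ * m) * L + (Y + QN) * C (b₀ + π * m) - C (n₁ + n₂) * TB)) I
  refine ⟨P, fun u y c hc h => ?_⟩
  rw [← hL]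
  refine hP u y ?_
  rw [hQB, hQN, ← hTB] at h
  have hcN : ∑ l, N.coeff (Finsupp.single l 1) * u l = b₀ * eval u L + π * eval u Y := by
    rw [hL, hY, Finset.mul_sum, Finset.mul_sum, ← Finset.sum_add_distrib]
    refine Finset.sum_congr rfl fun l _ => ?_
    linear_combination u l * hx l
  rw [hcN] at h
  have hcan : y * (eval v B + π ^ (e' + 1) * eval u TB) + c * eval u TB =
      b₀ * eval u L + π * eval u Y + π * eval u QN := by
    have h0 : π ^ (e' + 1) ≠ 0 := pow_ne_zero _ hπ0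
    apply mul_left_cancel₀ h0
    linear_combination h - hc
  have hmul : y * ((eval v B + π ^ (e' + 1) * eval u TB) * eval v B) + eval v N * eval u TB =
      (b₀ * eval u L + π * eval u Y + π * eval u QN) * eval v B := by
    linear_combination eval v B * hcan - eval u TB * hc
  rw [hb, hn] at hmul
  simp only [map_neg, map_mul, map_add, map_sub, eval_C]
  rw [pow_succ] at hmul
  linear_combination ω * hmul + (eval u L - y) * hω

end aux

variable {R k : Type} [CommRing R] [IsDomain R] [Field k] [Algebra k R] {π : R} {χ : R →+* k}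
  {ι : Type} [Fintype ι] [DecidableEq ι] {A0 : MvPolynomial ι R} {A : ι → MvPolynomial ι R}

omit [IsDomain R] [Fintype ι] [DecidableEq ι] in
theorem Contr_lin (hR : Res π χ) {M : Matrix ι ι k} (hM : LinN χ A0 A M) (i l : ι) :
    π ∣ (A i).coeff (Finsupp.single l 1) - A0.coeff 0 * algebraMap k R (M i l) := by
  rw [← hR.ker, map_sub, map_mul, hR.sec, hM, sub_self]

omit [IsDomain R] in
theorem Contr_unit (hR : Res π χ) (hA : GermN π A0 A) {v : ι → R} (hv : ∀ i, π ∣ v i) :
    IsUnit (eval v A0) := by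
  refine hR.unif.unit _ fun hd => hA.c0 ?_
  exact (dvd_sub_right hd).1 (eval_zero_congr A0 hv)

/-- Differences of points of two orbits. -/
theorem germ_contr (hR : Res π χ) (hA : GermN π A0 A) {M : Matrix ι ι k} (hM : LinN χ A0 A M)
    {p q : ℕ → ι → R} (hp : OrbN π A0 A p) (hq : OrbN π A0 A q) (j j' : ℕ) :
    ∃ N : ι → ι → R, ∀ i, p (j + 1) i - q (j' + 1) i =
      ∑ l, (algebraMap k R (M i l) + π * N i l) * (p j l - q j' l) := by
  have hsu := hp.small j
  have hsv := hq.small j'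
  obtain ⟨r0, h0⟩ := taylor_n A0 hsu hsv
  choose r h using fun i => taylor_n (A i) hsu hsv
  obtain ⟨m, hm⟩ := eval_zero_congr A0 hsu
  choose n hn using fun i => eval_zero_congr (A i) hsv
  choose n' hn' using hA.c1
  choose x hx using fun i l => Contr_lin hR hM i l
  obtain ⟨u, hu⟩ := (Contr_unit hR hA hsu).exists_left_inv
  obtain ⟨v, hv⟩ := (Contr_unit hR hA hsv).exists_left_inv
  refine ⟨fun i l => -(u * m * algebraMap k R (M i l)) + u * (x i l + r i l) -
    u * v * (n i + n' i) * (A0.coeff (Finsupp.single l 1) + π * r0 l), fun i => ?_⟩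
  have e : p (j + 1) i - q (j' + 1) i = u * (eval (p j) (A i) - eval (q j') (A i)) -
      u * v * eval (q j') (A i) * (eval (p j) A0 - eval (q j') A0) := by
    rw [← hp.step, ← hq.step]
    linear_combination (-p (j + 1) i + q (j' + 1) i * eval (q j') A0 * v) * hu +
      (q (j' + 1) i - u * q (j' + 1) i * eval (q j') A0) * hv
  rw [e, h, h0, Finset.mul_sum, Finset.mul_sum, ← Finset.sum_sub_distrib]
  refine Finset.sum_congr rfl fun l _ => ?_
  have hN : eval (q j') (A i) = π * (n i + n' i) := by linear_combination hn i + hn' i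
  rw [hN]
  linear_combination u * (p j l - q j' l) * hx i l +
    algebraMap k R (M i l) * (p j l - q j' l) * (hu - u * hm)

/-- The recursion of the rescaled orbit. -/
theorem germ_rec (hR : Res π χ) (hA : GermN π A0 A) {M : Matrix ι ι k} (hM : LinN χ A0 A M)
    {p : ℕ → ι → R} (hp : OrbN π A0 A p) {j₀ e : ℕ} (he : 1 ≤ e) {ξ : ℕ → ι → R}
    (hξ : ∀ t i, p (j₀ + t) i = p j₀ i + π ^ e * ξ t i) :
    ∃ c : ι → R, ∀ I : ℕ, ∃ P : ι → MvPolynomial ι R, ∀ t i,
      π ^ I ∣ ξ (t + 1) i - (c i + ∑ l, algebraMap k R (M i l) * ξ t l +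
        π * eval (ξ t) (P i)) := by
  obtain ⟨ω₁, hω₁⟩ := (hR.unif.unit _ hA.c0).exists_left_inv
  have hω : ω₁ ^ 2 * A0.coeff 0 ^ 2 = 1 := by
    rw [← mul_pow, hω₁, one_pow]
  refine ⟨ξ 1, fun I => ?_⟩
  choose P hP using fun i => Contr_coord hR.unif.prime.ne_zero (hp.small j₀) he A0 (A i)
    (fun l => algebraMap k R (M i l)) hω (hA.c1 i) (fun l => Contr_lin hR hM i l) I
  refine ⟨P, fun t i => ?_⟩
  have hpt : p (j₀ + t) = fun i => p j₀ i + π ^ e * ξ t i := funext (hξ t)
  have ha := hξ (t + 1) i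
  have hb := hξ 1 i
  rw [← add_assoc] at ha
  have h := hP i (ξ t) (ξ (t + 1) i - ξ 1 i) (p (j₀ + 1) i) (hp.step j₀ i) (by
    rw [← hpt, ← hp.step]
    congr 1
    rw [ha, hb]; ring)
  convert h using 1
  ring

end Pool.Agent.Helper89.TNL
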