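import Pool.Agent.Helper89.TNL.Defs

/-!
# Either the orbit converges or its points are separated
-/

set_option autoImplicit false

namespace Pool.Agent.Helper89.TNL

open MvPolynomial

theorem dichotomy {R k : Type} [CommRing R] [IsDomain R] [Field k] [Algebra k R] {π : R}
    {χ : R →+* k} (hR : Res π χ) {α β : Type} [Fintype α] [DecidableEq α] [Fintype β]
    [DecidableEq β] {M₁ : Matrix α α k} (hM₁ : M₁.det ≠ 0)
    (hgeo : ∀ t, 0 < t → (∑ i ∈ Finset.range t, M₁ ^ i).det ≠ 0) {p : ℕ → α ⊕ β → R}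
    (hcontr : ∀ j j', ∃ N : α ⊕ β → α ⊕ β → R, ∀ i, p (j + 1) i - p (j' + 1) i =
      ∑ l, (algebraMap k R (Matrix.fromBlocks M₁ 0 0 0 i l) + π * N i l) * (p j l - p j' l)) :
    Conv π (fun s => p (s + 1)) p ∨
    ∃ (j₀ e : ℕ) (ξ : ℕ → α ⊕ β → R), (∀ t i, p (j₀ + t) i = p j₀ i + π ^ e * ξ t i) ∧
      ∀ t t', t ≠ t' → ∃ a : α, ¬ π ∣ ξ t (Sum.inl a) - ξ t' (Sum.inl a) := by
  classical
  by_cases hc : Conv π (fun s => p (s + 1)) p
  · exact Or.inl hc
  right
  have hπ : π ≠ 0 := hR.unif.prime.ne_zero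
  have hstep : ∀ s, ∃ N : α ⊕ β → α ⊕ β → R, ∀ i, p (s + 1 + 1) i - p (s + 1) i =
      ∑ l, (algebraMap k R (Matrix.fromBlocks M₁ 0 0 0 i l) + π * N i l) *
        (p (s + 1) l - p s l) := fun s => hcontr (s + 1) s
  have mono : ∀ e s, (∀ i, π ^ e ∣ p (s + 1) i - p s i) →
      ∀ i, π ^ e ∣ p (s + 1 + 1) i - p (s + 1) i := by
    intro e s h i
    obtain ⟨N, hN⟩ := hstep s
    rw [hN i]
    exact Finset.dvd_sum fun l _ => Dvd.dvd.mul_left (h l) _
  have mono' : ∀ e s t, (∀ i, π ^ e ∣ p (s + 1) i - p s i) →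
      ∀ i, π ^ e ∣ p (s + t + 1) i - p (s + t) i := by
    intro e s t h
    induction t with
    | zero => simpa using h
    | succ t ih => exact mono e (s + t) ih
  have hex : ∃ I, ∀ s, ¬ ∀ i, π ^ I ∣ p (s + 1) i - p s i := by
    by_contra hcon
    push Not at hcon
    apply hc
    intro I
    obtain ⟨s, hs⟩ := hcon I
    refine ⟨s, fun s' hs' i => ?_⟩
    obtain ⟨t, rfl⟩ := Nat.exists_eq_add_of_le hs'
    exact mono' I s t hs i
  obtain ⟨e, j₀, hj₀, hmax⟩ : ∃ e j₀, (∀ i, π ^ e ∣ p (j₀ + 1) i - p j₀ i) ∧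
      ∀ s, ¬ ∀ i, π ^ (e + 1) ∣ p (s + 1) i - p s i := by
    have h1 := Nat.find_spec hex
    have h2 : Nat.find hex ≠ 0 := by
      intro h0
      rw [h0] at h1
      exact h1 0 (fun i => by simp)
    obtain ⟨e, he⟩ := Nat.exists_eq_succ_of_ne_zero h2
    have h3 : ¬ ∀ s, ¬ ∀ i, π ^ e ∣ p (s + 1) i - p s i :=
      Nat.find_min hex (by omega)
    push Not at h3
    obtain ⟨j₀, hj₀⟩ := h3
    rw [he] at h1
    exact ⟨e, j₀, hj₀, h1⟩
  have hu : ∀ t, ∃ u : α ⊕ β → R, ∀ i, p (j₀ + t + 1) i - p (j₀ + t) i = π ^ e * u i := by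
    intro t
    choose u hu using mono' e j₀ t hj₀
    exact ⟨u, hu⟩
  choose u hu using hu
  have hpe : π ^ e ≠ 0 := pow_ne_zero _ hπ
  have hnz : ∀ t, ∃ i, χ (u t i) ≠ 0 := by
    intro t
    by_contra hcon
    push Not at hcon
    apply hmax (j₀ + t)
    intro i
    rw [hu t i, pow_succ]
    exact mul_dvd_mul_left _ ((hR.ker _).1 (hcon i))
  have hχπ : χ π = 0 := (hR.ker π).2 dvd_rfl
  have hrec : ∀ t i, χ (u (t + 1) i) =
      ∑ l, Matrix.fromBlocks M₁ 0 0 0 i l * χ (u t l) := by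
    intro t i
    obtain ⟨N, hN⟩ := hstep (j₀ + t)
    have h1 : u (t + 1) i = ∑ l, (algebraMap k R (Matrix.fromBlocks M₁ 0 0 0 i l) +
        π * N i l) * u t l := by
      apply mul_left_cancel₀ hpe
      have h2 := hu (t + 1) i
      have h3 := hN i
      rw [show j₀ + (t + 1) = j₀ + t + 1 by ring] at h2
      rw [← h2, h3, Finset.mul_sum]
      refine Finset.sum_congr rfl fun l _ => ?_
      rw [hu t l]
      ring
    rw [h1, map_sum]
    refine Finset.sum_congr rfl fun l _ => ?_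
    rw [map_mul, map_add, map_mul, hχπ, hR.sec]
    ring
  have hinl : ∀ t, (fun a => χ (u (t + 1) (Sum.inl a))) =
      M₁.mulVec (fun a => χ (u t (Sum.inl a))) := by
    intro t
    funext a
    rw [hrec t, Fintype.sum_sum_type]
    simp [Matrix.mulVec, dotProduct]
  have hinr : ∀ t b, χ (u (t + 1) (Sum.inr b)) = 0 := by
    intro t b
    rw [hrec t, Fintype.sum_sum_type]
    simp
  have hpow : ∀ t, (fun a => χ (u t (Sum.inl a))) =
      (M₁ ^ t).mulVec (fun a => χ (u 0 (Sum.inl a))) := by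
    intro t
    induction t with
    | zero => simp
    | succ t ih => rw [hinl t, ih, Matrix.mulVec_mulVec, pow_succ']
  have hw0 : (fun a => χ (u 0 (Sum.inl a))) ≠ 0 := by
    intro h0
    obtain ⟨i, hi⟩ := hnz 1
    rcases i with a | b
    · apply hi
      have := congrFun (hpow 1) a
      rw [h0, Matrix.mulVec_zero] at this
      exact this
    · exact hi (hinr 0 b)
  refine ⟨j₀, e, fun t i => ∑ s ∈ Finset.range t, u s i, ?_, ?_⟩
  · intro t i
    induction t with
    | zero => simp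
    | succ t ih =>
      have h7 := hu t i
      have ih' : p (j₀ + t) i = p j₀ i + π ^ e * ∑ s ∈ Finset.range t, u s i := ih
      show p (j₀ + (t + 1)) i = p j₀ i + π ^ e * ∑ s ∈ Finset.range (t + 1), u s i
      rw [Finset.sum_range_succ, show j₀ + (t + 1) = j₀ + t + 1 by ring]
      linear_combination h7 + ih'
  · have key : ∀ t m, 0 < m → ∃ a : α,
        χ (∑ s ∈ Finset.range (t + m), u s (Sum.inl a) -
          ∑ s ∈ Finset.range t, u s (Sum.inl a)) ≠ 0 := by
      intro t m hm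
      by_contra hcon
      push Not at hcon
      have h1 : (∑ i ∈ Finset.range m, M₁ ^ i).mulVec
          ((M₁ ^ t).mulVec (fun a => χ (u 0 (Sum.inl a)))) = 0 := by
        funext a
        have h2 := hcon a
        rw [Finset.sum_range_add, add_sub_cancel_left, map_sum] at h2
        rw [Matrix.mulVec_mulVec, Finset.sum_mul, Matrix.sum_mulVec, Finset.sum_apply,
          Pi.zero_apply, ← h2]
        refine Finset.sum_congr rfl fun s _ => ?_
        have h3 := congrFun (hpow (t + s)) a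
        rw [h3, add_comm t s, pow_add]
      have h4 := Matrix.eq_zero_of_mulVec_eq_zero (hgeo m hm) h1
      have h5 : (M₁ ^ t).det ≠ 0 := by
        rw [Matrix.det_pow]
        exact pow_ne_zero _ hM₁
      exact hw0 (Matrix.eq_zero_of_mulVec_eq_zero h5 h4)
    intro t t' htt
    rcases Nat.lt_or_gt_of_ne htt with h | h
    · obtain ⟨m, rfl⟩ := Nat.exists_eq_add_of_lt h
      obtain ⟨a, ha⟩ := key t (m + 1) (by omega)
      refine ⟨a, fun hd => ha ?_⟩
      have h6 := (hR.ker _).2 hd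
      rw [← neg_sub, map_neg, neg_eq_zero]
      exact h6
    · obtain ⟨m, rfl⟩ := Nat.exists_eq_add_of_lt h
      obtain ⟨a, ha⟩ := key t' (m + 1) (by omega)
      exact ⟨a, fun hd => ha ((hR.ker _).2 hd)⟩

end Pool.Agent.Helper89.TNL
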