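import Pool.Agent.Helper89.TNL.Defs

/-!
# Geometric sums of a matrix whose eigenvalues generate a torsion free group
-/

set_option autoImplicit false

namespace Pool.Agent.Helper89.TNL

theorem det_geom_ne_zero {k : Type} [Field k] [IsAlgClosed k] [CharZero k] {G : Subgroup kˣ}
    (hG : TorsFree G) {α : Type} [Fintype α] [DecidableEq α] (M : Matrix α α k)
    (hM : EigIn G M) (t : ℕ) (ht : 0 < t) : (∑ i ∈ Finset.range t, M ^ i).det ≠ 0 := by
  intro h0
  by_cases ht1 : t = 1
  · subst ht1
    simp at h0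
  have h2 : 2 ≤ t := by omega
  -- the polynomial
  have hp : (Polynomial.aeval M) (∑ i ∈ Finset.range t, (Polynomial.X : Polynomial k) ^ i) =
      ∑ i ∈ Finset.range t, M ^ i := by
    simp [map_sum]
  have hu : ¬ IsUnit (∑ i ∈ Finset.range t, M ^ i) := by
    rw [Matrix.isUnit_iff_isUnit_det, h0]
    exact not_isUnit_zero
  have hz : (0 : k) ∈ spectrum k (∑ i ∈ Finset.range t, M ^ i) := by
    rw [spectrum.zero_mem_iff]
    exact hu
  have hdeg : 0 < (∑ i ∈ Finset.range t, (Polynomial.X : Polynomial k) ^ i).degree := by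
    have h1 : ((∑ i ∈ Finset.range t, (Polynomial.X : Polynomial k) ^ i)).coeff (t - 1) = 1 := by
      rw [Polynomial.finsetSum_coeff]
      rw [Finset.sum_eq_single (t - 1)]
      · simp
      · intro b _ hb
        rw [Polynomial.coeff_X_pow]
        rw [if_neg (fun h => hb h.symm)]
      · intro h
        exact absurd (Finset.mem_range.2 (by omega)) h
    have h3 : ((t - 1 : ℕ) : WithBot ℕ) ≤
        (∑ i ∈ Finset.range t, (Polynomial.X : Polynomial k) ^ i).degree :=
      Polynomial.le_degree_of_ne_zero (by rw [h1]; exact one_ne_zero)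
    refine lt_of_lt_of_le ?_ h3
    exact_mod_cast (by omega : 0 < t - 1)
  rw [← hp, spectrum.map_polynomial_aeval_of_degree_pos M _ hdeg] at hz
  obtain ⟨μ, hμ, hev⟩ := hz
  have hr : M.charpoly.IsRoot μ := Matrix.mem_spectrum_iff_isRoot_charpoly.1 hμ
  obtain ⟨u, huG, hu'⟩ := hM μ hr
  have hev' : ∑ i ∈ Finset.range t, μ ^ i = 0 := by
    simpa [Polynomial.eval_finsetSum] using hev
  have hpow : μ ^ t = 1 := by
    have := geom_sum_mul μ t
    rw [hev', zero_mul] at this
    exact (sub_eq_zero.1 this.symm)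
  have hu1 : u ^ t = 1 := by
    apply Units.ext
    rw [Units.val_pow_eq_pow_val, hu', hpow, Units.val_one]
  have h1 := hG u huG t ht hu1
  have hμ1 : μ = 1 := by rw [← hu', h1, Units.val_one]
  rw [hμ1] at hev'
  simp at hev'
  omega

end Pool.Agent.Helper89.TNL
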