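import Pool.Agent.Helper89.TNL.Rec
import Pool.Agent.Helper89.TNL.Geo
import Pool.Agent.Helper89.TNL.Contr
import Pool.Agent.Helper89.TNL.Dich

/-!
# An orbit which meets a curve infinitely often, and the curve is not periodic
-/

set_option autoImplicit false

namespace Pool.Agent.Helper89.TNL

open MvPolynomial
open Pool.Agent.Helper63.TS (Unif)

/-- A polynomial over a discrete valuation ring which is not zero is a power of `π` times a
polynomial which is not zero modulo `π`. -/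
theorem CaseR_poly {R : Type} [CommRing R] [IsDomain R] {π : R} (hπ : Unif π)
    {P : Polynomial R} (hP : P ≠ 0) :
    ∃ (m : ℕ) (Q : Polynomial R), P = Polynomial.C (π ^ m) * Q ∧ ∃ n, ¬ π ∣ Q.coeff n := by
  classical
  -- the minimal order of the coefficients
  have h1 : ∃ m : ℕ, ∃ n, ¬ π ^ (m + 1) ∣ P.coeff n := by
    obtain ⟨n, hn⟩ : ∃ n, P.coeff n ≠ 0 := by
      by_contra h
      push Not at h
      exact hP (Polynomial.ext fun n => by rw [h n, Polynomial.coeff_zero])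
    obtain ⟨e, u, hu, he⟩ := hπ.fact _ hn
    refine ⟨e, n, fun hdvd => hu ?_⟩
    rw [he, pow_succ] at hdvd
    exact (mul_dvd_mul_iff_left (pow_ne_zero _ hπ.prime.ne_zero)).1 hdvd
  obtain ⟨m, hm, hmin⟩ : ∃ m : ℕ, (∃ n, ¬ π ^ (m + 1) ∣ P.coeff n) ∧
      ∀ m' < m, ¬ ∃ n, ¬ π ^ (m' + 1) ∣ P.coeff n :=
    ⟨Nat.find h1, Nat.find_spec h1, fun m' hm' => Nat.find_min h1 hm'⟩
  have h2 : ∀ n, π ^ m ∣ P.coeff n := by
    intro n
    rcases Nat.eq_zero_or_pos m with h0 | h0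
    · rw [h0, pow_zero]
      exact one_dvd _
    · have h3 := hmin (m - 1) (by omega)
      push Not at h3
      have h4 := h3 n
      rwa [Nat.sub_add_cancel h0] at h4
  obtain ⟨Q, hQ⟩ := (Polynomial.C_dvd_iff_dvd_coeff _ _).2 h2
  refine ⟨m, Q, hQ, ?_⟩
  obtain ⟨n, hn⟩ := hm
  refine ⟨n, fun hdvd => hn ?_⟩
  rw [hQ, Polynomial.coeff_C_mul, pow_succ]
  exact mul_dvd_mul_left _ hdvd

/-- The residues of the coordinate take finitely many values. -/
theorem CaseR_fin {R k : Type} [CommRing R] [IsDomain R] [Field k] [Algebra k R] {π : R}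
    {χ : R →+* k} (hR : Res π χ) {ρ : Polynomial R} (hρ : ρ ≠ 0) (p₀ : R) (e : ℕ) {ξ : ℕ → R}
    (h : ∀ I : ℕ, ∃ T, ∀ t, T ≤ t → π ^ I ∣ ρ.eval (p₀ + π ^ e * ξ t)) :
    ∃ (T : ℕ) (S : Finset k), ∀ t, T ≤ t → χ (ξ t) ∈ S := by
  classical
  set P : Polynomial R := ρ.comp (Polynomial.C p₀ + Polynomial.C (π ^ e) * Polynomial.X) with hP
  have hπ0 : π ≠ 0 := hR.unif.prime.ne_zero
  have hdeg : (Polynomial.C p₀ + Polynomial.C (π ^ e) * Polynomial.X).natDegree = 1 := by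
    rw [Polynomial.natDegree_C_add, Polynomial.natDegree_C_mul_X _ (pow_ne_zero _ hπ0)]
  have hP0 : P ≠ 0 := by
    intro h0
    rw [hP, Polynomial.comp_eq_zero_iff] at h0
    rcases h0 with h0 | ⟨-, h0⟩
    · exact hρ h0
    · rw [h0, Polynomial.natDegree_C] at hdeg
      exact absurd hdeg (by norm_num)
  obtain ⟨m, Q, hQ, n, hn⟩ := CaseR_poly hR.unif hP0
  obtain ⟨T, hT⟩ := h (m + 1)
  have hQ0 : Q.map χ ≠ 0 := by
    intro h0
    apply hn
    rw [← hR.ker, ← Polynomial.coeff_map, h0, Polynomial.coeff_zero]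
  refine ⟨T, (Q.map χ).roots.toFinset, fun t ht => ?_⟩
  rw [Multiset.mem_toFinset, Polynomial.mem_roots hQ0, Polynomial.IsRoot.def,
    Polynomial.eval_map_apply, hR.ker]
  have h1 := hT t ht
  have h2 : ρ.eval (p₀ + π ^ e * ξ t) = π ^ m * Q.eval (ξ t) := by
    have h3 : P.eval (ξ t) = ρ.eval (p₀ + π ^ e * ξ t) := by
      rw [hP, Polynomial.eval_comp]
      simp
    rw [← h3, hQ, Polynomial.eval_mul, Polynomial.eval_C]
  rw [h2, pow_succ] at h1
  exact (mul_dvd_mul_iff_left (pow_ne_zero _ hπ0)).1 h1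

theorem case_R {R k : Type} [CommRing R] [IsDomain R] [Field k] [IsAlgClosed k] [CharZero k]
    [Algebra k ℂ] [Algebra k R] {π : R} {χ : R →+* k} (hR : Res π χ) {G : Subgroup kˣ}
    (hG : TorsFree G) {α β : Type} [Fintype α] [DecidableEq α] [Fintype β] [DecidableEq β]
    {M₁ : Matrix α α k} (hM₁ : M₁.det ≠ 0) (hE : EigIn G M₁) {A0 : MvPolynomial (α ⊕ β) R}
    {A : α ⊕ β → MvPolynomial (α ⊕ β) R} (hA : GermN π A0 A)
    (hL : LinN χ A0 A (Matrix.fromBlocks M₁ 0 0 0)) {p : ℕ → α ⊕ β → R} (hp : OrbN π A0 A p)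
    {σ : Type} [Finite σ] {H : σ → MvPolynomial (α ⊕ β) R}
    (hinf : {j | ∀ i, eval (p j) (H i) = 0}.Infinite)
    (hρ : ∀ a, ∃ ρ : Polynomial R, ρ ≠ 0 ∧ ∀ I j, (∀ i, π ^ I ∣ eval (p j) (H i)) →
      (∀ i, π ^ I ∣ eval (p (j + 1)) (H i)) → π ^ I ∣ ρ.eval (p j (Sum.inl a))) :
    Conv π (fun s => p (s + 1)) p := by
  classical
  have hgeo := det_geom_ne_zero hG M₁ hE
  rcases dichotomy hR hM₁ hgeo (fun j j' => germ_contr hR hA hL hp hp j j') with
    h | ⟨j₀, e, ξ, hξ, hsep⟩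
  · exact h
  exfalso
  -- the exponent is positive
  have he : 1 ≤ e := by
    by_contra he0
    have he1 : e = 0 := by omega
    obtain ⟨a, ha⟩ := hsep 0 1 (by norm_num)
    apply ha
    have h0 := hξ 0 (Sum.inl a)
    have h1 := hξ 1 (Sum.inl a)
    rw [he1, pow_zero, one_mul] at h0 h1
    have h2 : ξ 0 (Sum.inl a) - ξ 1 (Sum.inl a) =
        p (j₀ + 0) (Sum.inl a) - p (j₀ + 1) (Sum.inl a) := by
      rw [h0, h1]
      ring
    rw [h2]
    exact dvd_sub (hp.small _ _) (hp.small _ _)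
  -- the values of the equations tend to zero
  have hepr := epr_of_rec hR M₁ hE (germ_rec hR hA hL hp he hξ)
  have hval : ∀ i (I : ℕ), ∃ T, ∀ t, T ≤ t → π ^ I ∣ eval (p (j₀ + t)) (H i) := by
    intro i I
    obtain ⟨Q, hQ⟩ := eval_resc (H i) (p j₀) (π ^ e)
    have h1 : ∀ t, eval (p (j₀ + t)) (H i) = eval (ξ t) Q := by
      intro t
      rw [← hQ]
      congr 1
      have h2 : p (j₀ + t) = fun i => p j₀ i + π ^ e * ξ t i := funext fun i => hξ t i
      rw [h2]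
    have h3 : EPR G π I (fun t => eval (ξ t) Q) := epr_eval hR (hepr I) Q
    obtain ⟨T, hT⟩ := epr_zero hR hG h3 (by
      have h4 : ({j | ∀ i, eval (p j) (H i) = 0} \ {j | j < j₀}).Infinite :=
        hinf.sdiff (Set.finite_lt_nat j₀)
      have h5 : ((fun j => j - j₀) '' ({j | ∀ i, eval (p j) (H i) = 0} \ {j | j < j₀})).Infinite := by
        refine h4.image ?_
        intro a ha b hb hab
        have ha1 : ¬ a < j₀ := ha.2
        have hb1 : ¬ b < j₀ := hb.2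
        simp only at hab
        omega
      refine h5.mono ?_
      rintro _ ⟨j, ⟨hj, hj'⟩, rfl⟩
      have hj1 : ¬ j < j₀ := hj'
      show π ^ I ∣ eval (ξ (j - j₀)) Q
      rw [← h1]
      have h6 : j₀ + (j - j₀) = j := by omega
      rw [h6]
      have h7 := hj i
      rw [h7]
      exact dvd_zero _)
    exact ⟨T, fun t ht => by rw [h1]; exact hT t ht⟩
  have hval' : ∀ (I : ℕ), ∃ T, ∀ t, T ≤ t → ∀ i, π ^ I ∣ eval (p (j₀ + t)) (H i) := by
    intro I
    have := Fintype.ofFinite σ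
    choose T hT using fun i => hval i I
    refine ⟨Finset.univ.sup T, fun t ht i => hT i t (le_trans ?_ ht)⟩
    exact Finset.le_sup (f := T) (Finset.mem_univ i)
  -- the coordinates take finitely many values
  have hfin : ∀ a : α, ∃ (T : ℕ) (S : Finset k), ∀ t, T ≤ t → χ (ξ t (Sum.inl a)) ∈ S := by
    intro a
    obtain ⟨ρ, hρ0, hρ1⟩ := hρ a
    refine CaseR_fin hR hρ0 (p j₀ (Sum.inl a)) e fun I => ?_
    obtain ⟨T, hT⟩ := hval' I
    refine ⟨T, fun t ht => ?_⟩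
    rw [← hξ t (Sum.inl a)]
    exact hρ1 I (j₀ + t) (hT t ht) (hT (t + 1) (by omega))
  choose T S hTS using hfin
  set T₀ := Finset.univ.sup T with hT₀
  have hT1 : ∀ t a, χ (ξ (T₀ + t) (Sum.inl a)) ∈ S a := by
    intro t a
    exact hTS a _ (le_trans (Finset.le_sup (f := T) (Finset.mem_univ a)) (by omega))
  -- pigeonhole
  obtain ⟨t, t', hne, heq⟩ : ∃ t t' : ℕ, t ≠ t' ∧
      (fun a => (⟨χ (ξ (T₀ + t) (Sum.inl a)), hT1 t a⟩ : S a)) =
      (fun a => (⟨χ (ξ (T₀ + t') (Sum.inl a)), hT1 t' a⟩ : S a)) :=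
    Finite.exists_ne_map_eq_of_infinite
      (fun t : ℕ => fun a => (⟨χ (ξ (T₀ + t) (Sum.inl a)), hT1 t a⟩ : S a))
  obtain ⟨a, ha⟩ := hsep (T₀ + t) (T₀ + t') (by omega)
  apply ha
  rw [← hR.ker, map_sub, sub_eq_zero]
  exact congrArg Subtype.val (congrFun heq a)

end Pool.Agent.Helper89.TNL
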