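import Pool.Agent.Helper89.TNL.Defs

/-!
# Polynomials in a chart
-/

set_option autoImplicit false

namespace Pool.Agent.Helper89.TNL

open MvPolynomial

variable {ν : ℕ} {S : Type} [CommRing S] {ι : Type} [Fintype ι] [DecidableEq ι]

theorem eval_chN (e : Option ι → Fin (ν + 1) → S) (P : MvPolynomial (Fin (ν + 1)) S)
    (q : ι → S) : eval q (chN e P) = eval (ptN e q) P := by
  unfold chN
  induction P using MvPolynomial.induction_on with
  | C a => simp
  | add p r hp hr => rw [map_add, map_add, hp, hr, map_add]
  | mul_X p i hp =>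
    rw [map_mul, map_mul, hp, map_mul, aeval_X, eval_X]
    simp [ptN]

theorem coeff_chN_zero (e : Option ι → Fin (ν + 1) → S) (P : MvPolynomial (Fin (ν + 1)) S) :
    (chN e P).coeff 0 = eval (e none) P := by
  have h1 := eval_chN e P 0
  have h2 : ptN e 0 = e none := by
    funext i
    simp [ptN]
  rw [h2] at h1
  rw [← h1, ← constantCoeff_eq]
  exact (congrArg (fun φ => φ (chN e P)) eval_zero).symm

theorem chartN_coeff_mul (a : ι) (A B : MvPolynomial ι S) :
    (A * B).coeff (Finsupp.single a 1) =
      A.coeff (Finsupp.single a 1) * B.coeff 0 + A.coeff 0 * B.coeff (Finsupp.single a 1) := by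
  classical
  rw [coeff_mul, Finsupp.antidiagonal_single]
  simp [Finset.Nat.antidiagonal_succ]
  ring

theorem chartN_lin_coeff_zero (c : S) (w : ι → S) :
    (C c + ∑ i, X i * C (w i) : MvPolynomial ι S).coeff 0 = c := by
  rw [coeff_add, coeff_sum, coeff_C, if_pos rfl, Finset.sum_eq_zero, add_zero]
  intro i _
  rw [mul_comm, coeff_C_mul]
  simp

theorem chartN_lin_coeff_single (c : S) (w : ι → S) (a : ι) :
    (C c + ∑ i, X i * C (w i) : MvPolynomial ι S).coeff (Finsupp.single a 1) = w a := by
  have z : ¬ (0 : ι →₀ ℕ) = Finsupp.single a 1 := by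
    intro h
    have := DFunLike.congr_fun h a
    simp at this
  rw [coeff_add, coeff_sum, coeff_C, if_neg z, zero_add, Finset.sum_eq_single a]
  · rw [mul_comm, coeff_C_mul, coeff_X, if_pos rfl, mul_one]
  · intro i _ hi
    rw [mul_comm, coeff_C_mul, coeff_X, if_neg, mul_zero]
    intro h
    exact hi ((Finsupp.single_left_inj one_ne_zero).1 h)
  · intro h
    exact absurd (Finset.mem_univ a) h

theorem coeff_chN_single (e : Option ι → Fin (ν + 1) → S) (P : MvPolynomial (Fin (ν + 1)) S)
    (i : ι) : (chN e P).coeff (Finsupp.single i 1) =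
      ∑ j, eval (e none) (pderiv j P) * e (some i) j := by
  classical
  induction P using MvPolynomial.induction_on with
  | C c =>
    have h1 : chN e (C c) = C c := by
      unfold chN
      rw [aeval_C, algebraMap_eq]
    rw [h1, coeff_C, if_neg (by
      intro h
      have := DFunLike.congr_fun h i
      simp at this)]
    simp
  | add p q hp hq =>
    have h1 : chN e (p + q) = chN e p + chN e q := by
      unfold chN
      rw [map_add]
    rw [h1, coeff_add, hp, hq, ← Finset.sum_add_distrib]
    refine Finset.sum_congr rfl fun j _ => ?_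
    rw [map_add, map_add]
    ring
  | mul_X p m hp =>
    have h1 : chN e (p * X m) = chN e p *
        (C (e none m) + ∑ i, X i * C (e (some i) m)) := by
      unfold chN
      rw [map_mul, aeval_X]
    rw [h1, chartN_coeff_mul, chartN_lin_coeff_zero, chartN_lin_coeff_single, hp,
      coeff_chN_zero, Finset.sum_mul]
    have h4 : eval (e none) p * e (some i) m =
        ∑ j, (if j = m then eval (e none) p * e (some i) j else 0) := by
      simp
    rw [h4, ← Finset.sum_add_distrib]
    refine Finset.sum_congr rfl fun j _ => ?_
    rw [Derivation.leibniz, map_add]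
    simp only [smul_eq_mul, map_mul, eval_X]
    by_cases hj : j = m
    · subst hj
      rw [if_pos rfl, pderiv_X_self, map_one]
      ring
    · rw [if_neg hj, pderiv_X_of_ne (Ne.symm hj), map_zero]
      ring

end Pool.Agent.Helper89.TNL
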