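import Pool.Agent.Helper89.TNL.Defs

/-!
# Local dynamics at a place of good reduction: definitions for the places
-/

set_option autoImplicit false

namespace Pool.Agent.Helper89.TNL

open MvPolynomial
open Pool.Agent.Helper16 (Place IsFunctionField)
open Pool.Agent.Helper36 (step iter)
open Pool.Agent.Helper38.TQ
open Pool.Agent.Helper30.TKN

variable {ν : ℕ} {k K : Type} [Field k] [Field K] [Algebra k K]

/-- The point is a zero of all the polynomials of the ideal. -/
def OnV (I : Ideal (MvPolynomial (Fin (ν + 1)) K)) (y : Fin (ν + 1) → K) : Prop :=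
  ∀ P ∈ I, eval y P = 0

/-- The ideal is homogeneous. -/
def HomI (I : Ideal (MvPolynomial (Fin (ν + 1)) K)) : Prop :=
  ∀ P ∈ I, ∀ m, homogeneousComponent m P ∈ I

/-- Among the elements of the ideal are `ν - 1` forms which are integral at the place `b`, and
whose reductions have linearly independent gradients at `z`. -/
def SmoothAt (b : Place k K) (I : Ideal (MvPolynomial (Fin (ν + 1)) K)) (z : Fin (ν + 1) → k) :
    Prop :=
  ∃ (h : Fin (ν - 1) → MvPolynomial (Fin (ν + 1)) K)
    (g : Fin (ν - 1) → MvPolynomial (Fin (ν + 1)) k) (e : Fin (ν - 1) → ℕ),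
    (∀ a, h a ∈ I) ∧ (∀ a, (h a).IsHomogeneous (e a)) ∧ (∀ a, RedP b (h a) (g a)) ∧
    LinearIndependent k fun a j => eval z (pderiv j (g a))

/-- The place `v` of the extension `L` lies over the place `b`. -/
def Over {L : Type} [Field L] [Algebra k L] [Algebra K L] (b : Place k K) (v : Place k L) :
    Prop :=
  ∀ a : K, b.val a < 1 → v.val (algebraMap K L a) < 1

end Pool.Agent.Helper89.TNL
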