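import Pool.Agent.Helper89.TNL.Skolem

/-!
# Sequences in the valuation ring whose digits are exponential polynomials
-/

set_option autoImplicit false

namespace Pool.Agent.Helper89.TNL

open MvPolynomial

variable {R k : Type} [CommRing R] [IsDomain R] [Field k] [Algebra k R] {π : R} {χ : R →+* k}
  {G : Subgroup kˣ}

omit [IsDomain R] in
theorem EPR_dig_step (hR : Res π χ) (r : R) : ∃ r' : R, r = algebraMap k R (χ r) + π * r' := by
  have h : π ∣ r - algebraMap k R (χ r) := by
    rw [← hR.ker, map_sub, hR.sec, sub_self]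
  obtain ⟨r', h'⟩ := h
  exact ⟨r', by rw [← h']; ring⟩

omit [IsDomain R] in
/-- The digits of an element of the valuation ring. -/
theorem exists_digits (hR : Res π χ) (r : R) :
    ∃ d : ℕ → k, ∀ I, π ^ I ∣ r - ∑ i ∈ Finset.range I, π ^ i * algebraMap k R (d i) := by
  choose g hg using EPR_dig_step hR
  refine ⟨fun i => χ (g^[i] r), fun I => ⟨g^[I] r, ?_⟩⟩
  induction I with
  | zero => simp
  | succ n ih =>
    rw [Finset.sum_range_succ, ← sub_sub, ih, Function.iterate_succ_apply']
    have h := hg (g^[n] r)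
    calc π ^ n * g^[n] r - π ^ n * algebraMap k R (χ (g^[n] r)) =
        π ^ n * (g^[n] r - algebraMap k R (χ (g^[n] r))) := by ring
      _ = π ^ n * (π * g (g^[n] r)) := by
        congr 1
        rw [sub_eq_iff_eq_add, add_comm]
        exact h
      _ = π ^ (n + 1) * g (g^[n] r) := by ring

theorem digits_unique (hR : Res π χ) {I : ℕ} {d d' : ℕ → k}
    (h : π ^ I ∣ ∑ i ∈ Finset.range I, π ^ i * algebraMap k R (d i) -
      ∑ i ∈ Finset.range I, π ^ i * algebraMap k R (d' i)) : ∀ i < I, d i = d' i := by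
  induction I generalizing d d' with
  | zero => intro i hi; exact absurd hi (Nat.not_lt_zero i)
  | succ n ih =>
    have hs : ∀ e : ℕ → k, ∑ i ∈ Finset.range (n + 1), π ^ i * algebraMap k R (e i) =
        algebraMap k R (e 0) + π * ∑ i ∈ Finset.range n, π ^ i * algebraMap k R (e (i + 1)) := by
      intro e
      rw [Finset.sum_range_succ', Finset.mul_sum, pow_zero, one_mul, add_comm]
      congr 1
      refine Finset.sum_congr rfl fun i _ => ?_
      ring
    rw [hs d, hs d'] at h
    have hχπ : χ π = 0 := (hR.ker π).2 dvd_rfl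
    have h0 : d 0 = d' 0 := by
      have h1 : π ∣ algebraMap k R (d 0) +
          π * ∑ i ∈ Finset.range n, π ^ i * algebraMap k R (d (i + 1)) -
          (algebraMap k R (d' 0) +
          π * ∑ i ∈ Finset.range n, π ^ i * algebraMap k R (d' (i + 1))) :=
        (dvd_pow_self π (Nat.succ_ne_zero n)).trans h
      have h2 := (hR.ker _).2 h1
      simp only [map_sub, map_add, map_mul, hχπ, zero_mul, add_zero, hR.sec] at h2
      exact sub_eq_zero.1 h2
    have h3 : π ^ n ∣ ∑ i ∈ Finset.range n, π ^ i * algebraMap k R (d (i + 1)) -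
        ∑ i ∈ Finset.range n, π ^ i * algebraMap k R (d' (i + 1)) := by
      have h4 : π * π ^ n ∣ π * (∑ i ∈ Finset.range n, π ^ i * algebraMap k R (d (i + 1)) -
          ∑ i ∈ Finset.range n, π ^ i * algebraMap k R (d' (i + 1))) := by
        rw [← pow_succ']
        refine h.trans (dvd_of_eq ?_)
        rw [h0]
        ring
      exact (mul_dvd_mul_iff_left hR.unif.prime.ne_zero).1 h4
    have h5 := ih h3
    intro i hi
    rcases i with _ | i
    · exact h0
    · exact h5 i (Nat.lt_of_succ_lt_succ hi)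

omit [IsDomain R] in
theorem epr_const (hR : Res π χ) (I : ℕ) (r : R) : EPR G π I (fun _ => r) := by
  obtain ⟨d, hd⟩ := exists_digits hR r
  exact ⟨0, fun i _ => d i, fun i => (EPol k G).algebraMap_mem (d i), fun _ _ => hd I⟩

omit [IsDomain R] in
theorem epr_add {I : ℕ} {f g : ℕ → R} (hf : EPR G π I f) (hg : EPR G π I g) :
    EPR G π I (fun t => f t + g t) := by
  obtain ⟨T, φ, h1, h2⟩ := hf
  obtain ⟨T', ψ, h3, h4⟩ := hg
  refine ⟨max T T', fun i => φ i + ψ i, fun i => (EPol k G).add_mem (h1 i) (h3 i),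
    fun t ht => ?_⟩
  refine (dvd_add (h2 t (le_trans (le_max_left _ _) ht))
    (h4 t (le_trans (le_max_right _ _) ht))).trans (dvd_of_eq ?_)
  simp only [Pi.add_apply, map_add, mul_add, Finset.sum_add_distrib]
  ring

omit [IsDomain R] in
theorem EPR_cauchy (I : ℕ) (x y : ℕ → R) :
    π ^ I ∣ (∑ i ∈ Finset.range I, π ^ i * x i) * (∑ j ∈ Finset.range I, π ^ j * y j) -
      ∑ n ∈ Finset.range I, π ^ n * ∑ p ∈ Finset.HasAntidiagonal.antidiagonal n, x p.1 * y p.2 := by
  have e1 : (∑ i ∈ Finset.range I, π ^ i * x i) * (∑ j ∈ Finset.range I, π ^ j * y j) =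
      ∑ p ∈ Finset.range I ×ˢ Finset.range I, π ^ (p.1 + p.2) * (x p.1 * y p.2) := by
    rw [Finset.sum_mul_sum, ← Finset.sum_product']
    refine Finset.sum_congr rfl fun p _ => ?_
    ring
  have e2 : ∑ n ∈ Finset.range I, π ^ n *
      ∑ p ∈ Finset.HasAntidiagonal.antidiagonal n, x p.1 * y p.2 =
      ∑ p ∈ (Finset.range I ×ˢ Finset.range I).filter (fun p => p.1 + p.2 < I),
        π ^ (p.1 + p.2) * (x p.1 * y p.2) := by
    rw [← Finset.sum_fiberwise_of_maps_to (s := (Finset.range I ×ˢ Finset.range I).filter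
      (fun p : ℕ × ℕ => p.1 + p.2 < I)) (t := Finset.range I) (g := fun p : ℕ × ℕ => p.1 + p.2)]
    · refine Finset.sum_congr rfl fun n hn => ?_
      rw [Finset.mul_sum]
      refine Finset.sum_congr ?_ fun p hp => ?_
      · ext p
        simp only [Finset.HasAntidiagonal.mem_antidiagonal, Finset.mem_filter, Finset.mem_product,
          Finset.mem_range] at hn ⊢
        omega
      · simp only [Finset.mem_filter] at hp
        rw [hp.2]
    · intro p hp
      simp only [Finset.mem_filter] at hp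
      exact Finset.mem_range.2 hp.2
  rw [e1, e2, ← Finset.sum_filter_add_sum_filter_not (Finset.range I ×ˢ Finset.range I)
    (fun p : ℕ × ℕ => p.1 + p.2 < I), add_sub_cancel_left]
  refine Finset.dvd_sum fun p hp => ?_
  simp only [Finset.mem_filter, not_lt] at hp
  exact (pow_dvd_pow π hp.2).mul_right _

omit [IsDomain R] in
theorem epr_mul {I : ℕ} {f g : ℕ → R} (hf : EPR G π I f) (hg : EPR G π I g) :
    EPR G π I (fun t => f t * g t) := by
  obtain ⟨T, φ, h1, h2⟩ := hf
  obtain ⟨T', ψ, h3, h4⟩ := hg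
  refine ⟨max T T', fun n => ∑ p ∈ Finset.HasAntidiagonal.antidiagonal n, φ p.1 * ψ p.2, fun n =>
    (EPol k G).sum_mem fun p _ => (EPol k G).mul_mem (h1 p.1) (h3 p.2), fun t ht => ?_⟩
  have a := h2 t (le_trans (le_max_left _ _) ht)
  have b := h4 t (le_trans (le_max_right _ _) ht)
  have c := EPR_cauchy (π := π) I (fun i => algebraMap k R (φ i t))
    (fun i => algebraMap k R (ψ i t))
  set A := ∑ i ∈ Finset.range I, π ^ i * algebraMap k R (φ i t) with hA
  set B := ∑ i ∈ Finset.range I, π ^ i * algebraMap k R (ψ i t) with hB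
  have e : ∑ n ∈ Finset.range I, π ^ n *
      algebraMap k R ((∑ p ∈ Finset.HasAntidiagonal.antidiagonal n, φ p.1 * ψ p.2) t) =
      ∑ n ∈ Finset.range I, π ^ n * ∑ p ∈ Finset.HasAntidiagonal.antidiagonal n,
        algebraMap k R (φ p.1 t) * algebraMap k R (ψ p.2 t) := by
    refine Finset.sum_congr rfl fun n _ => ?_
    rw [Finset.sum_apply, map_sum]
    congr 1
    refine Finset.sum_congr rfl fun p _ => ?_
    rw [Pi.mul_apply, map_mul]
  have d : f t * g t - ∑ n ∈ Finset.range I, π ^ n *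
      algebraMap k R ((∑ p ∈ Finset.HasAntidiagonal.antidiagonal n, φ p.1 * ψ p.2) t) =
      (f t - A) * g t + A * (g t - B) + (A * B - ∑ n ∈ Finset.range I, π ^ n *
        ∑ p ∈ Finset.HasAntidiagonal.antidiagonal n,
          algebraMap k R (φ p.1 t) * algebraMap k R (ψ p.2 t)) := by
    rw [e]; ring
  rw [d]
  exact dvd_add (dvd_add (a.mul_right _) (b.mul_left _)) c

omit [IsDomain R] in
theorem epr_pi {I : ℕ} {f : ℕ → R} (hf : EPR G π I f) :
    EPR G π (I + 1) (fun t => π * f t) := by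
  obtain ⟨T, φ, h1, h2⟩ := hf
  refine ⟨T, fun i => Nat.casesOn i 0 φ, fun i => ?_, fun t ht => ?_⟩
  · rcases i with _ | i
    · exact (EPol k G).zero_mem
    · exact h1 i
  · obtain ⟨c, hc⟩ := h2 t ht
    refine ⟨c, ?_⟩
    rw [Finset.sum_range_succ']
    have e : ∑ i ∈ Finset.range I, π ^ (i + 1) * algebraMap k R (φ i t) =
        π * ∑ i ∈ Finset.range I, π ^ i * algebraMap k R (φ i t) := by
      rw [Finset.mul_sum]
      refine Finset.sum_congr rfl fun i _ => ?_
      ring
    have e0 : (π ^ 0 * algebraMap k R ((0 : ℕ → k) t) : R) = 0 := by simp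
    calc π * f t - (∑ i ∈ Finset.range I, π ^ (i + 1) * algebraMap k R (φ i t) +
          π ^ 0 * algebraMap k R ((0 : ℕ → k) t)) =
        π * (f t - ∑ i ∈ Finset.range I, π ^ i * algebraMap k R (φ i t)) := by
          rw [e, e0]; ring
      _ = π ^ (I + 1) * c := by rw [hc]; ring

omit [IsDomain R] in
theorem epr_congr {I : ℕ} {f g : ℕ → R} (hf : EPR G π I f) {T : ℕ}
    (h : ∀ t, T ≤ t → π ^ I ∣ g t - f t) : EPR G π I g := by
  obtain ⟨T', φ, h1, h2⟩ := hf
  refine ⟨max T T', φ, h1, fun t ht => ?_⟩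
  refine (dvd_add (h t (le_trans (le_max_left _ _) ht))
    (h2 t (le_trans (le_max_right _ _) ht))).trans (dvd_of_eq ?_)
  ring

omit [IsDomain R] in
theorem epr_unshift {I : ℕ} {f : ℕ → R} (hf : EPR G π I (fun t => f (t + 1))) :
    EPR G π I f := by
  obtain ⟨T, φ, h1, h2⟩ := hf
  choose ψ hψ hψ' using fun i => epol_unshift (h1 i)
  refine ⟨T + 1, ψ, hψ, fun t ht => ?_⟩
  rcases t with _ | t
  · exact absurd ht (Nat.not_succ_le_zero T)
  · refine (h2 t (Nat.le_of_succ_le_succ ht)).trans (dvd_of_eq ?_)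
    simp only [hψ']

theorem epr_eval (hR : Res π χ) {ι : Type} {I : ℕ} {ξ : ℕ → ι → R}
    (hξ : ∀ i, EPR G π I (fun t => ξ t i)) (P : MvPolynomial ι R) :
    EPR G π I (fun t => eval (ξ t) P) := by
  induction P using MvPolynomial.induction_on with
  | C a => simpa only [eval_C] using epr_const hR I a
  | add p q hp hq => simpa only [map_add] using epr_add hp hq
  | mul_X p i hp => simpa only [map_mul, eval_X] using epr_mul hp (hξ i)

/-- A sequence of this kind with infinitely many values divisible by `π ^ I`. -/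
theorem epr_zero [Algebra k ℂ] (hR : Res π χ) (hG : TorsFree G) {I : ℕ} {f : ℕ → R}
    (hf : EPR G π I f) (hinf : {t | π ^ I ∣ f t}.Infinite) : ∃ T, ∀ t, T ≤ t → π ^ I ∣ f t := by
  obtain ⟨T, φ, h1, h2⟩ := hf
  have key : ∀ t, T ≤ t → π ^ I ∣ f t → ∀ i < I, φ i t = 0 := by
    intro t ht hd
    have h3 : π ^ I ∣ ∑ i ∈ Finset.range I, π ^ i * algebraMap k R ((fun i => φ i t) i) -
        ∑ i ∈ Finset.range I, π ^ i * algebraMap k R ((fun _ => (0 : k)) i) := by
      have h4 := dvd_sub hd (h2 t ht)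
      refine h4.trans (dvd_of_eq ?_)
      simp
    exact digits_unique hR h3
  have h5 : ∀ i < I, φ i = 0 := by
    intro i hi
    refine skolem hG (h1 i) ?_
    refine Set.Infinite.mono (s := {t | π ^ I ∣ f t} \ {t | t < T}) ?_
      (hinf.sdiff (Set.finite_lt_nat T))
    intro t ht
    exact key t (not_lt.1 ht.2) ht.1 i hi
  refine ⟨T, fun t ht => ?_⟩
  have h6 := h2 t ht
  have h7 : ∑ i ∈ Finset.range I, π ^ i * algebraMap k R (φ i t) = 0 := by
    refine Finset.sum_eq_zero fun i hi => ?_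
    rw [h5 i (Finset.mem_range.1 hi)]
    simp
  rwa [h7, sub_zero] at h6

end Pool.Agent.Helper89.TNL
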