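import Pool.Agent.Helper89.TNL.Defs

/-!
# Exponential polynomials: shifts, sums, linear recursions of first order
-/

set_option autoImplicit false

namespace Pool.Agent.Helper89.TNL

variable {k : Type} [Field k] {G : Subgroup kˣ}

theorem epolA_id : (fun t : ℕ => (t : k)) ∈ EPol k G :=
  Algebra.subset_adjoin (Or.inl rfl)

theorem epolA_exp {μ : kˣ} (hμ : μ ∈ G) : (fun t : ℕ => (μ : k) ^ t) ∈ EPol k G :=
  Algebra.subset_adjoin (Or.inr ⟨μ, hμ, rfl⟩)

theorem epolA_const (c : k) : (fun _ : ℕ => c) ∈ EPol k G :=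
  (EPol k G).algebraMap_mem c

theorem epol_shift {f : ℕ → k} (hf : f ∈ EPol k G) : (fun t => f (t + 1)) ∈ EPol k G := by
  refine Algebra.adjoin_induction (p := fun f _ => (fun t => f (t + 1)) ∈ EPol k G)
    ?_ ?_ ?_ ?_ hf
  · rintro g (rfl | ⟨μ, hμ, rfl⟩)
    · have : (fun t : ℕ => (((t + 1 : ℕ) : k))) = (fun t : ℕ => (t : k)) + fun _ => (1 : k) := by
        funext t
        simp
      rw [this]
      exact (EPol k G).add_mem epolA_id (epolA_const 1)
    · have : (fun t : ℕ => (μ : k) ^ (t + 1)) = (fun t : ℕ => (μ : k) ^ t) * fun _ => (μ : k) := by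
        funext t
        simp [pow_succ]
      rw [this]
      exact (EPol k G).mul_mem (epolA_exp hμ) (epolA_const _)
  · intro r
    exact epolA_const r
  · intro x y _ _ hx hy
    exact (EPol k G).add_mem hx hy
  · intro x y _ _ hx hy
    exact (EPol k G).mul_mem hx hy

theorem epol_unshift {f : ℕ → k} (hf : f ∈ EPol k G) : ∃ g ∈ EPol k G, ∀ t, g (t + 1) = f t := by
  refine Algebra.adjoin_induction (p := fun f _ => ∃ g ∈ EPol k G, ∀ t, g (t + 1) = f t)
    ?_ ?_ ?_ ?_ hf
  · rintro g (rfl | ⟨μ, hμ, rfl⟩)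
    · refine ⟨(fun t : ℕ => (t : k)) + fun _ => (-1 : k),
        (EPol k G).add_mem epolA_id (epolA_const _), fun t => ?_⟩
      simp
    · refine ⟨(fun t : ℕ => (μ : k) ^ t) * fun _ => (μ : k)⁻¹,
        (EPol k G).mul_mem (epolA_exp hμ) (epolA_const _), fun t => ?_⟩
      simp [pow_succ]
  · intro r
    exact ⟨_, epolA_const r, fun t => rfl⟩
  · rintro x y _ _ ⟨g, hg, hx⟩ ⟨h, hh, hy⟩
    exact ⟨g + h, (EPol k G).add_mem hg hh, fun t => by simp [hx t, hy t]⟩
  · rintro x y _ _ ⟨g, hg, hx⟩ ⟨h, hh, hy⟩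
    exact ⟨g * h, (EPol k G).mul_mem hg hh, fun t => by simp [hx t, hy t]⟩

/-- The products of a power of `t` and an exponential. -/
def epolAGen (k : Type) [Field k] (G : Subgroup kˣ) : Set (ℕ → k) :=
  {f | ∃ (a : ℕ) (ρ : kˣ), ρ ∈ G ∧ f = fun t : ℕ => (t : k) ^ a * (ρ : k) ^ t}

theorem epolA_gen_mem {a : ℕ} {ρ : kˣ} (hρ : ρ ∈ G) :
    (fun t : ℕ => (t : k) ^ a * (ρ : k) ^ t) ∈ EPol k G :=
  (EPol k G).mul_mem ((EPol k G).pow_mem epolA_id a) (epolA_exp hρ)

theorem epolA_span {f : ℕ → k} (hf : f ∈ EPol k G) :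
    f ∈ Submodule.span k (epolAGen k G) := by
  have h1 : f ∈ Submodule.span k (Submonoid.closure
      (({fun t : ℕ => (t : k)} : Set (ℕ → k)) ∪
        {f | ∃ μ ∈ G, f = fun t : ℕ => ((μ : kˣ) : k) ^ t}) : Set (ℕ → k)) := by
    rw [← Algebra.adjoin_eq_span]
    exact hf
  refine Submodule.span_mono ?_ h1
  intro g hg
  refine Submonoid.closure_induction (motive := fun g _ => g ∈ epolAGen k G) ?_ ?_ ?_ hg
  · rintro x (rfl | ⟨μ, hμ, rfl⟩)
    · exact ⟨1, 1, G.one_mem, by funext t; simp⟩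
    · exact ⟨0, μ, hμ, by funext t; simp⟩
  · exact ⟨0, 1, G.one_mem, by funext t; simp⟩
  · rintro x y _ _ ⟨a, ρ, hρ, rfl⟩ ⟨b, σ, hσ, rfl⟩
    refine ⟨a + b, ρ * σ, G.mul_mem hρ hσ, ?_⟩
    funext t
    simp only [Pi.mul_apply, Units.val_mul]
    ring

theorem epolA_sum_one [CharZero k] (a : ℕ) :
    ∃ w ∈ EPol k G, ∀ t, w (t + 1) - w t = (t : k) ^ a := by
  induction a using Nat.strong_induction_on with
  | _ a ih =>
    choose! w hw hw' using ih
    have ha : ((a : k) + 1) ≠ 0 := by exact_mod_cast Nat.succ_ne_zero a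
    refine ⟨((a : k) + 1)⁻¹ • ((fun t : ℕ => (t : k)) ^ (a + 1) -
      ∑ j ∈ Finset.range a, ((a + 1).choose j : k) • w j), ?_, ?_⟩
    · refine (EPol k G).smul_mem ((EPol k G).sub_mem ((EPol k G).pow_mem epolA_id _)
        ((EPol k G).sum_mem fun j hj => (EPol k G).smul_mem ?_ _)) _
      exact hw j (Finset.mem_range.1 hj)
    · intro t
      have e1 : ((t : k) + 1) ^ (a + 1) = (t : k) ^ (a + 1) + ((a : k) + 1) * (t : k) ^ a +
          ∑ j ∈ Finset.range a, ((a + 1).choose j : k) * (t : k) ^ j := by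
        rw [add_pow, Finset.sum_range_succ, Finset.sum_range_succ]
        have : ∀ j, (t : k) ^ j * 1 ^ (a + 1 - j) * ((a + 1).choose j : k) =
            ((a + 1).choose j : k) * (t : k) ^ j := by
          intro j
          ring
        rw [Finset.sum_congr rfl fun j _ => this j]
        simp only [one_pow, mul_one, Nat.choose_self, Nat.cast_one, Nat.choose_succ_self_right,
          Nat.cast_add]
        ring
      have e2 : ∑ j ∈ Finset.range a, ((a + 1).choose j : k) * w j (t + 1) -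
          ∑ j ∈ Finset.range a, ((a + 1).choose j : k) * w j t =
          ∑ j ∈ Finset.range a, ((a + 1).choose j : k) * (t : k) ^ j := by
        rw [← Finset.sum_sub_distrib]
        refine Finset.sum_congr rfl fun j hj => ?_
        rw [← mul_sub, hw' j (Finset.mem_range.1 hj) t]
      simp only [Pi.smul_apply, Pi.sub_apply, Pi.pow_apply, Finset.sum_apply, smul_eq_mul,
        Nat.cast_add, Nat.cast_one]
      rw [← mul_sub, inv_mul_eq_iff_eq_mul₀ ha, e1]
      linear_combination -e2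

theorem epolA_sum_exp {ρ : kˣ} (hρ : ρ ∈ G) (h1 : (ρ : k) ≠ 1) (a : ℕ) :
    ∃ w ∈ EPol k G, ∀ t, w (t + 1) - w t = (t : k) ^ a * (ρ : k) ^ t := by
  induction a using Nat.strong_induction_on with
  | _ a ih =>
    choose! w hw hw' using ih
    have ha : ((ρ : k) - 1) ≠ 0 := sub_ne_zero.2 h1
    refine ⟨((ρ : k) - 1)⁻¹ • ((fun t : ℕ => (t : k) ^ a * (ρ : k) ^ t) -
      (ρ : k) • ∑ j ∈ Finset.range a, (a.choose j : k) • w j), ?_, ?_⟩
    · refine (EPol k G).smul_mem ((EPol k G).sub_mem (epolA_gen_mem hρ)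
        ((EPol k G).smul_mem ((EPol k G).sum_mem fun j hj => (EPol k G).smul_mem ?_ _) _)) _
      exact hw j (Finset.mem_range.1 hj)
    · intro t
      have e1 : ((t : k) + 1) ^ a = (t : k) ^ a +
          ∑ j ∈ Finset.range a, (a.choose j : k) * (t : k) ^ j := by
        rw [add_pow, Finset.sum_range_succ]
        have : ∀ j, (t : k) ^ j * 1 ^ (a - j) * (a.choose j : k) =
            (a.choose j : k) * (t : k) ^ j := by
          intro j
          ring
        rw [Finset.sum_congr rfl fun j _ => this j]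
        simp only [one_pow, mul_one, Nat.choose_self, Nat.cast_one]
        ring
      have e2 : ∑ j ∈ Finset.range a, (a.choose j : k) * w j (t + 1) -
          ∑ j ∈ Finset.range a, (a.choose j : k) * w j t =
          (∑ j ∈ Finset.range a, (a.choose j : k) * (t : k) ^ j) * (ρ : k) ^ t := by
        rw [← Finset.sum_sub_distrib, Finset.sum_mul]
        refine Finset.sum_congr rfl fun j hj => ?_
        rw [← mul_sub, hw' j (Finset.mem_range.1 hj) t]
        ring
      simp only [Pi.smul_apply, Pi.sub_apply, Finset.sum_apply, smul_eq_mul,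
        Nat.cast_add, Nat.cast_one]
      rw [← mul_sub, inv_mul_eq_iff_eq_mul₀ ha, e1, pow_succ]
      linear_combination -(ρ : k) * e2

/-- Exponential polynomials have discrete primitives. -/
theorem epolA_sum [CharZero k] {f : ℕ → k} (hf : f ∈ EPol k G) :
    ∃ w ∈ EPol k G, ∀ t, w (t + 1) - w t = f t := by
  refine Submodule.span_induction (p := fun f _ => ∃ w ∈ EPol k G, ∀ t, w (t + 1) - w t = f t)
    ?_ ?_ ?_ ?_ (epolA_span hf)
  · rintro g ⟨a, ρ, hρ, rfl⟩
    by_cases h1 : (ρ : k) = 1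
    · obtain ⟨w, hw, hw'⟩ := epolA_sum_one (k := k) (G := G) a
      exact ⟨w, hw, fun t => by rw [hw' t]; simp [h1]⟩
    · exact epolA_sum_exp hρ h1 a
  · exact ⟨0, (EPol k G).zero_mem, fun t => by simp⟩
  · rintro x y _ _ ⟨g, hg, hx⟩ ⟨h, hh, hy⟩
    refine ⟨g + h, (EPol k G).add_mem hg hh, fun t => ?_⟩
    simp only [Pi.add_apply]
    rw [← hx t, ← hy t]
    ring
  · rintro c x _ ⟨g, hg, hx⟩
    refine ⟨c • g, (EPol k G).smul_mem hg c, fun t => ?_⟩
    simp only [Pi.smul_apply, smul_eq_mul]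
    rw [← hx t]
    ring

theorem epol_solve [CharZero k] {μ : kˣ} (hμ : μ ∈ G) {f v : ℕ → k} (hf : f ∈ EPol k G)
    (hv : ∀ t, v (t + 1) = (μ : k) * v t + f t) : v ∈ EPol k G := by
  have hμ' : (μ : k) ≠ 0 := μ.ne_zero
  have hg : ((fun _ : ℕ => (μ : k)⁻¹) * (fun t : ℕ => ((μ⁻¹ : kˣ) : k) ^ t) * f) ∈ EPol k G :=
    (EPol k G).mul_mem ((EPol k G).mul_mem (epolA_const _) (epolA_exp (G.inv_mem hμ))) hf
  obtain ⟨w, hw, hw'⟩ := epolA_sum hg
  have key : ∀ t, v t = (μ : k) ^ t * (w t + (v 0 - w 0)) := by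
    intro t
    induction t with
    | zero => simp
    | succ t ih =>
      have h1 := hw' t
      simp only [Pi.mul_apply, Units.val_inv_eq_inv_val] at h1
      have h2 : w (t + 1) = w t + (μ : k)⁻¹ * (μ : k)⁻¹ ^ t * f t := by
        rw [← h1]
        ring
      rw [hv t, h2, ih, pow_succ]
      have h3 : (μ : k) ^ t * (μ : k) * ((μ : k)⁻¹ * (μ : k)⁻¹ ^ t * f t) = f t := by
        rw [inv_pow]
        field_simp
      linear_combination -h3
  have : v = (fun t : ℕ => (μ : k) ^ t) * (w + fun _ => (v 0 - w 0)) := by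
    funext t
    simp only [Pi.mul_apply, Pi.add_apply]
    exact key t
  rw [this]
  exact (EPol k G).mul_mem (epolA_exp hμ) ((EPol k G).add_mem hw (epolA_const _))

end Pool.Agent.Helper89.TNL
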