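import Pool.Agent.Helper89.TNL.EPolA

/-!
# Exponential polynomials: systems of linear recursions
-/

set_option autoImplicit false

namespace Pool.Agent.Helper89.TNL

variable {k : Type} [Field k] {G : Subgroup kˣ}

theorem epolB_mulVec {α : Type} [Fintype α] (N : Matrix α α k) {g : α → ℕ → k}
    (hg : ∀ a, g a ∈ EPol k G) (a : α) :
    (fun t => N.mulVec (fun b => g b t) a) ∈ EPol k G := by
  have : (fun t => N.mulVec (fun b => g b t) a) = ∑ b, N a b • g b := by
    funext t
    simp [Matrix.mulVec, dotProduct]
  rw [this]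
  exact (EPol k G).sum_mem fun b _ => (EPol k G).smul_mem (hg b) _

theorem epolB_roots [CharZero k] {α : Type} [Fintype α] [DecidableEq α]
    (M : Matrix α α k) {f v : α → ℕ → k} (hf : ∀ a, f a ∈ EPol k G)
    (hv : ∀ t a, v a (t + 1) = ∑ b, M a b * v b t + f a t) (l : Multiset k)
    (hl : ∀ μ ∈ l, ∃ u ∈ G, ((u : kˣ) : k) = μ)
    (h : ∀ a, (fun t => (Polynomial.aeval M (l.map fun μ => Polynomial.X - Polynomial.C μ).prod
      ).mulVec (fun b => v b t) a) ∈ EPol k G) :
    ∀ a, v a ∈ EPol k G := by
  induction l using Multiset.induction_on with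
  | empty =>
    intro a
    have := h a
    simpa using this
  | cons μ l ih =>
    apply ih (fun μ' hμ' => hl μ' (Multiset.mem_cons_of_mem hμ'))
    intro a
    obtain ⟨u, hu, rfl⟩ := hl μ (Multiset.mem_cons_self μ l)
    have hcomm : Polynomial.aeval M (l.map fun μ => Polynomial.X - Polynomial.C μ).prod * M =
        M * Polynomial.aeval M (l.map fun μ => Polynomial.X - Polynomial.C μ).prod := by
      have := congrArg (Polynomial.aeval M) (mul_comm
        (l.map fun μ => Polynomial.X - Polynomial.C μ).prod (Polynomial.X : Polynomial k))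
      simpa only [map_mul, Polynomial.aeval_X] using this
    have h' : ∀ a, (fun t => ((M - Matrix.scalar α (u : k)) *
        Polynomial.aeval M (l.map fun μ => Polynomial.X - Polynomial.C μ).prod
        ).mulVec (fun b => v b t) a) ∈ EPol k G := by
      intro a
      have := h a
      rw [Multiset.map_cons, Multiset.prod_cons, map_mul, map_sub, Polynomial.aeval_X,
        Polynomial.aeval_C] at this
      exact this
    set N := Polynomial.aeval M (l.map fun μ => Polynomial.X - Polynomial.C μ).prod with hN
    refine epol_solve hu ((EPol k G).add_mem (h' a) (epolB_mulVec N hf a)) (fun t => ?_)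
    have hv' : (fun b => v b (t + 1)) = M.mulVec (fun b => v b t) + fun b => f b t := by
      funext b
      rw [hv t b]
      rfl
    show N.mulVec (fun b => v b (t + 1)) a = _
    rw [hv', Matrix.mulVec_add, Matrix.mulVec_mulVec, hcomm]
    simp only [Pi.add_apply]
    rw [sub_mul, Matrix.sub_mulVec]
    have : (Matrix.scalar α (u : k) * N).mulVec (fun b => v b t) a =
        (u : k) * N.mulVec (fun b => v b t) a := by
      rw [← Matrix.mulVec_mulVec]
      simp [Matrix.scalar_apply, Matrix.mulVec_diagonal]
    simp only [Pi.sub_apply]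
    rw [this]
    ring

theorem epol_solve_vec [IsAlgClosed k] [CharZero k] {α : Type} [Fintype α] [DecidableEq α]
    (M : Matrix α α k) (hM : EigIn G M) {f v : α → ℕ → k} (hf : ∀ a, f a ∈ EPol k G)
    (hv : ∀ t a, v a (t + 1) = ∑ b, M a b * v b t + f a t) : ∀ a, v a ∈ EPol k G := by
  have hs : (M.charpoly.roots.map fun μ => Polynomial.X - Polynomial.C μ).prod = M.charpoly :=
    ((IsAlgClosed.splits M.charpoly).eq_prod_roots_of_monic M.charpoly_monic).symm
  refine epolB_roots M hf hv M.charpoly.roots (fun μ hμ => hM μ (Polynomial.isRoot_of_mem_roots hμ))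
    (fun a => ?_)
  rw [hs, Matrix.aeval_self_charpoly]
  simp only [Matrix.zero_mulVec]
  exact (EPol k G).zero_mem

theorem epolB_shift {f : ℕ → k} (hf : f ∈ EPol k G) (T : ℕ) :
    (fun t => f (t + T)) ∈ EPol k G := by
  induction T with
  | zero => exact hf
  | succ T ih =>
    have := epol_shift ih
    have e : (fun t => f (t + 1 + T)) = fun t => f (t + (T + 1)) := by
      funext t
      congr 1
      omega
    rw [← e]
    exact this

theorem epolB_unshift {f : ℕ → k} (hf : f ∈ EPol k G) (T : ℕ) :
    ∃ g ∈ EPol k G, ∀ t, g (t + T) = f t := by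
  induction T with
  | zero => exact ⟨f, hf, fun t => rfl⟩
  | succ T ih =>
    obtain ⟨g, hg, hg'⟩ := ih
    obtain ⟨h, hh, hh'⟩ := epol_unshift hg
    refine ⟨h, hh, fun t => ?_⟩
    rw [← hg' t, ← hh' (t + T)]
    rfl

/-- The same for a recursion which holds from some time on: `v` agrees with exponential
polynomials from this time on. -/
theorem epol_solve_late [IsAlgClosed k] [CharZero k] {α : Type} [Fintype α] [DecidableEq α]
    (M : Matrix α α k) (hM : EigIn G M) {f v : α → ℕ → k} (hf : ∀ a, f a ∈ EPol k G) {T : ℕ}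
    (hv : ∀ t, T ≤ t → ∀ a, v a (t + 1) = ∑ b, M a b * v b t + f a t) :
    ∃ w : α → ℕ → k, (∀ a, w a ∈ EPol k G) ∧ ∀ t, T ≤ t → ∀ a, v a t = w a t := by
  have h1 : ∀ a, (fun t => v a (t + T)) ∈ EPol k G := by
    refine epol_solve_vec M hM (f := fun a t => f a (t + T)) (v := fun a t => v a (t + T))
      (fun a => epolB_shift (hf a) T) (fun t a => ?_)
    have := hv (t + T) (Nat.le_add_left _ _) a
    rw [← this]
    congr 1
    omega
  choose w hw hw' using fun a => epolB_unshift (h1 a) T
  refine ⟨w, hw, fun t ht a => ?_⟩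
  obtain ⟨s, rfl⟩ := Nat.exists_eq_add_of_le ht
  rw [Nat.add_comm T s, hw' a s]

end Pool.Agent.Helper89.TNL
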