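import Pool.Agent.Helper89.TNL.PointN
import Pool.Agent.Helper89.TNL.ChartN
import Pool.Agent.Helper89.TNL.IterN

/-!
# The germ of the iterate in a chart
-/

set_option autoImplicit false

namespace Pool.Agent.Helper89.TNL

open MvPolynomial
open Pool.Agent.Helper16 (Place IsFunctionField)
open Pool.Agent.Helper36 (step iter)
open Pool.Agent.Helper38.TQ
open Pool.Agent.Helper30.TKN

variable {ν : ℕ} {k K : Type} [Field k] [Field K] [Algebra k K] {b : Place k K} {π : b.ring}
  {χ : b.ring →+* k} {ι : Type} [Fintype ι] [DecidableEq ι]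

private theorem germP_chi_eval {S : Type} [CommRing S] [Algebra k S] (χ : S →+* k)
    (hχ : ∀ c : k, χ (algebraMap k S c) = c)
    (v : Fin (ν + 1) → k) (P : MvPolynomial (Fin (ν + 1)) S) :
    χ (eval (fun i => algebraMap k S (v i)) P) = eval v (map χ P) := by
  rw [eval_map, ← coe_eval₂Hom, ← RingHom.comp_apply]
  congr 1
  refine MvPolynomial.ringHom_ext (fun r => ?_) (fun i => ?_)
  · simp
  · simp [hχ]

private theorem germP_pt {S : Type} [CommRing S] {e : Option ι → Fin (ν + 1) → S}
    {B : Fin (ν + 1) → Option ι → S}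
    (h₁ : ∀ a a', ∑ i, e a i * B i a' = if a = a' then 1 else 0) (q : ι → S) :
    ∑ i, B i none * ptN e q i = 1 ∧ ∀ l, ∑ i, B i (some l) * ptN e q i = q l := by
  have h : ∀ a, ∑ i, B i a * ptN e q i =
      (if none = a then 1 else 0) + ∑ l, q l * (if some l = a then 1 else 0) := by
    intro a
    have h2 : ∀ i, B i a * ptN e q i = e none i * B i a + ∑ l, q l * (e (some l) i * B i a) := by
      intro i
      unfold ptN
      rw [mul_add, Finset.mul_sum, mul_comm (B i a)]
      congr 1
      exact Finset.sum_congr rfl fun l _ => by ring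
    rw [Finset.sum_congr rfl fun i _ => h2 i, Finset.sum_add_distrib, h₁, Finset.sum_comm]
    congr 1
    refine Finset.sum_congr rfl fun l _ => ?_
    rw [← h₁, Finset.mul_sum]
  refine ⟨?_, fun l => ?_⟩
  · rw [h]; simp
  · rw [h]; simp

theorem exists_germ (hR : Res π χ)
    (hπ : ∀ (r : b.ring) (n : ℕ), π ^ n ∣ r ↔ b.val (r : K) ≤ WithZero.exp (-(n : ℤ)))
    {e : Option ι → Fin (ν + 1) → k} {B : Fin (ν + 1) → Option ι → k}
    (h₁ : ∀ a a', ∑ i, e a i * B i a' = if a = a' then 1 else 0)
    (h₂ : ∀ i i', ∑ a, B i a * e a i' = if i = i' then 1 else 0) {d : ℕ}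
    {F : Fin (ν + 1) → MvPolynomial (Fin (ν + 1)) K}
    {f : Fin (ν + 1) → MvPolynomial (Fin (ν + 1)) k} (hF : ∀ i, (F i).IsHomogeneous d)
    (hf : GoodRed d b F f) {N : ℕ} {γ : k} (hγ : γ ≠ 0)
    (hfix : iter f (e none) N = γ • e none) {M : Matrix ι ι k} {α : ι → k}
    (hlin : ∀ a, (mult f (e none) N).mulVec (e (some a)) =
      γ • ∑ i, M i a • e (some i) + α a • e none) :
    ∃ (A0 : MvPolynomial ι b.ring) (A : ι → MvPolynomial ι b.ring), GermN π A0 A ∧
      LinN χ A0 A M ∧ ∀ (y : ℕ → Fin (ν + 1) → K) (c : ℕ → K) (q : ℕ → ι → b.ring),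
        (∀ s, c s ≠ 0) → (∀ s i, π ∣ q s i) →
        (∀ s j, y s j = c s * algebraMap b.ring K (ptN (eR b e) (q s) j)) →
        (∀ s, y (s + 1) = iter F (y s) N) → OrbN π A0 A q := by
  classical
  choose Φ hΦK hΦχ using fun i => exists_liftN hR hπ (redP_itN hf.red N i)
  obtain ⟨BR, hBR⟩ : ∃ BR : Fin (ν + 1) → Option ι → b.ring,
      ∀ i a, BR i a = algebraMap k b.ring (B i a) := ⟨_, fun _ _ => rfl⟩
  have hBR1 : ∀ a a', ∑ i, eR b e a i * BR i a' = if a = a' then 1 else 0 := by
    intro a a'
    have h := congrArg (algebraMap k b.ring) (h₁ a a')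
    rw [map_sum] at h
    simp only [map_mul] at h
    have h2 : ∑ i, eR b e a i * BR i a' =
        ∑ i, algebraMap k b.ring (e a i) * algebraMap k b.ring (B i a') :=
      Finset.sum_congr rfl fun i _ => by rw [hBR]; rfl
    rw [h2, h]
    split_ifs <;> simp
  obtain ⟨A, hA⟩ : ∃ A : Option ι → MvPolynomial ι b.ring,
      ∀ a, A a = ∑ i, C (BR i a) * chN (eR b e) (Φ i) := ⟨_, fun _ => rfl⟩
  have hev : ∀ a (u : ι → b.ring),
      eval u (A a) = ∑ i, BR i a * eval (ptN (eR b e) u) (Φ i) := by
    intro a u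
    rw [hA, map_sum]
    refine Finset.sum_congr rfl fun i _ => ?_
    rw [map_mul, eval_C, eval_chN]
  have hco : ∀ a m, (A a).coeff m = ∑ i, BR i a * (chN (eR b e) (Φ i)).coeff m := by
    intro a m
    rw [hA, coeff_sum]
    refine Finset.sum_congr rfl fun i _ => ?_
    rw [coeff_C_mul]
  have hBχ : ∀ i a, χ (BR i a) = B i a := by
    intro i a
    rw [hBR, hR.sec]
  have hc0 : ∀ a, χ ((A a).coeff 0) = γ * if none = a then 1 else 0 := by
    intro a
    rw [hco, map_sum, ← h₁, Finset.mul_sum]
    refine Finset.sum_congr rfl fun i _ => ?_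
    have h2 : χ (eval (eR b e none) (Φ i)) = γ * e none i := by
      have h3 := germP_chi_eval χ hR.sec (e none) (Φ i)
      rw [hΦχ, eval_itN, hfix] at h3
      exact h3
    rw [map_mul, hBχ, coeff_chN_zero, h2]
    ring
  have hc1 : ∀ a j, χ ((A a).coeff (Finsupp.single j 1)) =
      γ * ∑ i, M i j * (if some i = a then 1 else 0) + α j * if none = a then 1 else 0 := by
    intro a j
    have h2 : ∀ l, χ ((chN (eR b e) (Φ l)).coeff (Finsupp.single j 1)) =
        γ * ∑ i, M i j * e (some i) l + α j * e none l := by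
      intro l
      have h4 := congrFun (hlin j) l
      rw [Pi.add_apply, Pi.smul_apply, Finset.sum_apply, Pi.smul_apply, smul_eq_mul,
        smul_eq_mul] at h4
      simp only [Pi.smul_apply, smul_eq_mul] at h4
      rw [← h4, coeff_chN_single, map_sum, Matrix.mulVec, dotProduct]
      refine Finset.sum_congr rfl fun m _ => ?_
      have h5 := germP_chi_eval χ hR.sec (e none) (pderiv m (Φ l))
      rw [← pderiv_map, hΦχ, pderiv_itN] at h5
      have h6 : χ (eR b e (some j) m) = e (some j) m := hR.sec _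
      rw [map_mul, h6, ← h5]
      rfl
    rw [hco, map_sum]
    have h3 : ∀ l, χ (BR l a * (chN (eR b e) (Φ l)).coeff (Finsupp.single j 1)) =
        γ * ∑ i, M i j * (e (some i) l * B l a) + α j * (e none l * B l a) := by
      intro l
      rw [map_mul, hBχ, h2, mul_add, Finset.mul_sum, Finset.mul_sum, Finset.mul_sum]
      congr 1
      · exact Finset.sum_congr rfl fun i _ => by ring
      · ring
    rw [Finset.sum_congr rfl fun l _ => h3 l, Finset.sum_add_distrib, ← Finset.mul_sum,
      ← Finset.mul_sum, Finset.sum_comm, h₁]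
    congr 2
    refine Finset.sum_congr rfl fun i _ => ?_
    rw [← h₁, Finset.mul_sum]
  refine ⟨A none, fun i => A (some i), ⟨?_, ?_⟩, ?_, ?_⟩
  · rw [← hR.ker, hc0]
    simpa using hγ
  · intro i
    rw [← hR.ker, hc0]
    simp
  · intro i j
    show χ ((A (some i)).coeff (Finsupp.single j 1)) = χ ((A none).coeff 0) * M i j
    rw [hc0, hc1]
    simp
  · intro y c q hc hq hy hstep
    refine ⟨hq, fun s l => ?_⟩
    have hinj : Function.Injective (algebraMap b.ring K) := Subtype.val_injective
    have h2 : ∀ j, c (s + 1) * algebraMap b.ring K (ptN (eR b e) (q (s + 1)) j) =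
        c s ^ (d ^ N) * algebraMap b.ring K (eval (ptN (eR b e) (q s)) (Φ j)) := by
      intro j
      have h3 : y s = c s • fun j => algebraMap b.ring K (ptN (eR b e) (q s) j) := by
        funext j
        exact hy s j
      rw [← hy, hstep, ← eval_itN, h3, eval_smul_hom (itN_hom hF N j), ← hΦK j]
      congr 1
      rw [eval_map, ← coe_eval₂Hom, ← RingHom.comp_apply]
      congr 1
      refine MvPolynomial.ringHom_ext (fun r => ?_) (fun i => ?_)
      · simp
      · simp
    have h3 : ∀ a, c (s + 1) * algebraMap b.ring K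
        (∑ i, BR i a * ptN (eR b e) (q (s + 1)) i) =
        c s ^ (d ^ N) * algebraMap b.ring K (eval (q s) (A a)) := by
      intro a
      rw [hev, map_sum, map_sum, Finset.mul_sum, Finset.mul_sum]
      refine Finset.sum_congr rfl fun i _ => ?_
      rw [map_mul, map_mul, mul_left_comm, h2, mul_left_comm]
    obtain ⟨g1, g2⟩ := germP_pt hBR1 (q (s + 1))
    have h4 := h3 none
    have h5 := h3 (some l)
    rw [g1, map_one, mul_one] at h4
    rw [g2, h4, mul_assoc] at h5
    have h6 := mul_left_cancel₀ (pow_ne_zero _ (hc s)) h5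
    rw [← map_mul] at h6
    rw [mul_comm]
    exact hinj h6

end Pool.Agent.Helper89.TNL
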