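import Pool.Agent.Helper89.TNL.Defs

/-!
# A polynomial which is small at many points of the disc is small on the disc
-/

set_option autoImplicit false

namespace Pool.Agent.Helper89.TNL

/-- Newton interpolation: a polynomial which is small at the points `T l` is, up to a small error,
divisible by the product of the `t - T l`. -/
theorem Interp_newton {R : Type} [CommRing R] [IsDomain R] {π : R}
    (hπ : Pool.Agent.Helper63.TS.Unif π) : ∀ (M : ℕ) (T : Fin M → R), Function.Injective T →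
    ∃ c : ℕ, ∀ (e : ℕ) (P : Polynomial R), (∀ l, π ^ (e + c) ∣ P.eval (T l)) →
      ∀ t, ∃ a b : R, P.eval t = π ^ e * a + (∏ l, (t - T l)) * b := by
  intro M
  induction M with
  | zero =>
    intro T _
    exact ⟨0, fun e P _ t => ⟨0, P.eval t, by simp⟩⟩
  | succ M ih =>
    intro T hT
    obtain ⟨c, hc⟩ := ih (fun l => T l.succ) (fun a b hab => Fin.succ_injective M (hT hab))
    have hne : ∀ l : Fin M, T l.succ - T 0 ≠ 0 := fun l h =>
      absurd (hT (sub_eq_zero.1 h)) (Fin.succ_ne_zero l)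
    have hex : ∀ l : Fin M, ∃ (n : ℕ) (u : R), ¬ π ∣ u ∧ T l.succ - T 0 = π ^ n * u :=
      fun l => hπ.fact _ (hne l)
    choose n u hu hn using hex
    refine ⟨c + ∑ l, n l, fun e P hP t => ?_⟩
    obtain ⟨P₁, hP₁⟩ := Polynomial.X_sub_C_dvd_sub_C_eval (p := P) (a := T 0)
    have hev : ∀ s, P.eval s = P.eval (T 0) + (s - T 0) * P₁.eval s := by
      intro s
      have h := congrArg (Polynomial.eval s) hP₁
      simp only [Polynomial.eval_sub, Polynomial.eval_C, Polynomial.eval_mul,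
        Polynomial.eval_X] at h
      linear_combination h
    have h1 : ∀ l : Fin M, π ^ (e + c) ∣ P₁.eval (T l.succ) := by
      intro l
      have h2 : π ^ (e + (c + ∑ l, n l)) ∣ (T l.succ - T 0) * P₁.eval (T l.succ) := by
        have h3 := dvd_sub (hP l.succ) (hP 0)
        have h4 : P.eval (T l.succ) - P.eval (T 0) = (T l.succ - T 0) * P₁.eval (T l.succ) := by
          rw [hev (T l.succ)]; ring
        rwa [h4] at h3
      have h5 : n l ≤ ∑ l, n l := Finset.single_le_sum (fun _ _ => Nat.zero_le _)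
        (Finset.mem_univ l)
      have h6 : π ^ (n l) * π ^ (e + c) ∣ π ^ (n l) * (u l * P₁.eval (T l.succ)) := by
        rw [← mul_assoc, ← hn l, ← pow_add]
        exact dvd_trans (pow_dvd_pow π (by omega)) h2
      have h7 : π ^ (e + c) ∣ u l * P₁.eval (T l.succ) :=
        (mul_dvd_mul_iff_left (pow_ne_zero _ hπ.prime.ne_zero)).1 h6
      exact ((hπ.unit _ (hu l)).dvd_mul_left).1 h7
    obtain ⟨a, b, hab⟩ := hc e P₁ h1 t
    obtain ⟨r, hr⟩ : π ^ e ∣ P.eval (T 0) :=
      dvd_trans (pow_dvd_pow π (by omega)) (hP 0)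
    refine ⟨r + (t - T 0) * a, b, ?_⟩
    rw [hev t, hab, hr, Fin.prod_univ_succ]
    ring

theorem interp {R : Type} [CommRing R] [IsDomain R] {π : R}
    (hπ : Pool.Agent.Helper63.TS.Unif π) (M : ℕ) (T : Fin M → R) (hT : Function.Injective T)
    (hsm : ∀ l, π ∣ T l) :
    ∃ c : ℕ, ∀ (P : Polynomial R), (∀ l, π ^ (M + c) ∣ P.eval (T l)) →
      ∀ t, π ∣ t → π ^ M ∣ P.eval t := by
  obtain ⟨c, hc⟩ := Interp_newton hπ M T hT
  refine ⟨c, fun P hP t ht => ?_⟩
  obtain ⟨a, b, hab⟩ := hc M P hP t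
  rw [hab]
  refine dvd_add (Dvd.intro _ rfl) (Dvd.dvd.mul_right ?_ _)
  have h : ∏ _l : Fin M, π ∣ ∏ l, (t - T l) :=
    Finset.prod_dvd_prod_of_dvd _ _ (fun l _ => dvd_sub ht (hsm l))
  simpa using h

end Pool.Agent.Helper89.TNL
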