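import Pool.Agent.Helper89.TNL.Defs
import Pool.Agent.Helper89.TC.Lim

/-!
# The limit of a sequence of points
-/

set_option autoImplicit false

namespace Pool.Agent.Helper89.TNL

open MvPolynomial
open Pool.Agent.Helper16 (Place IsFunctionField)

section aux

variable {k K : Type} [Field k] [Field K] [Algebra k K] (b : Place k K)

private theorem LimN_mul {x x' y y' : K} {ε : WithZero (Multiplicative ℤ)} (hx : b.val x ≤ 1)
    (hy' : b.val y' ≤ 1) (h1 : b.val (x - x') ≤ ε) (h2 : b.val (y - y') ≤ ε) :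
    b.val (x * y - x' * y') ≤ ε := by
  have h3 : x * y - x' * y' = x * (y - y') + (x - x') * y' := by ring
  rw [h3]
  refine (b.val.map_add _ _).trans (max_le ?_ ?_)
  · rw [map_mul]
    calc _ ≤ 1 * ε := mul_le_mul' hx h2
      _ = ε := one_mul _
  · rw [map_mul]
    calc _ ≤ ε * 1 := mul_le_mul' h1 hy'
      _ = ε := mul_one _

private theorem LimN_pow {x x' : K} {ε : WithZero (Multiplicative ℤ)} (hx : b.val x ≤ 1)
    (hx' : b.val x' ≤ 1) (h1 : b.val (x - x') ≤ ε) (n : ℕ) :
    b.val (x ^ n - x' ^ n) ≤ ε := by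
  induction n with
  | zero => rw [pow_zero, pow_zero, sub_self, map_zero]; exact zero_le
  | succ n ih =>
    rw [pow_succ, pow_succ]
    refine LimN_mul b ?_ hx' ih h1
    rw [map_pow]
    exact pow_le_one' hx _

private theorem LimN_prod {ι : Type} (s : Finset ι) {x x' : ι → K}
    {ε : WithZero (Multiplicative ℤ)} (hx : ∀ i, b.val (x i) ≤ 1)
    (hx' : ∀ i, b.val (x' i) ≤ 1) (h1 : ∀ i, b.val (x i - x' i) ≤ ε) :
    b.val (∏ i ∈ s, x i - ∏ i ∈ s, x' i) ≤ ε := by
  classical
  induction s using Finset.induction_on with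
  | empty => rw [Finset.prod_empty, Finset.prod_empty, sub_self, map_zero]; exact zero_le
  | insert a s ha ih =>
    rw [Finset.prod_insert ha, Finset.prod_insert ha]
    refine LimN_mul b (hx a) ?_ (h1 a) ih
    rw [map_prod]
    exact Finset.prod_le_one' fun i _ => hx' i

private theorem LimN_eval {n : ℕ} {P : MvPolynomial (Fin n) K} {D ε : WithZero (Multiplicative ℤ)}
    (hP : ∀ m, b.val (P.coeff m) ≤ D) {u u' : Fin n → K}
    (hu : ∀ a, b.val (u a) ≤ 1) (hu' : ∀ a, b.val (u' a) ≤ 1)
    (hd : ∀ a, b.val (u a - u' a) ≤ ε) :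
    b.val (eval u P - eval u' P) ≤ D * ε := by
  rw [eval_eq, eval_eq, ← Finset.sum_sub_distrib]
  refine b.val.map_sum_le fun m _ => ?_
  rw [← mul_sub, map_mul]
  refine mul_le_mul' (hP m) (LimN_prod b _ ?_ ?_ ?_)
  · intro i
    rw [map_pow]
    exact pow_le_one' (hu i) _
  · intro i
    rw [map_pow]
    exact pow_le_one' (hu' i) _
  · intro i
    exact LimN_pow b (hu i) (hu' i) (hd i) _

private theorem LimN_bound {n : ℕ} (P : MvPolynomial (Fin n) K) :
    ∃ D : ℕ, ∀ m, b.val (P.coeff m) ≤ WithZero.exp (D : ℤ) := by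
  classical
  have h1 : ∀ c : K, ∃ D : ℕ, b.val c ≤ WithZero.exp (D : ℤ) := by
    intro c
    by_cases hc : b.val c = 0
    · exact ⟨0, by rw [hc]; exact zero_le⟩
    · refine ⟨(WithZero.log (b.val c)).toNat, ?_⟩
      rw [← WithZero.exp_log hc, WithZero.exp_le_exp, WithZero.log_exp]
      exact Int.self_le_toNat _
  choose f hf using h1
  refine ⟨∑ m ∈ P.support, f (P.coeff m), fun m => ?_⟩
  by_cases hm : m ∈ P.support
  · refine (hf _).trans ?_
    rw [WithZero.exp_le_exp]
    exact_mod_cast Finset.single_le_sum (f := fun m => f (P.coeff m)) (fun _ _ => Nat.zero_le _) hm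
  · rw [notMem_support_iff.1 hm, map_zero]
    exact zero_le

private theorem LimN_lt {x : WithZero (Multiplicative ℤ)} (h : x < 1) :
    x ≤ WithZero.exp (-1 : ℤ) := by
  rcases eq_or_ne x 0 with h0 | h0
  · rw [h0]; exact zero_le
  · have h1 : WithZero.log x < 0 := (WithZero.log_lt_iff_lt_exp h0).2 (by simpa using h)
    exact WithZero.le_exp_of_log_le (by omega)

end aux

theorem exists_limitN {ν : ℕ} {k K : Type} [Field k] [Field K] [Algebra k K] (b : Place k K)
    {z : Fin (ν + 1) → k} {y : ℕ → Fin (ν + 1) → K}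
    (hz : ∀ s j, b.val (y s j - algebraMap k K (z j)) < 1)
    (hc : ∀ I : ℕ, ∃ s₀, ∀ s, s₀ ≤ s → ∀ j, b.val (y (s + 1) j - y s j) ≤
      WithZero.exp (-(I : ℤ))) :
    ∃ (L : Type) (_ : Field L) (_ : Algebra k L) (_ : Algebra K L) (_ : IsScalarTower k K L)
      (v : Place k L) (w : Fin (ν + 1) → L), (∀ a : K, v.val (algebraMap K L a) = b.val a) ∧
      (∀ j, v.val (w j - algebraMap k L (z j)) < 1) ∧
      ∀ P : MvPolynomial (Fin (ν + 1)) K,
        (∀ I : ℕ, {s | b.val (eval (y s) P) ≤ WithZero.exp (-(I : ℤ))}.Infinite) →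
        aeval w P = 0 := by
  classical
  have hcon : ∀ a : k, b.val (algebraMap k K a) ≤ 1 := fun a => by
    by_cases ha : a = 0
    · rw [ha, map_zero, map_zero]; exact zero_le
    · exact (b.triv a ha).le
  have hint : ∀ s j, b.val (y s j) ≤ 1 := by
    intro s j
    have h1 : y s j = (y s j - algebraMap k K (z j)) + algebraMap k K (z j) := by ring
    rw [h1]
    exact (b.val.map_add _ _).trans (max_le (hz s j).le (hcon _))
  have hdiff : ∀ I : ℕ, ∃ s₀, ∀ s s', s₀ ≤ s → s ≤ s' → ∀ j, b.val (y s' j - y s j) ≤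
      WithZero.exp (-(I : ℤ)) := by
    intro I
    obtain ⟨s₀, hs₀⟩ := hc I
    refine ⟨s₀, fun s s' hs hss => ?_⟩
    induction s', hss using Nat.le_induction with
    | base =>
      intro j
      rw [sub_self, map_zero]
      exact zero_le
    | succ n hn ih =>
      intro j
      have h1 : y (n + 1) j - y s j = (y (n + 1) j - y n j) + (y n j - y s j) := by ring
      rw [h1]
      exact (b.val.map_add _ _).trans (max_le (hs₀ n (hs.trans hn) j) (ih j))
  have hae : ∀ (x : Fin (ν + 1) → K) (Q : MvPolynomial (Fin (ν + 1)) K),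
      aeval x Q = eval x Q := fun x Q => by
    rw [aeval_def, eval, eval₂_eq, coe_eval₂Hom, eval₂_eq]
    rfl
  set W : Ultrafilter ℕ := Filter.hyperfilter ℕ with hW
  have hev : ∀ c : ℕ, ∀ᶠ j in (W : Filter ℕ), c ≤ j := fun c =>
    Nat.hyperfilter_le_atTop (Filter.eventually_ge_atTop c)
  obtain ⟨K', iF, ik, iK, iT, b', r, hrc, hext, hzero, hle, hge⟩ :=
    Pool.Agent.Helper89.TC.exists_limit_place b W
  letI algA : Algebra K (Pool.Agent.Helper30.TP.bddSub b W) := RingHom.toAlgebra
    { toFun := fun c => ⟨fun _ => c, Pool.Agent.Helper30.TP.const_mem_bddSub b W c⟩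
      map_one' := rfl
      map_mul' := fun _ _ => rfl
      map_zero' := rfl
      map_add' := fun _ _ => rfl }
  let rA : Pool.Agent.Helper30.TP.bddSub b W →ₐ[K] K' := { r with commutes' := hrc }
  let π : ℕ → (Pool.Agent.Helper30.TP.bddSub b W →ₐ[K] K) := fun j =>
    { toFun := fun y => y.1 j
      map_one' := rfl
      map_mul' := fun _ _ => rfl
      map_zero' := rfl
      map_add' := fun _ _ => rfl
      commutes' := fun _ => rfl }
  let U : Fin (ν + 1) → Pool.Agent.Helper30.TP.bddSub b W := fun a =>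
    ⟨fun s => y s a, 0, Filter.Eventually.of_forall fun s => by
      rw [Nat.cast_zero, WithZero.exp_zero]
      exact hint s a⟩
  refine ⟨K', iF, ik, iK, iT, b', fun a => r (U a), hext, fun j => ?_, fun P hinf => ?_⟩
  · have h1 : r (U j) - algebraMap k K' (z j) = r (U j - ⟨fun _ => algebraMap k K (z j),
        Pool.Agent.Helper30.TP.const_mem_bddSub b W (algebraMap k K (z j))⟩) := by
      rw [map_sub, hrc, ← IsScalarTower.algebraMap_apply]
    show b'.val (r (U j) - algebraMap k K' (z j)) < 1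
    rw [h1]
    refine (hle _ (-1) (Filter.Eventually.of_forall fun s => LimN_lt (hz s j))).trans_lt ?_
    rw [← WithZero.exp_zero]
    exact WithZero.exp_lt_exp.2 (by norm_num)
  · have h1 : aeval (fun a => r (U a)) P = r (aeval U P) := (comp_aeval_apply U rA P).symm
    rw [h1, hzero]
    intro c
    obtain ⟨D, hD⟩ := LimN_bound b P
    obtain ⟨s₀, hs₀⟩ := hdiff (D + c + 1)
    filter_upwards [hev s₀] with s hs
    have h2 : (aeval U P : Pool.Agent.Helper30.TP.bddSub b W).1 s = eval (y s) P := by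
      have h3 := comp_aeval_apply U (π s) P
      have h4 : (fun a => π s (U a)) = y s := rfl
      rw [h4, hae] at h3
      exact h3
    rw [h2]
    obtain ⟨s', hs', hss⟩ := (hinf (c + 1)).exists_gt s
    have h5 : b.val (eval (y s') P) ≤ WithZero.exp (-((c + 1 : ℕ) : ℤ)) := hs'
    have h6 := LimN_eval b hD (hint s') (hint s) (hs₀ s s' hs hss.le)
    have h7 : eval (y s) P = eval (y s') P - (eval (y s') P - eval (y s) P) := by ring
    rw [h7]
    refine (b.val.map_sub _ _).trans_lt (max_lt (h5.trans_lt ?_) (h6.trans_lt ?_))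
    · exact WithZero.exp_lt_exp.2 (by push_cast; omega)
    · rw [← WithZero.exp_add]
      exact WithZero.exp_lt_exp.2 (by push_cast; omega)

end Pool.Agent.Helper89.TNL
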