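import Pool.Agent.Helper89.TNL.Place

/-!
# The local statement
-/

set_option autoImplicit false

namespace Pool.Agent.Helper89.TNL

open MvPolynomial
open Pool.Agent.Helper16 (Place IsFunctionField)
open Pool.Agent.Helper36 (step iter)
open Pool.Agent.Helper38.TQ
open Pool.Agent.Helper30.TKN
open Pool.Agent.Helper63.TN (OnI IsCurve NonPer NearPt IsPer pull)

variable {ν : ℕ} {k K : Type} [Field k] [Field K] [Algebra k K]

/-- At a place of good reduction at which the reduction of the orbit is periodic, the periodic
class of times containing infinitely many returns, there is a periodic point of the curve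
nearby. -/
theorem local_main [IsAlgClosed k] [CharZero k] [Algebra K ℂ] (hK : IsFunctionField k K) {d : ℕ}
    {F : Fin (ν + 1) → MvPolynomial (Fin (ν + 1)) K}
    (hF : IsEndo d fun i => map (algebraMap K ℂ) (F i))
    {I : Ideal (MvPolynomial (Fin (ν + 1)) K)} (hI : IsCurve I)
    (hnp : NonPer I F) {x : Fin (ν + 1) → K} (_hx : x ≠ 0)
    (_hdist : ∀ n n', n ≠ n' → ¬ PEq (iter F x n) (iter F x n')) {b : Place k K} {c N : ℕ}
    (hN : 0 < N) (hret : {j : ℕ | OnI I (iter F x (c + N * j))}.Infinite)
    {z : Fin (ν + 1) → k} (hred : Red b (iter F x c) z)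
    {f : Fin (ν + 1) → MvPolynomial (Fin (ν + 1)) k} (hf : GoodRed d b F f)
    (hfix : PEq z (iter f z N)) :
    NearPt I b z (fun _ _ _ w => IsPer F w) := by
  letI : Algebra k ℂ := ((algebraMap K ℂ).comp (algebraMap k K)).toAlgebra
  exact local_per hK (homog_of_endo hF) hf hI hnp hN hret hred hfix

end Pool.Agent.Helper89.TNL
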