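import Pool.Agent.Helper89.TNL.Defs
import Pool.Agent.Helper33.SS.Emb
import Pool.Agent.Helper37.ReturnSet

/-!
# Zeros of linear recurrence sequences (Skolem)
-/

set_option autoImplicit false

namespace Pool.Agent.Helper89.TNL

section Lrs_aux

variable {R : Type} [CommRing R] {m : ℕ}

/-- The linear map as a family of polynomials. -/
noncomputable def Lrs_F (A : Matrix (Fin m) (Fin m) R) (i : Fin m) : MvPolynomial (Fin m) R :=
  ∑ j, MvPolynomial.C (A i j) * MvPolynomial.X j

theorem Lrs_step (A : Matrix (Fin m) (Fin m) R) (x : Fin m → R) :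
    Pool.Agent.Helper37.step (Lrs_F A) x = A.mulVec x := by
  funext i
  simp [Pool.Agent.Helper37.step, Lrs_F, Matrix.mulVec, dotProduct]

theorem Lrs_iter (A : Matrix (Fin m) (Fin m) R) (x : Fin m → R) (n : ℕ) :
    (Pool.Agent.Helper37.step (Lrs_F A))^[n] x = (A ^ n).mulVec x := by
  induction n with
  | zero => rw [Function.iterate_zero, id, pow_zero, Matrix.one_mulVec]
  | succ n ih => rw [Function.iterate_succ_apply', ih, Lrs_step, Matrix.mulVec_mulVec, pow_succ']

theorem Lrs_jac (A : Matrix (Fin m) (Fin m) R) (y : Fin m → R) :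
    Pool.Agent.Helper37.jac (Lrs_F A) y = A := by
  ext i j
  simp [Pool.Agent.Helper37.jac, Lrs_F, MvPolynomial.pderiv_X, Pi.single_apply]

theorem Lrs_map {S : Type} [CommRing S] (f : R →+* S) (A : Matrix (Fin m) (Fin m) R)
    (x : Fin m → R) (n : ℕ) (i : Fin m) :
    f ((A ^ n).mulVec x i) = ((A.map f) ^ n).mulVec (fun j => f (x j)) i := by
  rw [RingHom.map_mulVec]
  congr 1
  have h := map_pow f.mapMatrix A n
  rw [RingHom.mapMatrix_apply, RingHom.mapMatrix_apply] at h
  rw [h]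

end Lrs_aux

/-- A linear recurrence sequence with infinitely many zeros vanishes along an arithmetic
progression. -/
theorem lrs_zero {m : ℕ} (M : Matrix (Fin m) (Fin m) ℂ) (hM : M.det ≠ 0) (v w : Fin m → ℂ)
    (hinf : {t : ℕ | ∑ i, w i * (M ^ t).mulVec v i = 0}.Infinite) :
    ∃ a q : ℕ, 0 < q ∧ ∀ t, ∑ i, w i * (M ^ (a + q * t)).mulVec v i = 0 := by
  classical
  -- the field generated by all the constants
  set T : Finset ℂ := (Finset.univ.image fun x : Fin m × Fin m => M x.1 x.2) ∪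
    (Finset.univ.image v ∪ Finset.univ.image w) with hT
  set K' : IntermediateField ℚ ℂ := IntermediateField.adjoin ℚ (T : Set ℂ) with hK'
  have hfg : (⊤ : IntermediateField ℚ K').FG := by
    have h1 : K'.FG := ⟨T, rfl⟩
    exact (IntermediateField.fg_top_iff).2 (IntermediateField.essFiniteType_iff.2 h1)
  have hmem : ∀ x ∈ T, x ∈ K' := fun x hx => IntermediateField.subset_adjoin ℚ _ hx
  have hMm : ∀ i j, M i j ∈ K' := fun i j => hmem _ (by
    rw [hT]
    exact Finset.mem_union_left _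
      (Finset.mem_image_of_mem (fun x : Fin m × Fin m => M x.1 x.2) (Finset.mem_univ (i, j))))
  have hvm : ∀ i, v i ∈ K' := fun i => hmem _ (by
    rw [hT]
    exact Finset.mem_union_right _ (Finset.mem_union_left _
      (Finset.mem_image_of_mem v (Finset.mem_univ i))))
  have hwm : ∀ i, w i ∈ K' := fun i => hmem _ (by
    rw [hT]
    exact Finset.mem_union_right _ (Finset.mem_union_right _
      (Finset.mem_image_of_mem w (Finset.mem_univ i))))
  set M' : Matrix (Fin m) (Fin m) K' := Matrix.of fun i j => ⟨M i j, hMm i j⟩ with hM'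
  set v' : Fin m → K' := fun i => ⟨v i, hvm i⟩ with hv'
  set w' : Fin m → K' := fun i => ⟨w i, hwm i⟩ with hw'
  have hMmap : M'.map (algebraMap K' ℂ) = M := by
    ext i j
    rfl
  have hdet : M'.det ≠ 0 := by
    intro h0
    apply hM
    rw [← hMmap, ← RingHom.mapMatrix_apply, ← RingHom.map_det, h0, map_zero]
  obtain ⟨p, -, hp, φ, hφ⟩ := Pool.Agent.Helper33.SS.exists_padic_int hfg
    ((Finset.univ.image fun x : Fin m × Fin m => M' x.1 x.2) ∪
      (Finset.univ.image v' ∪ {(M'.det)⁻¹})) 0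
  have := Fact.mk hp
  have h1 : ∀ i j, ‖φ (M' i j)‖ ≤ 1 := fun i j => hφ _ (Finset.mem_union_left _
    (Finset.mem_image_of_mem (fun x : Fin m × Fin m => M' x.1 x.2) (Finset.mem_univ (i, j))))
  have h2 : ∀ i, ‖φ (v' i)‖ ≤ 1 := fun i => hφ _ (Finset.mem_union_right _
    (Finset.mem_union_left _ (Finset.mem_image_of_mem v' (Finset.mem_univ i))))
  have h3 : ‖φ (M'.det)⁻¹‖ ≤ 1 := hφ _ (Finset.mem_union_right _
    (Finset.mem_union_right _ (Finset.mem_singleton_self _)))
  set A : Matrix (Fin m) (Fin m) ℤ_[p] := Matrix.of fun i j => ⟨φ (M' i j), h1 i j⟩ with hA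
  set x : Fin m → ℤ_[p] := fun i => ⟨φ (v' i), h2 i⟩ with hx
  have hAmap : A.map (algebraMap ℤ_[p] ℚ_[p]) = M'.map φ := by
    ext i j
    rfl
  have hunit : IsUnit A.det := by
    refine IsUnit.of_mul_eq_one (⟨φ (M'.det)⁻¹, h3⟩ : ℤ_[p]) ?_
    apply PadicInt.ext
    rw [PadicInt.coe_mul, PadicInt.coe_one]
    have h4 : ((A.det : ℤ_[p]) : ℚ_[p]) = φ M'.det := by
      have h5 : algebraMap ℤ_[p] ℚ_[p] A.det = φ M'.det := by
        rw [RingHom.map_det, RingHom.mapMatrix_apply, hAmap, ← RingHom.mapMatrix_apply,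
          ← RingHom.map_det]
      exact h5
    rw [h4]
    show φ M'.det * φ (M'.det)⁻¹ = 1
    rw [← map_mul, mul_inv_cancel₀ hdet, map_one]
  obtain ⟨T', hT'⟩ := Pool.Agent.Helper37.returnSet_progressions (R := ℤ_[p]) p hp
    (by rw [IsLocalRing.mem_maximalIdeal]; exact PadicInt.p_nonunit)
    (L := ℚ_[p]) (FaithfulSMul.algebraMap_injective ℤ_[p] ℚ_[p]) (Lrs_F A) x
    (fun n => by rw [Lrs_jac]; exact hunit)
    {∑ i, MvPolynomial.C (φ (w' i)) * MvPolynomial.X i}
  have hset : {t : ℕ | ∑ i, w i * (M ^ t).mulVec v i = 0}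
      = {n : ℕ | ∃ p ∈ T', ∃ m : ℕ, n = p.1 * m + p.2} := by
    rw [← hT']
    ext t
    simp only [Set.mem_ofPred_eq, Set.mem_singleton_iff, forall_eq]
    have e1 : (MvPolynomial.eval fun i => algebraMap ℤ_[p] ℚ_[p]
          ((Pool.Agent.Helper37.step (Lrs_F A))^[t] x i))
          (∑ i, MvPolynomial.C (φ (w' i)) * MvPolynomial.X i)
        = φ (∑ i, w' i * (M' ^ t).mulVec v' i) := by
      rw [Lrs_iter, map_sum, map_sum]
      refine Finset.sum_congr rfl fun i _ => ?_
      rw [map_mul, map_mul, MvPolynomial.eval_C, MvPolynomial.eval_X, Lrs_map, Lrs_map, hAmap]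
      rfl
    rw [e1, map_eq_zero]
    have e2 : algebraMap K' ℂ (∑ i, w' i * (M' ^ t).mulVec v' i)
        = ∑ i, w i * (M ^ t).mulVec v i := by
      rw [map_sum]
      refine Finset.sum_congr rfl fun i _ => ?_
      rw [map_mul, Lrs_map, hMmap]
      rfl
    rw [← e2]
    exact map_eq_zero_iff _ (algebraMap K' ℂ).injective
  rw [hset] at hinf
  have h4 : ∃ q ∈ T', 0 < q.1 := by
    by_contra hcon
    push Not at hcon
    apply hinf
    refine Set.Finite.subset (T'.image Prod.snd).finite_toSet ?_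
    rintro n ⟨q, hq, m, rfl⟩
    have h5 : q.1 = 0 := Nat.le_zero.1 (hcon q hq)
    rw [h5, zero_mul, zero_add]
    exact Finset.mem_coe.2 (Finset.mem_image_of_mem _ hq)
  obtain ⟨q, hq, hq0⟩ := h4
  refine ⟨q.2, q.1, hq0, fun t => ?_⟩
  have h5 : q.2 + q.1 * t ∈ {t : ℕ | ∑ i, w i * (M ^ t).mulVec v i = 0} := by
    rw [hset]
    exact ⟨q, hq, t, by ring⟩
  exact h5

end Pool.Agent.Helper89.TNL
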