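import Pool.Agent.Helper89.TNL.Taylor

/-!
# A parameter on a smooth curve in the polydisc
-/

set_option autoImplicit false

namespace Pool.Agent.Helper89.TNL

open MvPolynomial

variable {R k : Type} [CommRing R] [IsDomain R] [Field k] [Algebra k R] {π : R} {χ : R →+* k}
  {ι γ : Type} [Fintype ι] [DecidableEq ι] [Fintype γ]

omit [IsDomain R] in
/-- The relation of smoothness, over `R`. -/
theorem Param_rel (hR : Res π χ) {h : γ → MvPolynomial ι R} {lam : ι → k} {B : ι → k}
    {B' : ι → γ → k}
    (hB : ∀ i j, B i * lam j + ∑ c, B' i c * χ ((h c).coeff (Finsupp.single j 1)) =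
      if i = j then 1 else 0) :
    ∃ s : ι → ι → R, ∀ i j, algebraMap k R (B i) * algebraMap k R (lam j) +
      ∑ c, algebraMap k R (B' i c) * (h c).coeff (Finsupp.single j 1) =
      (if i = j then 1 else 0) + π * s i j := by
  have key : ∀ i j, π ∣ algebraMap k R (B i) * algebraMap k R (lam j) +
      ∑ c, algebraMap k R (B' i c) * (h c).coeff (Finsupp.single j 1) -
      (if i = j then 1 else 0) := by
    intro i j
    rw [← hR.ker, map_sub, map_add, map_mul, hR.sec, hR.sec, map_sum]
    simp only [map_mul, hR.sec]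
    rw [hB]
    split_ifs <;> simp
  choose s hs using key
  refine ⟨s, fun i j => ?_⟩
  rw [← hs]
  ring

omit [IsDomain R] [Fintype γ] in
theorem Param_swap [Fintype γ] {B' : γ → R} {a : γ → ι → R} {d : ι → R} :
    ∑ j, (∑ c, B' c * a c j) * d j = ∑ c, B' c * ∑ j, a c j * d j := by
  simp only [Finset.sum_mul, Finset.mul_sum]
  rw [Finset.sum_comm]
  refine Finset.sum_congr rfl fun c _ => Finset.sum_congr rfl fun j _ => ?_
  ring

omit [IsDomain R] in
/-- A vector in terms of its value under the linear form and its products with the rows of the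
linear parts. -/
theorem Param_inv {B : R} {B' : γ → R} {lam : ι → R} {a : γ → ι → R} {i : ι} {s : ι → R}
    (hs : ∀ j, B * lam j + ∑ c, B' c * a c j = (if i = j then 1 else 0) + π * s j)
    (d : ι → R) :
    d i = B * ∑ l, lam l * d l + ∑ c, B' c * ∑ j, a c j * d j - π * ∑ j, s j * d j := by
  have e1 : ∑ j, (B * lam j + ∑ c, B' c * a c j) * d j =
      ∑ j, ((if i = j then 1 else 0) + π * s j) * d j :=
    Finset.sum_congr rfl fun j _ => by rw [hs]
  have e2 : ∑ j, (B * lam j + ∑ c, B' c * a c j) * d j =
      B * ∑ l, lam l * d l + ∑ c, B' c * ∑ j, a c j * d j := by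
    simp only [add_mul, Finset.sum_add_distrib]
    rw [Param_swap, Finset.mul_sum]
    congr 1
    exact Finset.sum_congr rfl fun j _ => by ring
  have e3 : ∑ j, ((if i = j then 1 else 0) + π * s j) * d j = d i + π * ∑ j, s j * d j := by
    simp only [add_mul, Finset.sum_add_distrib, ite_mul, one_mul, zero_mul]
    rw [Finset.sum_ite_eq, if_pos (Finset.mem_univ i), Finset.mul_sum]
    congr 1
    exact Finset.sum_congr rfl fun j _ => by ring
  rw [← e2, e1, e3]
  ring

/-- Points of the curve with close parameters are close. -/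
theorem param_lip (hR : Res π χ) {h : γ → MvPolynomial ι R} {lam : ι → k}
    (hs : Smooth π χ h lam) {q q' : ι → R} (hq : ∀ i, π ∣ q i) (hq' : ∀ i, π ∣ q' i)
    (hz : ∀ c, eval q (h c) = 0) (hz' : ∀ c, eval q' (h c) = 0) {m : ℕ}
    (hm : π ^ m ∣ ∑ i, algebraMap k R (lam i) * q i - ∑ i, algebraMap k R (lam i) * q' i) :
    ∀ i, π ^ m ∣ q i - q' i := by
  obtain ⟨-, B, B', hB⟩ := hs
  obtain ⟨s, hs⟩ := Param_rel hR hB
  have ht : ∀ c, ∃ r : ι → R, 0 = ∑ i, ((h c).coeff (Finsupp.single i 1) + π * r i) *
      (q i - q' i) := by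
    intro c
    obtain ⟨r, hr⟩ := taylor_n (h c) hq hq'
    refine ⟨r, ?_⟩
    rw [← hr, hz, hz', sub_zero]
  choose r hr using ht
  have hl : ∀ c, ∑ j, (h c).coeff (Finsupp.single j 1) * (q j - q' j) =
      -(π * ∑ j, r c j * (q j - q' j)) := by
    intro c
    have e := hr c
    simp only [add_mul, Finset.sum_add_distrib] at e
    have e2 : ∑ x, π * r c x * (q x - q' x) = π * ∑ j, r c j * (q j - q' j) := by
      rw [Finset.mul_sum]
      exact Finset.sum_congr rfl fun j _ => by ring
    rw [e2] at e
    exact eq_neg_of_add_eq_zero_left e.symm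
  have hm' : π ^ m ∣ ∑ l, algebraMap k R (lam l) * (q l - q' l) := by
    have e : ∑ l, algebraMap k R (lam l) * (q l - q' l) =
        ∑ i, algebraMap k R (lam i) * q i - ∑ i, algebraMap k R (lam i) * q' i := by
      rw [← Finset.sum_sub_distrib]
      exact Finset.sum_congr rfl fun j _ => by ring
    rw [e]
    exact hm
  have main : ∀ n, n ≤ m → ∀ i, π ^ n ∣ q i - q' i := by
    intro n
    induction n with
    | zero => intro _ i; simp
    | succ n ih =>
      intro hn i
      have ih' := ih (by omega)
      rw [Param_inv (hs i) (fun j => q j - q' j)]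
      refine dvd_sub (dvd_add ?_ ?_) ?_
      · exact ((pow_dvd_pow π hn).trans hm').mul_left _
      · refine Finset.dvd_sum fun c _ => ?_
        rw [hl, pow_succ, mul_comm (π ^ n)]
        refine Dvd.dvd.mul_left ?_ _
        rw [dvd_neg]
        exact mul_dvd_mul_left π (Finset.dvd_sum fun j _ => (ih' j).mul_left _)
      · rw [pow_succ, mul_comm (π ^ n)]
        exact mul_dvd_mul_left π (Finset.dvd_sum fun j _ => (ih' j).mul_left _)
  exact main m le_rfl

omit [IsDomain R] [Fintype ι] [DecidableEq ι] in
/-- Substitution of polynomials in one variable. -/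
theorem Param_subst (P : MvPolynomial ι R) (Q : ι → Polynomial R) :
    ∃ L : Polynomial R, ∀ t, L.eval t = eval (fun i => (Q i).eval t) P := by
  induction P using MvPolynomial.induction_on with
  | C a => exact ⟨Polynomial.C a, fun t => by simp⟩
  | add P P' hP hP' =>
    obtain ⟨L, hL⟩ := hP
    obtain ⟨L', hL'⟩ := hP'
    exact ⟨L + L', fun t => by rw [Polynomial.eval_add, map_add, hL, hL']⟩
  | mul_X P i hP =>
    obtain ⟨L, hL⟩ := hP
    exact ⟨L * Q i, fun t => by rw [Polynomial.eval_mul, map_mul, eval_X, hL]⟩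

/-- The part of order at least two. -/
theorem Param_two (P : MvPolynomial ι R) :
    ∃ P₂ : MvPolynomial ι R, (∀ j, P₂.coeff (Finsupp.single j 1) = 0) ∧
      ∀ q : ι → R, eval q P = P.coeff 0 + ∑ j, P.coeff (Finsupp.single j 1) * q j +
        eval q P₂ := by
  refine ⟨P - C (P.coeff 0) - ∑ j, C (P.coeff (Finsupp.single j 1)) * X j, fun j => ?_,
    fun q => ?_⟩
  · rw [coeff_sub, coeff_sub, Taylor_coeff_C, coeff_sum]
    simp only [coeff_C_mul, coeff_X', Finsupp.single_left_inj (one_ne_zero)]
    simp
  · simp only [map_sub, map_sum, map_mul, eval_C, eval_X]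
    ring

/-- The points of the curve are, modulo powers of `π`, given by polynomials in the parameter. -/
theorem param (hR : Res π χ) {h : γ → MvPolynomial ι R} {lam : ι → k}
    (hs : Smooth π χ h lam) (I : ℕ) :
    ∃ Q : ι → Polynomial R, ∀ q : ι → R, (∀ i, π ∣ q i) → (∀ c, eval q (h c) = 0) →
      ∀ i, π ^ I ∣ q i - (Q i).eval (∑ l, algebraMap k R (lam l) * q l) := by
  obtain ⟨-, B, B', hB⟩ := hs
  obtain ⟨s, hs⟩ := Param_rel hR hB
  choose h₂ h0 h2 using fun c => Param_two (h c)
  have main : ∀ J : ℕ, ∃ Q : ι → Polynomial R, ∀ q : ι → R, (∀ i, π ∣ q i) →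
      (∀ c, eval q (h c) = 0) →
      ∀ i, π ^ (J + 1) ∣ q i - (Q i).eval (∑ l, algebraMap k R (lam l) * q l) := by
    intro J
    induction J with
    | zero => exact ⟨fun _ => 0, fun q hq _ i => by simpa using hq i⟩
    | succ J ih =>
      obtain ⟨Q, hQ⟩ := ih
      choose L hL using fun c => Param_subst (h₂ c) Q
      refine ⟨fun i => Polynomial.C (algebraMap k R (B i)) * Polynomial.X -
        ∑ c, Polynomial.C (algebraMap k R (B' i c)) * (Polynomial.C ((h c).coeff 0) + L c) -
        Polynomial.C π * ∑ j, Polynomial.C (s i j) * Q j, fun q hq hz i => ?_⟩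
      set t := ∑ l, algebraMap k R (lam l) * q l with ht
      have hQt := hQ q hq hz
      have hsm : ∀ j, π ∣ (Q j).eval t := by
        intro j
        have e : (Q j).eval t = q j - (q j - (Q j).eval t) := by ring
        rw [e]
        exact dvd_sub (hq j) ((dvd_pow_self π (by omega)).trans (hQt j))
      have hlin : ∀ c, ∑ j, (h c).coeff (Finsupp.single j 1) * q j =
          -((h c).coeff 0 + eval q (h₂ c)) := by
        intro c
        have e := h2 c q
        rw [hz c] at e
        linear_combination -e
      have hd : ∀ c, π ^ (J + 1 + 1) ∣ eval q (h₂ c) - (L c).eval t := by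
        intro c
        rw [hL]
        obtain ⟨r, hr⟩ := taylor_n (h₂ c) hq hsm
        rw [hr]
        refine Finset.dvd_sum fun j _ => ?_
        rw [h0, zero_add, pow_succ, mul_comm (π ^ (J + 1)), mul_assoc]
        exact mul_dvd_mul_left π ((hQt j).mul_left _)
      have e1 := Param_inv (hs i) q
      rw [← ht] at e1
      simp only [hlin] at e1
      have e2 : q i - (Polynomial.C (algebraMap k R (B i)) * Polynomial.X -
          ∑ c, Polynomial.C (algebraMap k R (B' i c)) *
            (Polynomial.C ((h c).coeff 0) + L c) -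
          Polynomial.C π * ∑ j, Polynomial.C (s i j) * Q j).eval t =
          -(∑ c, algebraMap k R (B' i c) * (eval q (h₂ c) - (L c).eval t)) -
          π * ∑ j, s i j * (q j - (Q j).eval t) := by
        rw [e1]
        simp only [Polynomial.eval_sub, Polynomial.eval_mul, Polynomial.eval_C,
          Polynomial.eval_X, Polynomial.eval_finset_sum, Polynomial.eval_add]
        simp only [mul_sub, mul_add, mul_neg, Finset.sum_add_distrib, Finset.sum_neg_distrib,
          Finset.sum_sub_distrib, neg_add]
        ring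
      rw [e2]
      refine dvd_sub ?_ ?_
      · rw [dvd_neg]
        exact Finset.dvd_sum fun c _ => (hd c).mul_left _
      · rw [pow_succ, mul_comm (π ^ (J + 1))]
        exact mul_dvd_mul_left π (Finset.dvd_sum fun j _ => (hQt j).mul_left _)
  cases I with
  | zero => exact ⟨fun _ => 0, fun q _ _ i => by simp⟩
  | succ J => exact main J

end Pool.Agent.Helper89.TNL
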