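import Pool.Agent.Helper89.TNL.LiftN

/-!
# Points of a residue polydisc in the coordinates of a chart
-/

set_option autoImplicit false

namespace Pool.Agent.Helper89.TNL

open MvPolynomial
open Pool.Agent.Helper16 (Place IsFunctionField)
open Pool.Agent.Helper38.TQ
open Pool.Agent.Helper30.TKN

variable {ν : ℕ} {k K : Type} [Field k] [Field K] [Algebra k K] {b : Place k K} {π : b.ring}
  {χ : b.ring →+* k} {ι : Type} [Fintype ι] [DecidableEq ι]

/-- The vectors of the chart over the valuation ring. -/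
def eR (b : Place k K) {ι : Type} (e : Option ι → Fin (ν + 1) → k) :
    Option ι → Fin (ν + 1) → b.ring :=
  fun a i => algebraMap k b.ring (e a i)

/-- The coordinates of a point of the chart. -/
theorem PointN_coord {e : Option ι → Fin (ν + 1) → k} {B : Fin (ν + 1) → Option ι → k}
    (h₁ : ∀ a a', ∑ i, e a i * B i a' = if a = a' then 1 else 0) (q : ι → b.ring)
    (a : Option ι) :
    ∑ j, ptN (eR b e) q j * algebraMap k b.ring (B j a) = a.elim 1 q := by
  have h2 : ∀ a', ∑ j, eR b e a' j * algebraMap k b.ring (B j a) =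
      if a' = a then 1 else 0 := by
    intro a'
    have h3 := congrArg (algebraMap k b.ring) (h₁ a' a)
    rw [map_sum] at h3
    simp only [map_mul] at h3
    simp only [eR]
    rw [h3]
    split_ifs <;> simp
  unfold ptN
  simp only [add_mul, Finset.sum_add_distrib, Finset.sum_mul]
  rw [h2 none, Finset.sum_comm]
  have h4 : ∀ i, ∑ j, q i * eR b e (some i) j * algebraMap k b.ring (B j a) =
      q i * if some i = a then 1 else 0 := by
    intro i
    rw [← h2 (some i), Finset.mul_sum]
    exact Finset.sum_congr rfl fun j _ => mul_assoc _ _ _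
  rw [Finset.sum_congr rfl fun i _ => h4 i]
  cases a with
  | none => simp
  | some i0 => simp

theorem PointN_lt (hR : Res π χ)
    (hπ : ∀ (r : b.ring) (n : ℕ), π ^ n ∣ r ↔ b.val (r : K) ≤ WithZero.exp (-(n : ℤ)))
    (r : b.ring) : π ∣ r ↔ b.val (r : K) < 1 := by
  have h1 := hπ r 1
  rw [pow_one] at h1
  rw [h1]
  constructor
  · intro h
    refine lt_of_le_of_lt h ?_
    rw [← WithZero.exp_zero, WithZero.exp_lt_exp]
    simp
  · intro h
    exact Pool.Agent.Helper63.TS.RingR_lt b h

theorem PointN_none_ne {e : Option ι → Fin (ν + 1) → k} {B : Fin (ν + 1) → Option ι → k}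
    (h₁ : ∀ a a', ∑ i, e a i * B i a' = if a = a' then 1 else 0) : e none ≠ 0 := by
  intro h
  have h2 := h₁ none none
  rw [h] at h2
  simp at h2

/-- A point which specialises to the origin of the chart. -/
theorem exists_chart (hR : Res π χ)
    (hπ : ∀ (r : b.ring) (n : ℕ), π ^ n ∣ r ↔ b.val (r : K) ≤ WithZero.exp (-(n : ℤ)))
    {e : Option ι → Fin (ν + 1) → k} {B : Fin (ν + 1) → Option ι → k}
    (h₁ : ∀ a a', ∑ i, e a i * B i a' = if a = a' then 1 else 0)
    (h₂ : ∀ i i', ∑ a, B i a * e a i' = if i = i' then 1 else 0)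
    {y : Fin (ν + 1) → K} (hy : Red b y (e none)) :
    ∃ (c : K) (q : ι → b.ring), c ≠ 0 ∧ (∀ i, π ∣ q i) ∧
      ∀ j, y j = c * algebraMap b.ring K (ptN (eR b e) q j) := by
  obtain ⟨h0, c0, hc0, hc⟩ := hy
  have hle : ∀ i, b.val (c0 * y i) ≤ 1 := by
    intro i
    have h3 : c0 * y i = (c0 * y i - algebraMap k K (e none i)) + algebraMap k K (e none i) := by
      ring
    rw [h3]
    exact (b.val.map_add _ _).trans (max_le (hc i).le (b.val_algebraMap_le _))
  obtain ⟨yr, hyr⟩ : ∃ yr : Fin (ν + 1) → b.ring, ∀ i, ((yr i : b.ring) : K) = c0 * y i :=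
    ⟨fun i => ⟨c0 * y i, hle i⟩, fun i => rfl⟩
  have hd : ∀ i, π ∣ yr i - eR b e none i := by
    intro i
    rw [PointN_lt hR hπ]
    have h4 : ((yr i - eR b e none i : b.ring) : K) = c0 * y i - algebraMap k K (e none i) := by
      rw [← hyr]
      rfl
    rw [h4]
    exact hc i
  obtain ⟨w, hw⟩ : ∃ w : Option ι → b.ring,
      ∀ a, w a = ∑ i, yr i * algebraMap k b.ring (B i a) := ⟨_, fun a => rfl⟩
  have hwd : ∀ a, π ∣ w a - (if none = a then 1 else 0) := by
    intro a
    have h3 := congrArg (algebraMap k b.ring) (h₁ none a)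
    rw [map_sum] at h3
    simp only [map_mul] at h3
    have h5 : w a - (if none = a then 1 else 0) =
        ∑ i, (yr i - eR b e none i) * algebraMap k b.ring (B i a) := by
      simp only [sub_mul, Finset.sum_sub_distrib]
      rw [hw a]
      congr 1
      simp only [eR]
      rw [h3]
      split_ifs <;> simp
    rw [h5]
    exact Finset.dvd_sum fun i _ => Dvd.dvd.mul_right (hd i) _
  have hw0 : IsUnit (w none) := by
    apply hR.unif.unit
    intro h
    have h6 := hwd none
    rw [if_pos rfl] at h6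
    have h7 : π ∣ 1 := by
      have h8 := dvd_sub h h6
      rwa [sub_sub_cancel] at h8
    exact hR.unif.prime.not_isUnit (isUnit_of_dvd_one h7)
  have hws : ∀ i, π ∣ w (some i) := by
    intro i
    have h6 := hwd (some i)
    rw [if_neg (by simp), sub_zero] at h6
    exact h6
  have hrec : ∀ j, yr j = ∑ a, w a * algebraMap k b.ring (e a j) := by
    intro j
    have h7 : ∑ a, w a * algebraMap k b.ring (e a j) =
        ∑ i, yr i * ∑ a, algebraMap k b.ring (B i a) * algebraMap k b.ring (e a j) := by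
      simp only [hw, Finset.sum_mul, Finset.mul_sum]
      rw [Finset.sum_comm]
      refine Finset.sum_congr rfl fun i _ => Finset.sum_congr rfl fun a _ => ?_
      ring
    rw [h7]
    have h8 : ∀ i, ∑ a, algebraMap k b.ring (B i a) * algebraMap k b.ring (e a j) =
        if i = j then 1 else 0 := by
      intro i
      have h3 := congrArg (algebraMap k b.ring) (h₂ i j)
      rw [map_sum] at h3
      simp only [map_mul] at h3
      rw [h3]
      split_ifs <;> simp
    simp [h8]
  obtain ⟨u, hu⟩ := hw0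
  refine ⟨c0⁻¹ * ((w none : b.ring) : K), fun i => w (some i) * ((u⁻¹ : (b.ring)ˣ) : b.ring),
    ?_, fun i => Dvd.dvd.mul_right (hws i) _, ?_⟩
  · refine mul_ne_zero (inv_ne_zero hc0) ?_
    intro h
    have h9 : w none = 0 := Subtype.ext h
    rw [h9] at hu
    exact u.ne_zero hu
  · intro j
    have h10 : w none * ptN (eR b e)
        (fun i => w (some i) * ((u⁻¹ : (b.ring)ˣ) : b.ring)) j = yr j := by
      rw [hrec j, Fintype.sum_option]
      unfold ptN
      simp only [eR]
      rw [mul_add, Finset.mul_sum]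
      congr 1
      refine Finset.sum_congr rfl fun i _ => ?_
      have h11 : w none * ((u⁻¹ : (b.ring)ˣ) : b.ring) = 1 := by
        rw [← hu]
        exact Units.mul_inv u
      calc w none * (w (some i) * ((u⁻¹ : (b.ring)ˣ) : b.ring) * algebraMap k b.ring (e (some i) j))
          = (w none * ((u⁻¹ : (b.ring)ˣ) : b.ring)) *
            (w (some i) * algebraMap k b.ring (e (some i) j)) := by ring
        _ = _ := by rw [h11, one_mul]
    have h12 : ((w none : b.ring) : K) * algebraMap b.ring K (ptN (eR b e)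
        (fun i => w (some i) * ((u⁻¹ : (b.ring)ˣ) : b.ring)) j) = c0 * y j := by
      rw [← hyr j, ← h10]
      rfl
    rw [mul_assoc, h12, inv_mul_cancel_left₀ hc0]

theorem PointN_red {e : Option ι → Fin (ν + 1) → k} (hR : Res π χ)
    (hπ : ∀ (r : b.ring) (n : ℕ), π ^ n ∣ r ↔ b.val (r : K) ≤ WithZero.exp (-(n : ℤ)))
    {q : ι → b.ring} (hq : ∀ i, π ∣ q i) (j : Fin (ν + 1)) :
    b.val (algebraMap b.ring K (ptN (eR b e) q j) - algebraMap k K (e none j)) < 1 := by
  have h1 : π ∣ ptN (eR b e) q j - eR b e none j := by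
    unfold ptN
    rw [add_sub_cancel_left]
    exact Finset.dvd_sum fun i _ => Dvd.dvd.mul_right (hq i) _
  rw [PointN_lt hR hπ] at h1
  exact h1

/-- Conversely, such a point specialises to the origin of the chart. -/
theorem red_chart (hR : Res π χ)
    (hπ : ∀ (r : b.ring) (n : ℕ), π ^ n ∣ r ↔ b.val (r : K) ≤ WithZero.exp (-(n : ℤ)))
    {e : Option ι → Fin (ν + 1) → k} (h0 : e none ≠ 0) {y : Fin (ν + 1) → K} {c : K}
    {q : ι → b.ring} (hc : c ≠ 0) (hq : ∀ i, π ∣ q i)
    (hy : ∀ j, y j = c * algebraMap b.ring K (ptN (eR b e) q j)) : Red b y (e none) := by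
  refine ⟨h0, c⁻¹, inv_ne_zero hc, fun j => ?_⟩
  rw [hy j, inv_mul_cancel_left₀ hc]
  exact PointN_red hR hπ hq j

theorem PointN_coordK {e : Option ι → Fin (ν + 1) → k} {B : Fin (ν + 1) → Option ι → k}
    (h₁ : ∀ a a', ∑ i, e a i * B i a' = if a = a' then 1 else 0) (c : K) (q : ι → b.ring)
    (a : Option ι) :
    ∑ j, c * algebraMap b.ring K (ptN (eR b e) q j) * algebraMap k K (B j a) =
      c * algebraMap b.ring K (a.elim 1 q) := by
  rw [← PointN_coord h₁ q a, map_sum, Finset.mul_sum]
  refine Finset.sum_congr rfl fun j _ => ?_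
  rw [map_mul, mul_assoc]
  rfl

/-- Proportional points have the same coordinates. -/
theorem chart_peq {e : Option ι → Fin (ν + 1) → k} {B : Fin (ν + 1) → Option ι → k}
    (h₁ : ∀ a a', ∑ i, e a i * B i a' = if a = a' then 1 else 0)
    {c c' : K} {q q' : ι → b.ring} (hc : c ≠ 0) (hc' : c' ≠ 0) :
    PEq (fun j => c * algebraMap b.ring K (ptN (eR b e) q j))
      (fun j => c' * algebraMap b.ring K (ptN (eR b e) q' j)) ↔ q = q' := by
  constructor
  · rintro ⟨t, ht, h⟩
    have h2 : ∀ a : Option ι, c' * algebraMap b.ring K (a.elim 1 q') =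
        t * (c * algebraMap b.ring K (a.elim 1 q)) := by
      intro a
      rw [← PointN_coordK h₁ c' q' a, ← PointN_coordK h₁ c q a, Finset.mul_sum]
      refine Finset.sum_congr rfl fun j _ => ?_
      have h3 := congrFun h j
      simp only [Pi.smul_apply, smul_eq_mul] at h3
      rw [h3]
      ring
    have h4 := h2 none
    simp only [Option.elim_none, map_one, mul_one] at h4
    funext i
    have h5 := h2 (some i)
    simp only [Option.elim_some] at h5
    rw [h4, ← mul_assoc] at h5
    have h6 : algebraMap b.ring K (q' i) = algebraMap b.ring K (q i) :=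
      mul_left_cancel₀ (mul_ne_zero ht hc) h5
    exact (Subtype.ext h6).symm
  · rintro rfl
    refine ⟨c' / c, div_ne_zero hc' hc, ?_⟩
    funext j
    simp only [Pi.smul_apply, smul_eq_mul]
    rw [← mul_assoc, div_mul_cancel₀ _ hc]

theorem PointN_nrm {e : Option ι → Fin (ν + 1) → k} (hR : Res π χ)
    (hπ : ∀ (r : b.ring) (n : ℕ), π ^ n ∣ r ↔ b.val (r : K) ≤ WithZero.exp (-(n : ℤ)))
    (h0 : e none ≠ 0) {x : Fin (ν + 1) → K} {c : K} {q : ι → b.ring} (hq : ∀ i, π ∣ q i)
    (hx : ∀ j, x j = c * algebraMap b.ring K (ptN (eR b e) q j)) : nrm b x = b.val c := by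
  have h1 : x = c • fun j => algebraMap b.ring K (ptN (eR b e) q j) := by
    funext j
    rw [hx j]
    rfl
  rw [h1, nrm_smul, nrm_red h0 (PointN_red hR hπ hq), mul_one]

theorem PointN_minor {e : Option ι → Fin (ν + 1) → k} {B : Fin (ν + 1) → Option ι → k}
    (h₁ : ∀ a a', ∑ i, e a i * B i a' = if a = a' then 1 else 0) (p q : ι → b.ring)
    (z : b.ring) :
    (∀ i j, z ∣ ptN (eR b e) p i * ptN (eR b e) q j - ptN (eR b e) p j * ptN (eR b e) q i) ↔
      ∀ a, z ∣ p a - q a := by
  constructor
  · intro h a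
    have h2 : ∑ i, ∑ j, (ptN (eR b e) p i * ptN (eR b e) q j -
        ptN (eR b e) p j * ptN (eR b e) q i) *
        (algebraMap k b.ring (B i (some a)) * algebraMap k b.ring (B j none)) = p a - q a := by
      have h3 : ∀ i j, (ptN (eR b e) p i * ptN (eR b e) q j -
          ptN (eR b e) p j * ptN (eR b e) q i) *
          (algebraMap k b.ring (B i (some a)) * algebraMap k b.ring (B j none)) =
          (ptN (eR b e) p i * algebraMap k b.ring (B i (some a))) *
            (ptN (eR b e) q j * algebraMap k b.ring (B j none)) -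
          (ptN (eR b e) q i * algebraMap k b.ring (B i (some a))) *
            (ptN (eR b e) p j * algebraMap k b.ring (B j none)) := by
        intro i j
        ring
      simp only [h3, Finset.sum_sub_distrib]
      rw [← Finset.sum_mul_sum, ← Finset.sum_mul_sum]
      rw [PointN_coord h₁, PointN_coord h₁, PointN_coord h₁, PointN_coord h₁]
      simp
    rw [← h2]
    exact Finset.dvd_sum fun i _ => Finset.dvd_sum fun j _ => Dvd.dvd.mul_right (h i j) _
  · intro h i j
    have h4 : ∀ j, z ∣ ptN (eR b e) p j - ptN (eR b e) q j := by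
      intro j
      unfold ptN
      rw [add_sub_add_left_eq_sub, ← Finset.sum_sub_distrib]
      refine Finset.dvd_sum fun a _ => ?_
      rw [← sub_mul]
      exact Dvd.dvd.mul_right (h a) _
    have h5 : ptN (eR b e) p i * ptN (eR b e) q j - ptN (eR b e) p j * ptN (eR b e) q i =
        (ptN (eR b e) p i - ptN (eR b e) q i) * ptN (eR b e) q j -
        (ptN (eR b e) p j - ptN (eR b e) q j) * ptN (eR b e) q i := by
      ring
    rw [h5]
    exact dvd_sub (Dvd.dvd.mul_right (h4 i) _) (Dvd.dvd.mul_right (h4 j) _)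

/-- The distance of points in the coordinates of the chart. -/
theorem crossTo_iff_conv (hR : Res π χ)
    (hπ : ∀ (r : b.ring) (n : ℕ), π ^ n ∣ r ↔ b.val (r : K) ≤ WithZero.exp (-(n : ℤ)))
    {e : Option ι → Fin (ν + 1) → k} {B : Fin (ν + 1) → Option ι → k}
    (h₁ : ∀ a a', ∑ i, e a i * B i a' = if a = a' then 1 else 0)
    {x y : ℕ → Fin (ν + 1) → K} {c c' : ℕ → K} {p q : ℕ → ι → b.ring} (hc : ∀ s, c s ≠ 0)
    (hc' : ∀ s, c' s ≠ 0) (hp : ∀ s i, π ∣ p s i) (hq : ∀ s i, π ∣ q s i)
    (hx : ∀ s j, x s j = c s * algebraMap b.ring K (ptN (eR b e) (p s) j))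
    (hy : ∀ s j, y s j = c' s * algebraMap b.ring K (ptN (eR b e) (q s) j)) :
    CrossTo b x y ↔ Conv π p q := by
  have h0 : e none ≠ 0 := PointN_none_ne h₁
  have key : ∀ (I s : ℕ), (∀ i j, b.val (x s i * y s j - x s j * y s i) ≤
      WithZero.exp (-(I : ℤ)) * (nrm b (x s) * nrm b (y s))) ↔
      ∀ i, π ^ I ∣ p s i - q s i := by
    intro I s
    rw [← PointN_minor h₁ (p s) (q s) (π ^ I)]
    rw [PointN_nrm hR hπ h0 (hp s) (hx s), PointN_nrm hR hπ h0 (hq s) (hy s)]
    refine forall_congr' fun i => forall_congr' fun j => ?_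
    have h2 : x s i * y s j - x s j * y s i = (c s * c' s) *
        algebraMap b.ring K (ptN (eR b e) (p s) i * ptN (eR b e) (q s) j -
          ptN (eR b e) (p s) j * ptN (eR b e) (q s) i) := by
      rw [hx, hx, hy, hy, map_sub, map_mul, map_mul]
      ring
    rw [h2, map_mul, map_mul, hπ]
    have h3 : 0 < b.val (c s) * b.val (c' s) := by
      rw [zero_lt_iff, ← map_mul]
      simpa using mul_ne_zero (hc s) (hc' s)
    rw [mul_comm (WithZero.exp (-(I : ℤ)))]
    exact mul_le_mul_iff_of_pos_left h3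
  unfold CrossTo Conv
  simp only [key]

end Pool.Agent.Helper89.TNL
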