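import Pool.Agent.Helper89.TNL.IterN
import Pool.Agent.Helper89.TNL.PointN
import Pool.Agent.Helper89.TNL.ChartN
import Pool.Agent.Helper63.TN.Defs

/-!
# Auxiliary statements for the local theorem
-/

set_option autoImplicit false

namespace Pool.Agent.Helper89.TNL

open MvPolynomial
open Pool.Agent.Helper16 (Place IsFunctionField)
open Pool.Agent.Helper36 (step iter iter_zero iter_succ iter_succ' iter_add)
open Pool.Agent.Helper38.TQ
open Pool.Agent.Helper30.TKN
open Pool.Agent.Helper63.TN (OnI IsCurve NonPer NearPt IsPer pull)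

variable {ν : ℕ}

/-- A class modulo `Q` with infinitely many elements. -/
theorem Place_class {S : Set ℕ} (hS : S.Infinite) {Q : ℕ} (hQ : 0 < Q) :
    ∃ r, {s | r + Q * s ∈ S}.Infinite := by
  by_contra hcon
  push Not at hcon
  refine hS (Set.Finite.subset (s := ⋃ r ∈ Finset.range Q, (fun s => r + Q * s) ''
    {s | r + Q * s ∈ S}) ?_ ?_)
  · refine Set.Finite.biUnion (Finset.finite_toSet _) fun r _ => ?_
    exact (Set.not_infinite.1 (by simpa using hcon r)).image _
  · intro j hj
    simp only [Set.mem_iUnion]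
    refine ⟨j % Q, Finset.mem_range.2 (Nat.mod_lt _ hQ), j / Q, ?_, Nat.mod_add_div j Q⟩
    show j % Q + Q * (j / Q) ∈ S
    rw [Nat.mod_add_div]
    exact hj

/-- Finitely many homogeneous generators. -/
theorem Place_gens {K : Type} [Field K] {I : Ideal (MvPolynomial (Fin (ν + 1)) K)}
    (hI : ∀ G ∈ I, ∀ m, homogeneousComponent m G ∈ I) :
    ∃ (σ : Type) (_ : Finite σ) (h : σ → MvPolynomial (Fin (ν + 1)) K) (n : σ → ℕ),
      (∀ i, (h i).IsHomogeneous (n i)) ∧ (∀ i, h i ∈ I) ∧ Ideal.span (Set.range h) = I := by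
  classical
  obtain ⟨S, hS⟩ := (isNoetherianRing_iff_ideal_fg _).1
    (inferInstance : IsNoetherianRing (MvPolynomial (Fin (ν + 1)) K)) I
  set D := S.sup totalDegree with hD
  refine ⟨{x // x ∈ S ×ˢ Finset.range (D + 1)}, inferInstance,
    fun x => homogeneousComponent x.1.2 x.1.1, fun x => x.1.2, fun x =>
      homogeneousComponent_isHomogeneous _ _, fun x => ?_, le_antisymm ?_ ?_⟩
  · refine hI _ ?_ _
    rw [← hS]
    exact Ideal.subset_span (Finset.mem_product.1 x.2).1
  · rw [Ideal.span_le]
    rintro _ ⟨x, rfl⟩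
    refine hI _ ?_ _
    rw [← hS]
    exact Ideal.subset_span (Finset.mem_product.1 x.2).1
  · rw [← hS, Ideal.span_le]
    intro g hg
    have h1 : g = ∑ i ∈ Finset.range (g.totalDegree + 1), homogeneousComponent i g :=
      (sum_homogeneousComponent g).symm
    rw [SetLike.mem_coe, h1]
    refine Ideal.sum_mem _ fun i hi => ?_
    have hi1 : i < g.totalDegree + 1 := Finset.mem_range.1 hi
    have hi2 : g.totalDegree ≤ D := Finset.le_sup (f := totalDegree) hg
    exact Ideal.subset_span ⟨⟨(g, i), Finset.mem_product.2 ⟨hg, Finset.mem_range.2 (by omega)⟩⟩, rfl⟩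

/-- The value of the polynomials which define the iterates at points over an extension. -/
theorem Place_aeval_pull {K : Type} [Field K] (F : Fin (ν + 1) → MvPolynomial (Fin (ν + 1)) K)
    {L : Type} [Field L] [Algebra K L] (w : Fin (ν + 1) → L) (N : ℕ)
    (P : MvPolynomial (Fin (ν + 1)) K) : aeval w (pull F N P) = aeval (iter F w N) P := by
  have h1 : ∀ (Q : MvPolynomial (Fin (ν + 1)) K) (y : Fin (ν + 1) → L),
      aeval y (aeval F Q) = aeval (step F y) Q := by
    intro Q y
    rw [comp_aeval_apply]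
    rfl
  unfold pull
  induction N generalizing P with
  | zero => rfl
  | succ N ih => rw [Function.iterate_succ_apply, ih, h1, iter_succ]

theorem Place_aeval_itN {K : Type} [Field K] (F : Fin (ν + 1) → MvPolynomial (Fin (ν + 1)) K)
    {L : Type} [Field L] [Algebra K L] (w : Fin (ν + 1) → L) (N : ℕ) (i : Fin (ν + 1)) :
    aeval w (itN F N i) = iter F w N i := by
  have h1 := Place_aeval_pull F w N (X i)
  rw [aeval_X] at h1
  exact h1

/-- The polynomials which define the iterates, composed with a polynomial. -/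
theorem Place_pull {K : Type} [Field K] (F : Fin (ν + 1) → MvPolynomial (Fin (ν + 1)) K) (N : ℕ)
    (P : MvPolynomial (Fin (ν + 1)) K) : pull F N P = aeval (itN F N) P := by
  unfold pull
  induction N with
  | zero =>
    have h1 : itN F 0 = (X : Fin (ν + 1) → MvPolynomial (Fin (ν + 1)) K) := rfl
    rw [h1, aeval_X_left, AlgHom.id_apply]
    rfl
  | succ N ih =>
    have h1 : itN F (N + 1) =
        fun i => (aeval F : _ →ₐ[K] MvPolynomial (Fin (ν + 1)) K) (itN F N i) := by
      funext i
      unfold itN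
      rw [Function.iterate_succ_apply']
    rw [Function.iterate_succ_apply', ih, h1, comp_aeval_apply]

theorem Place_pull_hom {K : Type} [Field K] {d : ℕ}
    {F : Fin (ν + 1) → MvPolynomial (Fin (ν + 1)) K} (hF : ∀ i, (F i).IsHomogeneous d)
    {P : MvPolynomial (Fin (ν + 1)) K} {e : ℕ} (hP : P.IsHomogeneous e) (N : ℕ) :
    (pull F N P).IsHomogeneous (d ^ N * e) := by
  rw [Place_pull]
  exact hP.aeval _ (itN_hom hF N)

section place

variable {k K : Type} [Field k] [Field K] [Algebra k K] {b : Place k K}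

/-- Scaling the reduction. -/
theorem Place_red_smul {y : Fin (ν + 1) → K} {z : Fin (ν + 1) → k} (h : Red b y z) {c : k}
    (hc : c ≠ 0) : Red b y (c • z) := by
  obtain ⟨hz, a, ha, h1⟩ := h
  refine ⟨smul_ne_zero hc hz, algebraMap k K c * a,
    mul_ne_zero ((map_ne_zero_iff _ (algebraMap k K).injective).2 hc) ha, fun i => ?_⟩
  have h2 : algebraMap k K c * a * y i - algebraMap k K ((c • z) i) =
      algebraMap k K c * (a * y i - algebraMap k K (z i)) := by
    rw [Pi.smul_apply, smul_eq_mul, map_mul]
    ring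
  rw [h2, map_mul, b.triv c hc, one_mul]
  exact h1 i

theorem Place_red_peq {y : Fin (ν + 1) → K} {z z' : Fin (ν + 1) → k} (h : Red b y z)
    (hz : PEq z z') : Red b y z' := by
  obtain ⟨c, hc, rfl⟩ := hz
  exact Place_red_smul h hc

/-- Multiples of a period. -/
theorem Place_per [IsAlgClosed k] {d : ℕ} {f : Fin (ν + 1) → MvPolynomial (Fin (ν + 1)) k}
    (hf : IsEndo d f) {z : Fin (ν + 1) → k} {N : ℕ} (hfix : PEq z (iter f z N)) (j : ℕ) :
    PEq z (iter f z (N * j)) := by
  induction j with
  | zero => exact PEq.refl z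
  | succ j ih =>
    have h1 : N * (j + 1) = N * j + N := by ring
    rw [h1, iter_add]
    exact ih.trans (hfix.iter hf (N * j))

end place

end Pool.Agent.Helper89.TNL
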