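import Pool.Agent.Helper89.TNL.Taylor

/-!
# The iterates of the germ are, modulo powers of `π`, polynomials
-/

set_option autoImplicit false

namespace Pool.Agent.Helper89.TNL

open MvPolynomial

variable {R ι : Type} [CommRing R] [IsDomain R] [Fintype ι] [DecidableEq ι] {π : R}
  {A0 : MvPolynomial ι R} {A : ι → MvPolynomial ι R}

theorem approx_iter (hπ : Pool.Agent.Helper63.TS.Unif π) (hA : GermN π A0 A) (s I : ℕ) :
    ∃ P : ι → MvPolynomial ι R, ∀ p : ℕ → ι → R, OrbN π A0 A p →
      ∀ i, π ^ I ∣ p s i - eval (p 0) (P i) := by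
  sorry

end Pool.Agent.Helper89.TNL
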