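import Pool.Agent.Helper89.TNL.EPR
import Pool.Agent.Helper89.TNL.EPolB

/-!
# The digits of the rescaled orbit are exponential polynomials
-/

set_option autoImplicit false

namespace Pool.Agent.Helper89.TNL

open MvPolynomial

variable {R k : Type} [CommRing R] [IsDomain R] [Field k] [Algebra k R] {π : R} {χ : R →+* k}
  {G : Subgroup kˣ}

omit [IsDomain R] in
theorem rec_zero (f : ℕ → R) : EPR G π 0 f :=
  ⟨0, fun _ => 0, fun _ => (EPol k G).zero_mem, fun _ _ => by simp⟩

theorem epr_of_rec [IsAlgClosed k] [CharZero k] (hR : Res π χ) {α β : Type} [Fintype α]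
    [DecidableEq α] [Fintype β] [DecidableEq β] (M₁ : Matrix α α k) (hM : EigIn G M₁)
    {ξ : ℕ → α ⊕ β → R}
    (hrec : ∃ c : α ⊕ β → R, ∀ I : ℕ, ∃ P : α ⊕ β → MvPolynomial (α ⊕ β) R, ∀ t i,
      π ^ I ∣ ξ (t + 1) i - (c i + ∑ l, algebraMap k R (Matrix.fromBlocks M₁ 0 0 0 i l) * ξ t l +
        π * eval (ξ t) (P i))) :
    ∀ I i, EPR G π I (fun t => ξ t i) := by
  obtain ⟨c, hc⟩ := hrec
  intro I
  induction I with
  | zero => exact fun i => rec_zero _
  | succ I ih =>
    obtain ⟨P, hP⟩ := hc (I + 1)
    have hg : ∀ i, EPR G π (I + 1) (fun t => c i + π * eval (ξ t) (P i)) := fun i =>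
      epr_add (epr_const hR (I + 1) (c i)) (epr_pi (epr_eval hR ih (P i)))
    rintro (a | b)
    · -- the unit part
      choose d hd using fun (t : ℕ) (a : α) => exists_digits hR (ξ t (Sum.inl a))
      choose T φ hφ hT using fun a : α => hg (Sum.inl a)
      set T₀ : ℕ := Finset.univ.sup T with hT₀
      have hle : ∀ a, T a ≤ T₀ := fun a => Finset.le_sup (f := T) (Finset.mem_univ a)
      have hdig : ∀ t, T₀ ≤ t → ∀ a, ∀ j < I + 1,
          d (t + 1) a j = ∑ b, M₁ a b * d t b j + φ a j t := by
        intro t ht a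
        refine digits_unique hR ?_
        have h1 := hd (t + 1) a (I + 1)
        have h2 := hP t (Sum.inl a)
        have h3 := hT a t ((hle a).trans ht)
        have h4 : π ^ (I + 1) ∣ ∑ b, algebraMap k R (M₁ a b) * (ξ t (Sum.inl b) -
            ∑ i ∈ Finset.range (I + 1), π ^ i * algebraMap k R (d t b i)) :=
          Finset.dvd_sum fun b _ => Dvd.dvd.mul_left (hd t b (I + 1)) _
        have h5 := ((h2.sub h1).add h3).add h4
        convert h5 using 1
        rw [Fintype.sum_sum_type]
        simp only [Matrix.fromBlocks_apply₁₁, Matrix.fromBlocks_apply₁₂, Matrix.zero_apply,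
          map_zero, zero_mul, Finset.sum_const_zero, add_zero, map_add, map_sum, map_mul, mul_add,
          mul_sub, Finset.sum_add_distrib, Finset.sum_sub_distrib, Finset.mul_sum]
        rw [Finset.sum_comm (s := (Finset.univ : Finset α))]
        have e : ∀ x ∈ Finset.range (I + 1), ∀ y ∈ (Finset.univ : Finset α),
            algebraMap k R (M₁ a y) * (π ^ x * algebraMap k R (d t y x)) =
              π ^ x * (algebraMap k R (M₁ a y) * algebraMap k R (d t y x)) := fun x _ y _ => by
          ring
        rw [Finset.sum_congr rfl fun x hx => Finset.sum_congr rfl (e x hx)]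
        ring
      have hw : ∀ j : ℕ, ∃ w : α → ℕ → k, (∀ a, w a ∈ EPol k G) ∧
          (j < I + 1 → ∀ t, T₀ ≤ t → ∀ a, d t a j = w a t) := by
        intro j
        by_cases hj : j < I + 1
        · obtain ⟨w, h1, h2⟩ := epol_solve_late M₁ hM (f := fun a => φ a j)
            (v := fun a t => d t a j) (fun a => hφ a j) (T := T₀)
            (fun t ht a => hdig t ht a j hj)
          exact ⟨w, h1, fun _ => h2⟩
        · exact ⟨fun _ => 0, fun _ => (EPol k G).zero_mem, fun h => absurd h hj⟩
      choose w hw1 hw2 using hw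
      refine ⟨T₀, fun j => w j a, fun j => hw1 j a, fun t ht => ?_⟩
      have h1 := hd t a (I + 1)
      have e : ∑ i ∈ Finset.range (I + 1), π ^ i * algebraMap k R (w i a t) =
          ∑ i ∈ Finset.range (I + 1), π ^ i * algebraMap k R (d t a i) :=
        Finset.sum_congr rfl fun i hi => by
          rw [hw2 i (Finset.mem_range.1 hi) t ht a]
      rw [e]
      exact h1
    · -- the nilpotent part
      refine epr_unshift (epr_congr (hg (Sum.inr b)) (T := 0) fun t _ => ?_)
      have h := hP t (Sum.inr b)
      rw [Fintype.sum_sum_type] at h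
      simpa using h

end Pool.Agent.Helper89.TNL
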