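import Pool.Agent.Helper89.TNL.EPolA
import Pool.Agent.Helper65.TNL.Bridge

/-!
# Exponential polynomials with infinitely many zeros
-/

set_option autoImplicit false

namespace Pool.Agent.Helper89.TNL

variable {k : Type} [Field k] {G : Subgroup kˣ}

/-- An exponential polynomial with roots in a torsion free group which vanishes along an
arithmetic progression is zero. -/
theorem epol_zero_of_ap [CharZero k] (hG : TorsFree G) {f : ℕ → k} (hf : f ∈ EPol k G) {a q : ℕ}
    (hq : 0 < q) (h : ∀ t, f (a + q * t) = 0) : f = 0 :=
  Pool.Agent.Helper65.TNL.epol_zero_of_ap hG hf hq h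

theorem skolem [Algebra k ℂ] (hG : TorsFree G) {f : ℕ → k} (hf : f ∈ EPol k G)
    (hinf : {t | f t = 0}.Infinite) : f = 0 := by
  have : CharZero k := (algebraMap k ℂ).charZero
  exact Pool.Agent.Helper65.TNL.epol_skolem hG hf hinf

end Pool.Agent.Helper89.TNL
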