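import Pool.Agent.Helper89.TNL.Defs

/-!
# Taylor expansions of first order
-/

set_option autoImplicit false

namespace Pool.Agent.Helper89.TNL

open MvPolynomial

variable {R ι : Type} [CommRing R] [Fintype ι] [DecidableEq ι]

omit [Fintype ι] in
theorem Taylor_coeff_mul_X (P : MvPolynomial ι R) (i j : ι) :
    (P * X i).coeff (Finsupp.single j 1) = if i = j then P.coeff 0 else 0 := by
  rw [coeff_mul_X']
  by_cases h : i = j
  · subst h
    simp
  · rw [if_neg h, if_neg]
    rw [Finsupp.mem_support_iff, Finsupp.single_apply, not_not, if_neg (Ne.symm h)]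

omit [Fintype ι] [DecidableEq ι] in
theorem Taylor_coeff_zero_mul_X (P : MvPolynomial ι R) (i : ι) : (P * X i).coeff 0 = 0 := by
  classical
  rw [coeff_mul_X']
  simp

omit [Fintype ι] [DecidableEq ι] in
theorem Taylor_coeff_C (a : R) (j : ι) :
    (C a : MvPolynomial ι R).coeff (Finsupp.single j 1) = 0 := by
  classical
  rw [coeff_C, if_neg]
  intro h
  have := Finsupp.single_eq_zero.1 h.symm
  exact one_ne_zero this

theorem eval_zero_congr {π : R} (P : MvPolynomial ι R) {v : ι → R} (hv : ∀ i, π ∣ v i) :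
    π ∣ eval v P - P.coeff 0 := by
  induction P using MvPolynomial.induction_on with
  | C a => simp
  | add P Q hP hQ =>
    rw [map_add, coeff_add]
    have e : eval v P + eval v Q - (P.coeff 0 + Q.coeff 0) =
        (eval v P - P.coeff 0) + (eval v Q - Q.coeff 0) := by ring
    rw [e]
    exact dvd_add hP hQ
  | mul_X P i _ =>
    rw [Taylor_coeff_zero_mul_X, map_mul, eval_X, sub_zero]
    exact (hv i).mul_left _

theorem taylor_n {π : R} (P : MvPolynomial ι R) {v w : ι → R} (hv : ∀ i, π ∣ v i)
    (hw : ∀ i, π ∣ w i) :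
    ∃ r : ι → R, eval v P - eval w P = ∑ i, (P.coeff (Finsupp.single i 1) + π * r i) *
      (v i - w i) := by
  induction P using MvPolynomial.induction_on with
  | C a =>
    refine ⟨fun _ => 0, ?_⟩
    simp only [Taylor_coeff_C]
    simp
  | add P Q hP hQ =>
    obtain ⟨r, hr⟩ := hP
    obtain ⟨s, hs⟩ := hQ
    refine ⟨fun i => r i + s i, ?_⟩
    have e : eval v (P + Q) - eval w (P + Q) =
        (eval v P - eval w P) + (eval v Q - eval w Q) := by
      rw [map_add, map_add]
      ring
    rw [e, hr, hs, ← Finset.sum_add_distrib]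
    refine Finset.sum_congr rfl fun i _ => ?_
    rw [coeff_add]
    ring
  | mul_X P i hP =>
    obtain ⟨r, hr⟩ := hP
    obtain ⟨c, hc⟩ := eval_zero_congr P hv
    obtain ⟨t, ht⟩ := hw i
    refine ⟨fun j => (if i = j then c else 0) +
      t * (P.coeff (Finsupp.single j 1) + π * r j), ?_⟩
    have e : eval v (P * X i) - eval w (P * X i) =
        eval v P * (v i - w i) + w i * (eval v P - eval w P) := by
      rw [map_mul, map_mul, eval_X, eval_X]
      ring
    have e2 : eval v P = P.coeff 0 + π * c := by rw [← hc]; ring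
    have e3 : ∀ j, ((P * X i).coeff (Finsupp.single j 1) + π * ((if i = j then c else 0) +
        t * (P.coeff (Finsupp.single j 1) + π * r j))) * (v j - w j) =
        (if i = j then (P.coeff 0 + π * c) * (v j - w j) else 0) +
        π * t * ((P.coeff (Finsupp.single j 1) + π * r j) * (v j - w j)) := by
      intro j
      rw [Taylor_coeff_mul_X]
      split_ifs
      · ring
      · ring
    rw [e, hr]
    simp only [e3]
    rw [Finset.sum_add_distrib, ← Finset.mul_sum, Finset.sum_ite_eq, if_pos (Finset.mem_univ i),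
      e2, ht]

/-- The expansion at a point of the polydisc, in a rescaled variable. -/
theorem taylor_res {π : R} (P : MvPolynomial ι R) {v : ι → R} (hv : ∀ i, π ∣ v i) {e : ℕ}
    (he : 1 ≤ e) : ∃ Q : MvPolynomial ι R, ∀ u : ι → R,
      eval (fun i => v i + π ^ e * u i) P = eval v P +
        π ^ e * (∑ i, P.coeff (Finsupp.single i 1) * u i + π * eval u Q) := by
  induction P using MvPolynomial.induction_on with
  | C a =>
    refine ⟨0, fun u => ?_⟩
    simp only [Taylor_coeff_C]
    simp
  | add P Q hP hQ =>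
    obtain ⟨p, hp⟩ := hP
    obtain ⟨q, hq⟩ := hQ
    refine ⟨p + q, fun u => ?_⟩
    rw [map_add, map_add, map_add, hp, hq]
    simp only [coeff_add, add_mul, Finset.sum_add_distrib]
    ring
  | mul_X P i hP =>
    obtain ⟨q, hq⟩ := hP
    obtain ⟨c, hc⟩ := eval_zero_congr P hv
    obtain ⟨t, ht⟩ := hv i
    obtain ⟨f, rfl⟩ : ∃ f, e = f + 1 := ⟨e - 1, by omega⟩
    obtain ⟨L, hL⟩ : ∃ L : MvPolynomial ι R,
        ∀ u, eval u L = ∑ j, P.coeff (Finsupp.single j 1) * u j :=
      ⟨∑ j, C (P.coeff (Finsupp.single j 1)) * X j, fun u => by simp⟩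
    refine ⟨C c * X i + C t * (L + C π * q) + C (π ^ f) * (L + C π * q) * X i, fun u => ?_⟩
    have e2 : eval v P = P.coeff 0 + π * c := by rw [← hc]; ring
    have e3 : ∑ j, (P * X i).coeff (Finsupp.single j 1) * u j = P.coeff 0 * u i := by
      simp only [Taylor_coeff_mul_X, ite_mul, zero_mul]
      rw [Finset.sum_ite_eq, if_pos (Finset.mem_univ i)]
    rw [e3, map_mul, map_mul, eval_X, eval_X, hq, ← hL]
    simp only [map_add, map_mul, eval_C, eval_X]
    rw [e2, ht]
    ring

/-- The restriction to a smaller polydisc is a polynomial. -/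
theorem eval_resc (P : MvPolynomial ι R) (v : ι → R) (c : R) :
    ∃ Q : MvPolynomial ι R, ∀ u : ι → R, eval (fun i => v i + c * u i) P = eval u Q := by
  induction P using MvPolynomial.induction_on with
  | C a => exact ⟨C a, fun u => by simp⟩
  | add P Q hP hQ =>
    obtain ⟨p, hp⟩ := hP
    obtain ⟨q, hq⟩ := hQ
    exact ⟨p + q, fun u => by rw [map_add, map_add, hp, hq]⟩
  | mul_X P i hP =>
    obtain ⟨p, hp⟩ := hP
    refine ⟨p * (C (v i) + C c * X i), fun u => ?_⟩
    rw [map_mul, eval_X, hp]
    simp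

end Pool.Agent.Helper89.TNL
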